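import Pool.Agent.Helper51.LIP.Dir

/-! LIP, row (2.3), second part: the leak of the pair of labels at the second point bounds the probability that the
conormals are not close. -/

set_option autoImplicit false

namespace Pool.Agent.Helper51.LD2

open Finset Filter Topology Matrix Pool.Agent.Helper69.RK Pool.Agent.Helper31.EC Pool.Agent.Helper40.EL
open Pool.Agent.Helper31.EC.Sp
open Pool.Agent.Helper95.LF (PdM)
open Pool.Agent.Helper3.LF Pool.Agent.Helper89.LX Pool.Agent.Helper3.SG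
open Pool.Agent.Helper48.NS Pool.Agent.Helper48.LIP Pool.Agent.Helper39.LIP Pool.Agent.Helper3.PR
open Pool.Agent.Helper80.MX

noncomputable section

variable {S : Sp} {s : Sys S 3} {s' : Sys S 2} {ι : Type}
  {x : ∀ k, FD (S.F k) ι} {x' : ∀ k, FD (S.F k) (Mon (2 + 1) 1)} {c : ℝ}

/-- the event: both eigenvalues are large and the conormals are not close on horizontal directions -/
def Tev (O : XO s s' x x' c) (θ ν : ℝ) (k : ℕ) (w : (O.X k).l.T.Ω × (O.X k).l.T.Ω) : Prop :=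
  2 ^ (2 * θ * (S.F k).n) ≤ O.mu k w.1 ∧ 2 ^ (2 * θ * (S.F k).n) ≤ O.mu k w.2 ∧
    ¬ CloM (O.g₀ k w.2) (2 ^ (-(ν * (S.F k).n))) (O.n k w.1) (O.n k w.2)

/-- the velocity of the third coordinate (ZVEL) -/
def Zve (O : XO s s' x x' c) (i : Fin 3) (a b : ℝ) : Prop :=
  ∀ e : ℝ, 0 < e → ∃ G : ∀ k, (O.X k).l.T.Ω → Prop, Tendsto (fun k => (O.X k).l.T.pb (fun ω => ¬ G k ω)) UF (𝓝 0) ∧
    ∀ᶠ k in UF, ∀ ω ω', (O.X k).l.T.μ ω ≠ 0 → (O.X k).l.T.μ ω' ≠ 0 → G k ω → G k ω' →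
    (O.X k).l.V ω ω' → (O.X k).l.T.Z ω ω' →
    (s.fin k).kP 1 ((O.X k).l.p.π ω) ((O.X k).l.p.π ω') → (s.fin k).kt 1 ((O.X k).l.p.π ω) ((O.X k).l.p.π ω') →
    |s.x.v k ((O.X k).l.p.π ω) i - s.x.v k ((O.X k).l.p.π ω') i| ≤ 2 ^ ((a + e) * (S.F k).n) *
      (2 ^ (-(b * (S.F k).n)) + ∑ j : Fin 2, |s.x.v k ((O.X k).l.p.π ω) (i.succAbove j) -
        s.x.v k ((O.X k).l.p.π ω') (i.succAbove j)|)

theorem dir_lt (O : XO s s' x x' c) (fac : Fac s s') (i : Fin 3)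
    (lit : ∀ k ω j, s'.x.v k ω j = s.x.v k ω (i.succAbove j)) (h0 : 0 ≤ c) (h1 : c < 1)
    (hx' : (gau s' 1).Opt (cA s c) (cB s) x') {g : ℝ} (hg : Rich s g) {a b : ℝ} (ha : 0 ≤ a)
    (hz : Zve O i a b) {θ ν : ℝ} (hν : 0 ≤ ν) {lk : ℝ} (hl0 : 0 ≤ lk)
    (hlk : ∀ e : ℝ, 0 < e → ∀ᶠ k in UF, (LA O k).leak (cB s k) ≤ (lk + e) * (S.F k).n) {ρ : ℝ}
    (hρ0 : 0 ≤ ρ) (hρ1 : ρ ≤ 1) (r1 : ρ < θ - ν - a) (r2 : ρ < b - a) :
    ul (fun k => (AmA O k).sp.pb (Tev O θ ν k)) * (g * ρ) ≤ lk := by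
  -- the loss
  obtain ⟨e, he, e1, e2⟩ : ∃ e : ℝ, 0 < e ∧ 8 * e ≤ θ - ν - a - ρ ∧ 8 * e ≤ b - a - ρ := by
    refine ⟨min (θ - ν - a - ρ) (b - a - ρ) / 8, ?_, ?_, ?_⟩
    · have : 0 < min (θ - ν - a - ρ) (b - a - ρ) := lt_min (by linarith) (by linarith)
      linarith
    · have := min_le_left (θ - ν - a - ρ) (b - a - ρ)
      linarith
    · have := min_le_right (θ - ν - a - ρ) (b - a - ρ)
      linarith
  obtain ⟨G, hG, hGz⟩ := hz e he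
  have tG : Typ (S := (LA O).sp) (fun k w => G k ((AmA O k).p2.π w)) := AmA_typ2 O hG
  have tf := far_vel O fac i.succAbove lit h0 h1 e he
  have tn := near_vel O fac h0 h1 e he
  have tl := low_pair O fac h1 hx' e he
  have tall := typ_and (typ_and tG tl) (typ_and tf tn)
  set GG : ∀ k, ((LA O).sp.F k).Ω → Prop := fun k w =>
    ((G k ((AmA O k).p2.π w)) ∧ ∀ u : Fin (2 + 1) → ℝ,
      2 ^ (2 * (c - e) * (S.F k).n) * (u ⬝ᵥ u) ≤ qf (O.g₀ k w.2) (gv u)) ∧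
    (qf ((O.X k).g w.1) (gv (Fin.cons 1 (s'.x.v k ((O.X k).l.p.π w.2)) : Fin (2 + 1) → ℝ)) ≤
        2 ^ (2 * (c + e) * (S.F k).n) ∧
      qf ((O.X k).g w.2) (gv (Fin.cons 1 (s'.x.v k ((O.X k).l.p.π w.2)) : Fin (2 + 1) → ℝ)) ≤
        2 ^ (2 * (c + e) * (S.F k).n)) with hGG
  have hdlT : ∀ k, (LA O).sp.dl ρ k = S.dl ρ k := fun k => sp_dl (LA O) ρ k
  refine Pool.Agent.Helper51.LP.rich_ev hg (T := (LA O).sp) (LA O).pj (fun k => Tev O θ ν k) hρ0 hρ1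
    (fun k => (LA O k).V) GG (fun hpos => Sp.Typ.rest _ hpos tall) (fun _ => 1) ((LA O).sp.Sub_const zero_le_one)
    (fun _ => ?_) hl0 ?_
  · filter_upwards [hGz, O.cpd, XO_g0_pd O hx'.1, (S.Sub_const (show (0 : ℝ) ≤ 64 by norm_num)).eventually_le he]
      with k hGz hcp hg0 hC w w' hw hw' hE hE' hg1 hg1' hV hZ hP ht
    have hn := (S.F k).pos
    have sw := AmA_supp O k w hw
    have sw' := AmA_supp O k w' hw'
    obtain ⟨⟨g1, g2⟩, g3, g4⟩ := hg1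
    obtain ⟨⟨g1', g2'⟩, g3', g4'⟩ := hg1'
    obtain ⟨m1, m2, m3⟩ := hE
    -- labels, forms, conormals
    have hV1 : (O.X k).l.V w.1 w'.1 := hV.1
    have hV2 : (O.X k).l.V w.2 w'.2 := hV.2
    have hZ1 : (O.X k).l.T.Z w.1 w'.1 := hZ
    have hZ2 : (O.X k).l.T.Z w.2 w'.2 := ((AmA O k).p2.hZ w w' hw hw').mp hZ
    have f1 : (O.X k).g w.1 = (O.X k).g w'.1 := ((O.X k).meas _ _ sw.1 sw'.1 hV1 hZ1).1
    have f2 : (O.X k).g w.2 = (O.X k).g w'.2 := ((O.X k).meas _ _ sw.2.1 sw'.2.1 hV2 hZ2).1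
    have p1 : PdM ((O.X k).g w.1) := (hcp _ sw.1).pdM
    have p2 : PdM ((O.X k).g w.2) := (hcp _ sw.2.1).pdM
    have k12 : O.g₀ k w.1 = O.g₀ k w.2 := XO_g0 O k _ _ sw.1 sw.2.1 sw.2.2.1 sw.2.2.2.2
    have pg : PdM (O.g₀ k w.2) := hg0 _ sw.2.1
    have t1 : IsTcn ((O.X k).g w.1) (O.g₀ k w.2) (O.n k w.1) (O.mu k w.1) := by
      rw [← k12]
      exact tcn_spec (by norm_num) p1 (by rw [k12]; exact pg)
    have t2 : IsTcn ((O.X k).g w.2) (O.g₀ k w.2) (O.n k w.2) (O.mu k w.2) := tcn_spec (by norm_num) p2 pg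
    rw [← f1] at g3'
    rw [← f2] at g4'
    set y := s'.x.v k ((O.X k).l.p.π w.2) with hy
    set y' := s'.x.v k ((O.X k).l.p.π w'.2) with hy'
    have q1 := pair_vel pg t1 t2 hn.le hν m1 m2 m3 y y' g3 g3' g4 g4'
    -- the horizontal coordinates
    have q2 := g2 (Fin.cons 0 (y - y'))
    have e3 : (Fin.cons 0 (y - y') : Fin (2 + 1) → ℝ) ⬝ᵥ Fin.cons 0 (y - y') = (y - y') ⬝ᵥ (y - y') := by
      unfold dotProduct
      rw [Fin.sum_univ_succ]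
      simp only [Fin.cons_zero, Fin.cons_succ]
      rw [zero_mul, zero_add]
    rw [e3] at q2
    have q3 : 2 ^ (2 * (c - e) * (S.F k).n) * ((y - y') ⬝ᵥ (y - y')) ≤
        64 * 2 ^ (2 * (c + e - θ + ν) * (S.F k).n) := q2.trans q1
    have hC' : (64 : ℝ) ≤ 2 ^ (e * (S.F k).n) := by linarith
    have q4 : (y - y') ⬝ᵥ (y - y') ≤ 2 ^ (2 * (3 * e - θ + ν) * (S.F k).n) := by
      have h5 : (2 : ℝ) ^ (2 * (c - e) * (S.F k).n) * 2 ^ (2 * (3 * e - θ + ν) * (S.F k).n) =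
          2 ^ (2 * e * (S.F k).n) * 2 ^ (2 * (c + e - θ + ν) * (S.F k).n) := by
        rw [← Real.rpow_add (by norm_num), ← Real.rpow_add (by norm_num)]
        congr 1
        ring
      have h6 : (64 : ℝ) ≤ 2 ^ (2 * e * (S.F k).n) := by
        refine hC'.trans (Real.rpow_le_rpow_of_exponent_le (by norm_num) ?_)
        apply mul_le_mul_of_nonneg_right _ hn.le
        linarith
      have h7 : 64 * (2 : ℝ) ^ (2 * (c + e - θ + ν) * (S.F k).n) ≤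
          2 ^ (2 * (c - e) * (S.F k).n) * 2 ^ (2 * (3 * e - θ + ν) * (S.F k).n) := by
        rw [h5]
        exact mul_le_mul_of_nonneg_right h6 (by positivity)
      exact le_of_mul_le_mul_left (q3.trans h7) (by positivity)
    have q5 : ∀ j, |y j - y' j| ≤ 2 ^ ((3 * e - θ + ν) * (S.F k).n) := by
      intro j
      apply abs_le_of_sq_le_sq _ (by positivity)
      have h5 : (y j - y' j) ^ 2 ≤ (y - y') ⬝ᵥ (y - y') := by
        unfold dotProduct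
        have h6 : (y - y') j * (y - y') j ≤ ∑ l, (y - y') l * (y - y') l :=
          Finset.single_le_sum (f := fun l => (y - y') l * (y - y') l)
            (fun l _ => mul_self_nonneg _) (Finset.mem_univ j)
        refine le_trans (le_of_eq ?_) h6
        rw [Pi.sub_apply]
        ring
      refine h5.trans (q4.trans (le_of_eq ?_))
      rw [← Real.rpow_natCast, ← Real.rpow_mul (by norm_num)]
      congr 1
      push_cast
      ring
    -- all coordinates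
    have hdl : S.dl ρ k = 2 ^ (-(ρ * (S.F k).n)) := rfl
    have q6 : ∀ j : Fin 2, |s.x.v k ((O.X k).l.p.π w.2) (i.succAbove j) -
        s.x.v k ((O.X k).l.p.π w'.2) (i.succAbove j)| ≤ 2 ^ ((3 * e - θ + ν) * (S.F k).n) := by
      intro j
      rw [← lit, ← lit]
      exact q5 j
    have q7 := hGz w.2 w'.2 sw.2.1 sw'.2.1 g1 g1' hV2 hZ2 hP ht
    intro j
    show |s.x.v k ((O.X k).l.p.π w.2) j - s.x.v k ((O.X k).l.p.π w'.2) j| ≤ 1 * (LA O).sp.dl ρ k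
    rw [one_mul, hdlT, hdl]
    rcases Fin.eq_self_or_eq_succAbove i j with hj | ⟨j', hj⟩
    · rw [hj]
      refine q7.trans ?_
      rw [Fin.sum_univ_two]
      have h8 := add_le_add (q6 0) (q6 1)
      set M : ℝ := 2 ^ ((-(ρ + a + 3 * e)) * (S.F k).n) with hM
      have h9 : (2 : ℝ) ^ (-(b * (S.F k).n)) ≤ M := by
        apply Real.rpow_le_rpow_of_exponent_le (by norm_num)
        rw [← neg_mul]
        apply mul_le_mul_of_nonneg_right _ hn.le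
        linarith
      have h10 : (2 : ℝ) ^ ((3 * e - θ + ν) * (S.F k).n) ≤ M := by
        apply Real.rpow_le_rpow_of_exponent_le (by norm_num)
        apply mul_le_mul_of_nonneg_right _ hn.le
        linarith
      have h11 : (2 : ℝ) ^ (-(b * (S.F k).n)) + (|s.x.v k ((O.X k).l.p.π w.2) (i.succAbove 0) -
          s.x.v k ((O.X k).l.p.π w'.2) (i.succAbove 0)| + |s.x.v k ((O.X k).l.p.π w.2) (i.succAbove 1) -
          s.x.v k ((O.X k).l.p.π w'.2) (i.succAbove 1)|) ≤ 64 * M := by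
        have : 0 < M := by rw [hM]; positivity
        linarith
      have h12 : 64 * M ≤ 2 ^ (e * (S.F k).n) * M := mul_le_mul_of_nonneg_right hC' (by rw [hM]; positivity)
      calc 2 ^ ((a + e) * (S.F k).n) * (2 ^ (-(b * (S.F k).n)) + (|s.x.v k ((O.X k).l.p.π w.2) (i.succAbove 0) -
          s.x.v k ((O.X k).l.p.π w'.2) (i.succAbove 0)| + |s.x.v k ((O.X k).l.p.π w.2) (i.succAbove 1) -
          s.x.v k ((O.X k).l.p.π w'.2) (i.succAbove 1)|)) ≤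
          2 ^ ((a + e) * (S.F k).n) * (2 ^ (e * (S.F k).n) * M) :=
            mul_le_mul_of_nonneg_left (h11.trans h12) (by positivity)
        _ = 2 ^ ((-(ρ + e)) * (S.F k).n) := by
            rw [hM, ← Real.rpow_add (by norm_num), ← Real.rpow_add (by norm_num)]
            congr 1
            ring
        _ ≤ 2 ^ (-(ρ * (S.F k).n)) := by
            apply Real.rpow_le_rpow_of_exponent_le (by norm_num)
            rw [← neg_mul]
            apply mul_le_mul_of_nonneg_right _ hn.le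
            linarith
    · rw [hj]
      refine (q6 j').trans ?_
      apply Real.rpow_le_rpow_of_exponent_le (by norm_num)
      rw [← neg_mul]
      apply mul_le_mul_of_nonneg_right _ hn.le
      linarith
  · intro e' he'
    filter_upwards [hlk e' he'] with k hk
    have hnT : ((LA O).sp.F k).n = (S.F k).n := (LA O k).hn
    rw [hnT]
    refine le_trans (I_mono_right ?_) hk
    exact ((LA O k).p.map_le_top (fc (Setoid.ker (s.x.cellv ρ k)))).trans le_sup_left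

/-- linear inequalities pass to the limit -/
theorem le_of_lt_all {P g ρ₀ lk : ℝ} (h : ∀ ρ : ℝ, 0 ≤ ρ → ρ < ρ₀ → P * (g * ρ) ≤ lk) (hl : 0 ≤ lk) (hρ : 0 ≤ ρ₀) :
    P * (g * ρ₀) ≤ lk := by
  rcases hρ.eq_or_lt with h0 | hpos
  · rw [← h0, mul_zero, mul_zero]
    exact hl
  by_contra hc
  push Not at hc
  set A : ℝ := P * g with hA
  have e0 : P * (g * ρ₀) = A * ρ₀ := by
    rw [hA]
    ring
  rw [e0] at hc
  have hA0 : 0 < A := by
    by_contra hc2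
    push Not at hc2
    have := mul_nonpos_of_nonpos_of_nonneg hc2 hρ
    linarith
  have h1 := h (max 0 (ρ₀ - (A * ρ₀ - lk) / (2 * A))) (le_max_left _ _) (by
    apply max_lt hpos
    have : 0 < (A * ρ₀ - lk) / (2 * A) := div_pos (by linarith) (by linarith)
    linarith)
  have e1 : P * (g * max 0 (ρ₀ - (A * ρ₀ - lk) / (2 * A))) = A * max 0 (ρ₀ - (A * ρ₀ - lk) / (2 * A)) := by
    rw [hA]
    ring
  rw [e1] at h1
  have h2 := mul_le_mul_of_nonneg_left (le_max_right 0 (ρ₀ - (A * ρ₀ - lk) / (2 * A))) hA0.le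
  have h3 : A * (ρ₀ - (A * ρ₀ - lk) / (2 * A)) = (A * ρ₀ + lk) / 2 := by
    field_simp
    ring
  rw [h3] at h2
  linarith

/-- (2.3): THE CONORMALS OF THE COPIES ARE CLOSE, horizontal form -/
theorem dir_M (O : XO s s' x x' c) (fac : Fac s s') (i : Fin 3)
    (lit : ∀ k ω j, s'.x.v k ω j = s.x.v k ω (i.succAbove j)) (h0 : 0 ≤ c) (h1 : c < 1)
    (hx' : (gau s' 1).Opt (cA s c) (cB s) x') {g : ℝ} (hg : Rich s g) {a b : ℝ} (ha : 0 ≤ a)
    (hz : Zve O i a b) {θ ν : ℝ} (hν : 0 ≤ ν) {lk : ℝ} (hl0 : 0 ≤ lk)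
    (hlk : ∀ e : ℝ, 0 < e → ∀ᶠ k in UF, (LA O k).leak (cB s k) ≤ (lk + e) * (S.F k).n) {ρ : ℝ}
    (hρ0 : 0 ≤ ρ) (hρ1 : ρ ≤ 1) (r1 : ρ ≤ θ - ν - a) (r2 : ρ ≤ b - a) :
    ul (fun k => (AmA O k).sp.pb (Tev O θ ν k)) * (g * ρ) ≤ lk :=
  le_of_lt_all (fun _ h2 h3 => dir_lt O fac i lit h0 h1 hx' hg ha hz hν hl0 hlk h2 (h3.le.trans hρ1)
    (lt_of_lt_of_le h3 r1) (lt_of_lt_of_le h3 r2)) hl0 hρ0

/-! ### all directions -/

/-- the triangle inequality -/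
theorem sqrt_qf_sub {ι : Type} [Fintype ι] {A : Matrix ι ι ℝ} (hs : A.IsSymm) (h0 : ∀ v, 0 ≤ qf A v) (x y : ι → ℝ) :
    √(qf A (x - y)) ≤ √(qf A x) + √(qf A y) := by
  have hxy : y ⬝ᵥ (A *ᵥ x) = x ⬝ᵥ (A *ᵥ y) := by
    rw [dotProduct_mulVec, ← Matrix.mulVec_transpose, hs.eq, dotProduct_comm]
  have h1 : qf A (x - y) = qf A x - 2 * (x ⬝ᵥ (A *ᵥ y)) + qf A y := by
    unfold qf
    rw [Matrix.mulVec_sub, sub_dotProduct, dotProduct_sub, dotProduct_sub, hxy]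
    ring
  have h2 := qf_cs hs h0 x y
  have a := Real.sq_sqrt (h0 x)
  have b := Real.sq_sqrt (h0 y)
  have a0 := Real.sqrt_nonneg (qf A x)
  have b0 := Real.sqrt_nonneg (qf A y)
  have h3 : |x ⬝ᵥ (A *ᵥ y)| ≤ √(qf A x) * √(qf A y) := by
    apply abs_le_of_sq_le_sq _ (mul_nonneg a0 b0)
    rw [mul_pow, a, b]
    exact h2
  have h4 := neg_abs_le (x ⬝ᵥ (A *ᵥ y))
  rw [Real.sqrt_le_left (add_nonneg a0 b0), h1]
  nlinarith

/-- closeness in all directions from closeness on horizontal directions -/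
theorem clo_of_cloM {q : ℕ} {A₀ : Matrix (Mon (q + 1) 1) (Mon (q + 1) 1) ℝ} (hA : PdM A₀)
    {n1 n2 : Mon (q + 1) 1 → ℝ} {τ α β γ : ℝ} (hτ : 0 ≤ τ) (hc : CloM A₀ τ n1 n2) (x : Fin q → ℝ)
    (b1 : |n1 ⬝ᵥ gv (Fin.cons 1 x : Fin (q + 1) → ℝ)| ≤ α) (b2 : |n2 ⬝ᵥ gv (Fin.cons 1 x : Fin (q + 1) → ℝ)| ≤ α)
    (hγ : 0 < γ) (lo : ∀ u : Fin (q + 1) → ℝ, γ ^ 2 * (u ⬝ᵥ u) ≤ qf A₀ (gv u)) (hβ : 0 ≤ β)
    (up : qf A₀ (gv (Fin.cons 1 x : Fin (q + 1) → ℝ)) ≤ β ^ 2) :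
    Clo A₀ (τ * (1 + β / γ) + 2 * α / γ) n1 n2 := by
  obtain ⟨ε, hε, h⟩ := hc
  refine ⟨ε, hε, fun u => ?_⟩
  have h0 : ∀ v, 0 ≤ qf A₀ v := fun v => hA.nonneg v
  have hα : 0 ≤ α := (abs_nonneg _).trans b1
  set Q := √(qf A₀ (gv u)) with hQ
  have hQ0 : 0 ≤ Q := Real.sqrt_nonneg _
  have hQ2 : Q ^ 2 = qf A₀ (gv u) := Real.sq_sqrt (h0 _)
  set v : Fin q → ℝ := fun j => u j.succ - u 0 * x j with hv
  have hu : (gv u : Mon (q + 1) 1 → ℝ) = u 0 • gv (Fin.cons 1 x : Fin (q + 1) → ℝ) + gM v := by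
    unfold gM
    rw [← gv_smul, ← gv_add]
    congr 1
    funext j
    refine Fin.cases ?_ (fun j => ?_) j
    · simp
    · simp [hv]
  have hs : |u 0| ≤ Q / γ := by
    rw [le_div_iff₀ hγ]
    apply abs_le_of_sq_le_sq' _ hQ0 |>.2
    rw [mul_pow, sq_abs, hQ2]
    refine le_trans ?_ (lo u)
    rw [mul_comm]
    apply mul_le_mul_of_nonneg_left _ (by positivity)
    unfold dotProduct
    have h6 : u 0 * u 0 ≤ ∑ l, u l * u l :=
      Finset.single_le_sum (f := fun l => u l * u l) (fun l _ => mul_self_nonneg _) (Finset.mem_univ 0)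
    linarith
  have hM : √(qf A₀ (gM v)) ≤ Q * (1 + β / γ) := by
    have e1 : (gM v : Mon (q + 1) 1 → ℝ) = gv u - u 0 • gv (Fin.cons 1 x : Fin (q + 1) → ℝ) := by
      rw [hu, add_sub_cancel_left]
    rw [e1]
    refine (sqrt_qf_sub hA.1 h0 _ _).trans ?_
    have h2 : √(qf A₀ (u 0 • gv (Fin.cons 1 x : Fin (q + 1) → ℝ))) ≤ |u 0| * β := by
      rw [Real.sqrt_le_left (by positivity), qf_smul_vec, mul_pow, sq_abs]
      exact mul_le_mul_of_nonneg_left up (sq_nonneg _)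
    have h3 : |u 0| * β ≤ Q / γ * β := mul_le_mul_of_nonneg_right hs hβ
    calc Q + √(qf A₀ (u 0 • gv (Fin.cons 1 x : Fin (q + 1) → ℝ))) ≤ Q + Q / γ * β := by linarith
      _ = Q * (1 + β / γ) := by ring
  have h4 : |(n1 - ε • n2) ⬝ᵥ gM v| ≤ τ * √(qf A₀ (gM v)) := by
    apply abs_le_of_sq_le_sq _ (by positivity)
    rw [mul_pow, Real.sq_sqrt (h0 _)]
    exact h v
  have h5 : |(n1 - ε • n2) ⬝ᵥ gv (Fin.cons 1 x : Fin (q + 1) → ℝ)| ≤ 2 * α := by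
    rw [sub_dotProduct, smul_dotProduct, smul_eq_mul]
    have h6 : |ε| = 1 := by
      rcases hε with h | h
      · rw [h, abs_one]
      · rw [h, abs_neg, abs_one]
    refine (abs_sub _ _).trans ?_
    rw [abs_mul, h6, one_mul]
    linarith
  have h6 : |(n1 - ε • n2) ⬝ᵥ gv u| ≤ (τ * (1 + β / γ) + 2 * α / γ) * Q := by
    rw [hu, dotProduct_add, dotProduct_smul, smul_eq_mul]
    refine (abs_add_le _ _).trans ?_
    rw [abs_mul]
    have h7 : |u 0| * |(n1 - ε • n2) ⬝ᵥ gv (Fin.cons 1 x : Fin (q + 1) → ℝ)| ≤ Q / γ * (2 * α) :=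
      mul_le_mul hs h5 (abs_nonneg _) (by positivity)
    have h8 : |(n1 - ε • n2) ⬝ᵥ gM v| ≤ τ * (Q * (1 + β / γ)) := h4.trans (mul_le_mul_of_nonneg_left hM hτ)
    calc |u 0| * |(n1 - ε • n2) ⬝ᵥ gv (Fin.cons 1 x : Fin (q + 1) → ℝ)| + |(n1 - ε • n2) ⬝ᵥ gM v| ≤
        Q / γ * (2 * α) + τ * (Q * (1 + β / γ)) := add_le_add h7 h8
      _ = _ := by ring
  rw [← sq_abs, ← hQ2, ← mul_pow]
  exact pow_le_pow_left₀ (abs_nonneg _) h6 2

theorem Clo.mono {q : ℕ} {A₀ : Matrix (Mon (q + 1) 1) (Mon (q + 1) 1) ℝ} (hA : PdM A₀)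
    {n1 n2 : Mon (q + 1) 1 → ℝ} {τ τ' : ℝ} (h0 : 0 ≤ τ) (hτ : τ ≤ τ') (h : Clo A₀ τ n1 n2) : Clo A₀ τ' n1 n2 := by
  obtain ⟨ε, hε, h⟩ := h
  refine ⟨ε, hε, fun u => (h u).trans ?_⟩
  exact mul_le_mul_of_nonneg_right (pow_le_pow_left₀ h0 hτ 2) (hA.nonneg _)

section gen

variable {m q : ℕ} {s : Sys S m} {s' : Sys S q} {x' : ∀ k, FD (S.F k) (Mon (q + 1) 1)}

/-- CLOSENESS IN ALL DIRECTIONS, for general dimensions -/
theorem clo_typ (hq : 0 < q) (O : XO s s' x x' c) (fac : Fac s s') (κ : Fin q → Fin m)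
    (lit : ∀ k ω j, s'.x.v k ω j = s.x.v k ω (κ j)) (h0 : 0 ≤ c) (h1 : c < 1)
    (hx' : (gau s' 1).Opt (cA s c) (cB s) x') {θ ν ν' : ℝ} (hν : ν < ν') (hθ : ν < θ) :
    Typ (S := (LA O).sp) (fun k (w : (O.X k).l.T.Ω × (O.X k).l.T.Ω) =>
      2 ^ (2 * θ * (S.F k).n) ≤ O.mu k w.1 → 2 ^ (2 * θ * (S.F k).n) ≤ O.mu k w.2 →
      CloM (O.g₀ k w.2) (2 ^ (-(ν' * (S.F k).n))) (O.n k w.1) (O.n k w.2) →
      Clo (O.g₀ k w.2) (2 ^ (-(ν * (S.F k).n))) (O.n k w.1) (O.n k w.2)) := by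
  obtain ⟨e, he, e1, e2⟩ : ∃ e : ℝ, 0 < e ∧ 4 * e ≤ ν' - ν ∧ 4 * e ≤ θ - ν := by
    refine ⟨min (ν' - ν) (θ - ν) / 4, ?_, ?_, ?_⟩
    · have : 0 < min (ν' - ν) (θ - ν) := lt_min (by linarith) (by linarith)
      linarith
    · have := min_le_left (ν' - ν) (θ - ν)
      linarith
    · have := min_le_right (ν' - ν) (θ - ν)
      linarith
  have tf := far_vel O fac κ lit h0 h1 e he
  have tn := near_vel O fac h0 h1 e he
  have tl := low_pair O fac h1 hx' e he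
  have td := AmA_typ2 O (O.dom e he)
  refine typ_mono (typ_and (typ_and td tl) (typ_and tf tn)) ?_
  filter_upwards [O.cpd, XO_g0_pd O hx'.1, (S.Sub_const (show (0 : ℝ) ≤ 4 by norm_num)).eventually_le he]
    with k hcp hg0 hC w hw hG m1 m2 hc
  obtain ⟨⟨g1, g2⟩, g3, g4⟩ := hG
  have hn := (S.F k).pos
  have sw := AmA_supp O k w hw
  have p1 : PdM ((O.X k).g w.1) := (hcp _ sw.1).pdM
  have p2 : PdM ((O.X k).g w.2) := (hcp _ sw.2.1).pdM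
  have k12 : O.g₀ k w.1 = O.g₀ k w.2 := XO_g0 O k _ _ sw.1 sw.2.1 sw.2.2.1 sw.2.2.2.2
  have pg : PdM (O.g₀ k w.2) := hg0 _ sw.2.1
  have t1 : IsTcn ((O.X k).g w.1) (O.g₀ k w.2) (O.n k w.1) (O.mu k w.1) := by
    rw [← k12]
    exact tcn_spec hq p1 (by rw [k12]; exact pg)
  have t2 : IsTcn ((O.X k).g w.2) (O.g₀ k w.2) (O.n k w.2) (O.mu k w.2) := tcn_spec hq p2 pg
  set y := s'.x.v k ((O.X k).l.p.π w.2) with hy
  have b1 := n_le t1 g3 m1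
  have b2 := n_le t2 g4 m2
  have up : qf (O.g₀ k w.2) (gv (Fin.cons 1 y : Fin (q + 1) → ℝ)) ≤ (2 ^ ((c + 2 * e) * (S.F k).n)) ^ 2 := by
    have h2 : qf (O.g₀ k w.2) (gv (Fin.cons 1 y : Fin (q + 1) → ℝ)) ≤
        2 ^ (e * (S.F k).n) * qf ((O.X k).g w.2) (gv (Fin.cons 1 y : Fin (q + 1) → ℝ)) := g1 _
    refine h2.trans ((mul_le_mul_of_nonneg_left g4 (by positivity)).trans ?_)
    rw [← Real.rpow_add (by norm_num), ← Real.rpow_natCast, ← Real.rpow_mul (by norm_num)]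
    apply Real.rpow_le_rpow_of_exponent_le (by norm_num)
    push_cast
    have := mul_pos he hn
    nlinarith
  have lo : ∀ u : Fin (q + 1) → ℝ, (2 ^ ((c - e) * (S.F k).n)) ^ 2 * (u ⬝ᵥ u) ≤ qf (O.g₀ k w.2) (gv u) := by
    intro u
    refine le_trans (le_of_eq ?_) (g2 u)
    rw [← Real.rpow_natCast, ← Real.rpow_mul (by norm_num)]
    congr 2
    push_cast
    ring
  have h5 := clo_of_cloM pg (show (0 : ℝ) ≤ 2 ^ (-(ν' * (S.F k).n)) by positivity) hc y b1 b2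
    (show (0 : ℝ) < 2 ^ ((c - e) * (S.F k).n) by positivity) lo
    (show (0 : ℝ) ≤ 2 ^ ((c + 2 * e) * (S.F k).n) by positivity) up
  refine Clo.mono pg (by positivity) ?_ h5
  set M : ℝ := 2 ^ (-((ν + e) * (S.F k).n)) with hM
  have r1 : (2 : ℝ) ^ ((c + 2 * e) * (S.F k).n) / 2 ^ ((c - e) * (S.F k).n) = 2 ^ (3 * e * (S.F k).n) := by
    rw [← Real.rpow_sub (by norm_num)]
    congr 1
    ring
  have r2 : (1 : ℝ) ≤ 2 ^ (3 * e * (S.F k).n) := by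
    apply Real.one_le_rpow (by norm_num)
    positivity
  have r3 : (2 : ℝ) ^ (-(ν' * (S.F k).n)) * (1 + 2 ^ (3 * e * (S.F k).n)) ≤ 2 * M := by
    have h6 : (2 : ℝ) ^ (-(ν' * (S.F k).n)) * (1 + 2 ^ (3 * e * (S.F k).n)) ≤
        2 ^ (-(ν' * (S.F k).n)) * (2 * 2 ^ (3 * e * (S.F k).n)) :=
      mul_le_mul_of_nonneg_left (by linarith) (by positivity)
    have h7 : (2 : ℝ) ^ (-(ν' * (S.F k).n)) * 2 ^ (3 * e * (S.F k).n) ≤ M := by
      rw [← Real.rpow_add (by norm_num)]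
      apply Real.rpow_le_rpow_of_exponent_le (by norm_num)
      nlinarith
    linarith
  have r4 : 2 * (2 : ℝ) ^ ((c + e - θ) * (S.F k).n) / 2 ^ ((c - e) * (S.F k).n) ≤ 2 * M := by
    rw [mul_div_assoc, ← Real.rpow_sub (by norm_num)]
    apply mul_le_mul_of_nonneg_left _ (by norm_num)
    apply Real.rpow_le_rpow_of_exponent_le (by norm_num)
    nlinarith
  have hC' : (4 : ℝ) ≤ 2 ^ (e * (S.F k).n) := by linarith
  have r5 : 4 * M ≤ 2 ^ (-(ν * (S.F k).n)) := by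
    have h6 : 4 * M ≤ 2 ^ (e * (S.F k).n) * M := mul_le_mul_of_nonneg_right hC' (by rw [hM]; positivity)
    refine h6.trans (le_of_eq ?_)
    rw [hM, ← Real.rpow_add (by norm_num)]
    congr 1
    ring
  rw [r1]
  linarith

end gen

/-- the event: both eigenvalues are large and the conormals are not close in all directions -/
def Cev (O : XO s s' x x' c) (θ ν : ℝ) (k : ℕ) (w : (O.X k).l.T.Ω × (O.X k).l.T.Ω) : Prop :=
  2 ^ (2 * θ * (S.F k).n) ≤ O.mu k w.1 ∧ 2 ^ (2 * θ * (S.F k).n) ≤ O.mu k w.2 ∧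
    ¬ Clo (O.g₀ k w.2) (2 ^ (-(ν * (S.F k).n))) (O.n k w.1) (O.n k w.2)

theorem Cev_le (O : XO s s' x x' c) (fac : Fac s s') (i : Fin 3)
    (lit : ∀ k ω j, s'.x.v k ω j = s.x.v k ω (i.succAbove j)) (h0 : 0 ≤ c) (h1 : c < 1)
    (hx' : (gau s' 1).Opt (cA s c) (cB s) x') {θ ν ν' : ℝ} (hν : ν < ν') (hθ : ν < θ) :
    ul (fun k => (AmA O k).sp.pb (Cev O θ ν k)) ≤ ul (fun k => (AmA O k).sp.pb (Tev O θ ν' k)) := by
  have t1 := clo_typ (by norm_num) O fac i.succAbove lit h0 h1 hx' hν hθ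
  set H : ∀ k, ((LA O).sp.F k).Ω → Prop := fun k w =>
    2 ^ (2 * θ * (S.F k).n) ≤ O.mu k w.1 → 2 ^ (2 * θ * (S.F k).n) ≤ O.mu k w.2 →
      CloM (O.g₀ k w.2) (2 ^ (-(ν' * (S.F k).n))) (O.n k w.1) (O.n k w.2) →
      Clo (O.g₀ k w.2) (2 ^ (-(ν * (S.F k).n))) (O.n k w.1) (O.n k w.2) with hH
  have hU1 : UB (fun k => (AmA O k).sp.pb (Cev O θ ν k)) := UB_pr (S := (LA O).sp) (fun k => Cev O θ ν k)
  have hU2 : UB (fun k => (AmA O k).sp.pb (Tev O θ ν' k)) := UB_pr (S := (LA O).sp) (fun k => Tev O θ ν' k)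
  have a := ul_tendsto hU1
  have b := ul_tendsto hU2
  have d : Tendsto (fun k => (AmA O k).sp.pb (fun w => ¬ H k w)) UF (𝓝 0) := t1
  have f := b.add d
  rw [add_zero] at f
  refine le_of_tendsto_of_tendsto a f (Eventually.of_forall fun k => ?_)
  refine le_trans (FSp.pb_mono _ (E' := fun w => Tev O θ ν' k w ∨ ¬ H k w) ?_) (pb_or _ _ _)
  intro w _ hw
  by_cases h2 : H k w
  · exact Or.inl ⟨hw.1, hw.2.1, fun h3 => hw.2.2 (h2 hw.1 hw.2.1 h3)⟩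
  · exact Or.inr h2

/-- (2.3): THE CONORMALS OF THE COPIES ARE CLOSE, all directions -/
theorem dir_A (O : XO s s' x x' c) (fac : Fac s s') (i : Fin 3)
    (lit : ∀ k ω j, s'.x.v k ω j = s.x.v k ω (i.succAbove j)) (h0 : 0 ≤ c) (h1 : c < 1)
    (hx' : (gau s' 1).Opt (cA s c) (cB s) x') {g : ℝ} (hg : Rich s g) (hg0 : 0 ≤ g) {a b : ℝ} (ha : 0 ≤ a)
    (hz : Zve O i a b) {θ ν : ℝ} (hν : 0 ≤ ν) {lk : ℝ} (hl0 : 0 ≤ lk)
    (hlk : ∀ e : ℝ, 0 < e → ∀ᶠ k in UF, (LA O k).leak (cB s k) ≤ (lk + e) * (S.F k).n) {ρ : ℝ}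
    (hρ0 : 0 ≤ ρ) (hρ1 : ρ ≤ 1) (r1 : ρ ≤ θ - ν - a) (r2 : ρ ≤ b - a) :
    ul (fun k => (AmA O k).sp.pb (Cev O θ ν k)) * (g * ρ) ≤ lk := by
  refine le_of_lt_all (fun ρ' h2 h3 => ?_) hl0 hρ0
  have h4 := dir_M O fac i lit h0 h1 hx' hg ha hz (θ := θ) (ν := ν + (ρ - ρ')) (by linarith) hl0 hlk h2
    (h3.le.trans hρ1) (by linarith) (by linarith)
  have h5 := Cev_le O fac i lit h0 h1 hx' (θ := θ) (ν := ν) (ν' := ν + (ρ - ρ')) (by linarith) (by linarith)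
  exact (mul_le_mul_of_nonneg_right h5 (mul_nonneg hg0 h2)).trans h4

/-- ZVEL for the data `XO` -/
theorem Zve_of {D : ℕ} {x : ∀ k, FD (S.F k) (Mon (2 + 1 + 1) D)} {c₀ : ℝ} (O : XO s s' x x' c) (h0 : 0 ≤ c)
    (hc : c ≤ c₀) (h1 : c₀ < 1) (hx : (gau s D).Opt (cA s c₀) (cB s) x) (hl' : IsKap s c (lb x')) (i : Fin (2 + 1))
    (hz : Hz s i x) : Zve O i (D * (c₀ - c)) (1 - c) :=
  fun e he => XO_zvel O h0 hc h1 hx hl' i hz e he

end

end Pool.Agent.Helper51.LD2
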