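import Pool.Agent.Helper51.LP.RicE
import Pool.Agent.Helper52.KP.AgrF

/-! LIP, SEPX: two copies given a label of small leak and the point rarely have close velocities. -/

set_option autoImplicit false

namespace Pool.Agent.Helper51.LD2

open Finset Filter Topology Matrix Pool.Agent.Helper69.RK Pool.Agent.Helper31.EC Pool.Agent.Helper40.EL
open Pool.Agent.Helper31.EC.Sp
open Pool.Agent.Helper3.LF Pool.Agent.Helper80.MX

noncomputable section

/-- best values of pair events -/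
theorem pb_self_le (F : FSp) (Y : Setoid F.Ω) (R : F.Ω → F.Ω → Prop) :
    ∃ r : F.Ω → F.Ω, (∀ ω ω', Y ω ω' → F.Z ω ω' → r ω = r ω') ∧
      (FAm.self F Y).sp.pb (fun w => R w.1 w.2) ≤ F.pb (fun ω => R ω (r ω)) := by
  rcases isEmpty_or_nonempty F.Ω with hemp | hne
  · refine ⟨fun ω => ω, fun ω => isEmptyElim ω, ?_⟩
    unfold FSp.pb mass
    have : IsEmpty (FAm.self F Y).sp.Ω := ⟨fun w => isEmptyElim w.1⟩
    rw [Finset.univ_eq_empty, Finset.sum_empty, Finset.univ_eq_empty, Finset.sum_empty]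
  obtain ⟨c, -, h2⟩ := agree_fin F.μ F.μ (FAm.self F Y).f (FAm.self F Y).g F.nn F.nn (FAm.self F Y).law R
  refine ⟨fun ω => c ((FAm.self F Y).f ω), fun ω ω' h h' => ?_, h2⟩
  have e : (FAm.self F Y).f ω = (FAm.self F Y).f ω' := Quotient.sound (s := Y ⊓ F.Z) ⟨h, h'⟩
  show c _ = c _
  rw [e]

variable {S : Sp} {m : ℕ} {s : Sys S m}

/-- SEPARATION OF THE VELOCITIES OF THE COPIES -/
theorem sepx {g : ℝ} (hg : Rich s g) (l : Lab S) {lk : ℝ} (hl0 : 0 ≤ lk)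
    (hlk : ∀ e : ℝ, 0 < e → ∀ᶠ k in UF, (l k).leak (cB s k) ≤ (lk + e) * (S.F k).n) (hg0 : 0 ≤ g) {ν : ℝ}
    (hν0 : 0 ≤ ν) (hν1 : ν ≤ 1) :
    ul (fun k => (FAm.self (l k).T ((l k).V ⊓ Setoid.comap (l k).p.π ((s.fin k).kP 1 ⊓ (s.fin k).kt 1))).sp.pb
      (fun w => ∀ i, |s.x.v k ((l k).p.π w.1) i - s.x.v k ((l k).p.π w.2) i| ≤ 2 ^ (-(ν * (S.F k).n)))) *
      (g * ν) ≤ lk := by
  have h1 : ∀ k, ∃ r : (l k).T.Ω → (l k).T.Ω, (∀ ω ω', ((l k).V ⊓ Setoid.comap (l k).p.π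
      ((s.fin k).kP 1 ⊓ (s.fin k).kt 1)) ω ω' → (l k).T.Z ω ω' → r ω = r ω') ∧
      (FAm.self (l k).T ((l k).V ⊓ Setoid.comap (l k).p.π ((s.fin k).kP 1 ⊓ (s.fin k).kt 1))).sp.pb
        (fun w => ∀ i, |s.x.v k ((l k).p.π w.1) i - s.x.v k ((l k).p.π w.2) i| ≤ 2 ^ (-(ν * (S.F k).n))) ≤
      (l k).T.pb (fun ω => ∀ i, |s.x.v k ((l k).p.π ω) i - s.x.v k ((l k).p.π (r ω)) i| ≤
        2 ^ (-(ν * (S.F k).n))) := by
    intro k
    exact pb_self_le (l k).T _ (fun ω ω' => ∀ i, |s.x.v k ((l k).p.π ω) i - s.x.v k ((l k).p.π ω') i| ≤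
      2 ^ (-(ν * (S.F k).n)))
  choose r hr1 hr2 using h1
  set E : ∀ k, (l.sp.F k).Ω → Prop := fun k ω => ∀ i, |s.x.v k ((l k).p.π ω) i - s.x.v k ((l k).p.π (r k ω)) i| ≤
    2 ^ (-(ν * (S.F k).n)) with hE
  have h2 : ul (l.sp.pr E) * (g * ν) ≤ lk := by
    refine Pool.Agent.Helper51.LP.rich_ev hg (T := l.sp) l.pj E hν0 hν1 (fun k => (l k).V) (fun _ _ => True)
      (fun _ => Typ_true) (fun _ => 2) (l.sp.Sub_const zero_le_two) (fun _ => ?_) hl0 ?_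
    · refine Eventually.of_forall fun k w w' hw hw' hE1 hE2 _ _ hV hZ hP ht i => ?_
      have e1 : r k w = r k w' := hr1 k w w' ⟨hV, hP, ht⟩ hZ
      have h3 := hE1 i
      have h4 := hE2 i
      rw [← e1] at h4
      have h5 : |s.x.v k ((l k).p.π w) i - s.x.v k ((l k).p.π w') i| ≤
          2 * 2 ^ (-(ν * (S.F k).n)) := by
        rw [abs_le] at h3 h4 ⊢
        constructor
        · linarith [h3.1, h4.2]
        · linarith [h3.2, h4.1]
      refine h5.trans (le_of_eq ?_)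
      show 2 * (2 : ℝ) ^ (-(ν * (S.F k).n)) = 2 * l.sp.dl ν k
      rw [sp_dl]
      rfl
    · intro e' he'
      filter_upwards [hlk e' he'] with k hk
      have hnT : (l.sp.F k).n = (S.F k).n := (l k).hn
      rw [hnT]
      refine le_trans (I_mono_right ?_) hk
      exact ((l k).p.map_le_top (fc (Setoid.ker (s.x.cellv ν k)))).trans le_sup_left
  have h3 : ul (fun k => (FAm.self (l k).T ((l k).V ⊓ Setoid.comap (l k).p.π
      ((s.fin k).kP 1 ⊓ (s.fin k).kt 1))).sp.pb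
      (fun w => ∀ i, |s.x.v k ((l k).p.π w.1) i - s.x.v k ((l k).p.π w.2) i| ≤ 2 ^ (-(ν * (S.F k).n)))) ≤
      ul (l.sp.pr E) := by
    refine ul_mono ?_ (UB_pr _) (Eventually.of_forall fun k => hr2 k)
    refine UB_of_nonneg_le (C := 1) (Eventually.of_forall fun k => FSp.pb_nonneg _ _)
      (Eventually.of_forall fun k => ?_)
    exact FSp.pb_le_one _ _
  exact (mul_le_mul_of_nonneg_right h3 (mul_nonneg hg0 hν0)).trans h2

end

end Pool.Agent.Helper51.LD2
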