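import Pool.Agent.Helper51.LIP.Dir
import Pool.Agent.Helper51.LIP.Sepx

/-! LIP: the label of the third point on the space of `X`: it is finer than the label of the window, its leaks are
those of the join, the leak of its join with the label of `X` is at most the leak of the pair. -/

set_option autoImplicit false

namespace Pool.Agent.Helper51.LD2

open Finset Filter Topology Matrix Pool.Agent.Helper69.RK Pool.Agent.Helper31.EC Pool.Agent.Helper40.EL
open Pool.Agent.Helper31.EC.Sp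
open Pool.Agent.Helper3.LF Pool.Agent.Helper89.LX Pool.Agent.Helper3.SG
open Pool.Agent.Helper48.NS Pool.Agent.Helper48.LIP Pool.Agent.Helper39.LIP Pool.Agent.Helper3.PR

noncomputable section

/-- information of a variable `U` which is independent of `(T, k)` given `y ≤ (T, K)`, `K ≤ k`, `K ≤ U` -/
theorem I_third {L : Type*} [PM L] {U T k K b y : L} (hb : b ≤ T) (hKk : K ≤ k) (hKU : K ≤ U) (hy : y ≤ T ⊔ K)
    (h0 : I U (T ⊔ k) y = 0) : I U T (k ⊔ b) ≤ I U T b := by
  have e1 : h U (T ⊔ k ⊔ y) = h U y := I_zero_iff_h.mp h0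
  have e2 : h U (T ⊔ (k ⊔ b)) = h U y := by
    have e3 : T ⊔ (k ⊔ b) = T ⊔ k ⊔ y := by
      apply le_antisymm
      · exact sup_le (le_sup_left.trans le_sup_left)
          (sup_le (le_sup_right.trans le_sup_left) (hb.trans (le_sup_left.trans le_sup_left)))
      · refine sup_le (sup_le le_sup_left (le_sup_left.trans le_sup_right)) (hy.trans ?_)
        exact sup_le le_sup_left (hKk.trans (le_sup_left.trans le_sup_right))
    rw [e3, e1]
  have e4 : h U (T ⊔ (K ⊔ b)) = h U y := by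
    apply le_antisymm
    · apply h_anti
      refine hy.trans ?_
      exact sup_le le_sup_left (le_sup_left.trans le_sup_right)
    · rw [← e1]
      apply h_anti
      exact sup_le (le_sup_left.trans le_sup_left)
        (sup_le (hKk.trans (le_sup_right.trans le_sup_left)) (hb.trans (le_sup_left.trans le_sup_left)))
  have h1 : I U T (k ⊔ b) ≤ I U T (K ⊔ b) := by
    rw [I_eq, I_eq, e2, e4]
    have := h_anti (A := U) (sup_le_sup_right hKk b)
    linarith
  exact h1.trans (I_cond_le hKU)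

variable {S : Sp} {m q : ℕ} {s : Sys S m} {s' : Sys S q} {ι : Type}
  {x : ∀ k, FD (S.F k) ι} {x' : ∀ k, FD (S.F k) (Mon (q + 1) 1)} {c : ℝ}

/-- the space of `X` projects to the space of the third copy -/
def p3 (O : XO s s' x x' c) (k : ℕ) : FPj (O.X k).l.T ((x k).jn ((lb x') k)).l.T :=
  (O.r k).comp (fam3 ((x k).jn ((lb x') k)).l (jK (x k) ((lb x') k)) (cAs s c k)).p2

/-- the label of the third point -/
def K3 (O : XO s s' x x' c) (k : ℕ) : Setoid (O.X k).l.T.Ω :=
  Setoid.comap (p3 O k).π ((x k).jn ((lb x') k)).l.V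

theorem K3_le (O : XO s s' x x' c) (k : ℕ) : K3 O k ≤ O.K k := fun _ _ h => jK_le (x k) ((lb x') k) h

/-- the label of the third point, as a label of the space of `X` -/
def L3 (O : XO s s' x x' c) : Lab S := fun k => ⟨(O.X k).l.T, (O.X k).l.p, (O.X k).l.hn, K3 O k⟩

/-- the label of `X` and the label of the third point -/
def XL3 (O : XO s s' x x' c) : Lab S := fun k => ⟨(O.X k).l.T, (O.X k).l.p, (O.X k).l.hn, (O.X k).l.V ⊓ K3 O k⟩

theorem X_top (O : XO s s' x x' c) (k : ℕ) :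
    (O.X k).l.p.top = (p3 O k).map ((x k).jn ((lb x') k)).l.p.top := by
  rw [O.hp k]
  exact (FPj.comp_map (O.r k) (fam3 ((x k).jn ((lb x') k)).l (jK (x k) ((lb x') k)) (cAs s c k)).p2
    ((x k).jn ((lb x') k)).l.p.top).symm

theorem X_map (O : XO s s' x x' c) (k : ℕ) (y : FL (S.F k)) :
    (O.X k).l.p.map y = (p3 O k).map (((x k).jn ((lb x') k)).l.p.map y) := by
  rw [O.hp k]
  have h1 := FPj.comp_map (O.r k) (fam3 ((x k).jn ((lb x') k)).l (jK (x k) ((lb x') k)) (cAs s c k)).p2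
    (((x k).jn ((lb x') k)).l.p.map y)
  have h2 := FPj.comp_map (O.r k) (Lab3 s x (lb x') c k).p y
  have h3 := FPj.comp_map (fam3 ((x k).jn ((lb x') k)).l (jK (x k) ((lb x') k)) (cAs s c k)).p2
    ((x k).jn ((lb x') k)).l.p y
  exact h2.trans ((congrArg (O.r k).map h3).trans h1.symm)

/-- leaks of the label of the third point -/
theorem L3_leak (O : XO s s' x x' c) (k : ℕ) (y : FL (S.F k)) :
    (L3 O k).leak y = ((x k).jn ((lb x') k)).l.leak y := by
  have h1 : (L3 O k).leak y = I ((p3 O k).map ((x k).jn ((lb x') k)).l.v) (O.X k).l.p.top ((O.X k).l.p.map y) := rfl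
  rw [h1, X_top, X_map, FPj.I_map]
  rfl

/-- the label of the third point has no leak where `x` and `x'` have none -/
theorem L3_Nul (O : XO s s' x x' c) {A : Part S} (h1 : Nul S (fun k => (x k).l.leak (A k)))
    (h2 : Nul S (fun k => (x' k).l.leak (A k))) : Nul S (fun k => (L3 O k).leak (A k)) := by
  refine (h1.add h2).of_le (Eventually.of_forall fun k => FLab.leak_nonneg _ _) (Eventually.of_forall fun k => ?_)
  rw [L3_leak]
  exact (x k).jn_leak ((lb x') k) (A k)

/-- THE LEAK OF THE JOIN at the point, finite form -/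
theorem XL3_le (O : XO s s' x x' c) (k : ℕ) (y : FL (S.F k)) :
    (XL3 O k).leak y ≤ (L3 O k).leak y + (Lab3 s x (lb x') c k).leak y +
      I (O.X k).l.v (O.r k).top ((O.r k).map (Lab3 s x (lb x') c k).v ⊔ (O.X k).l.p.map y) := by
  set l := ((x k).jn ((lb x') k)).l with hl
  set K := jK (x k) ((lb x') k) with hK
  set A := cAs s c k with hA
  set Q := fam3 l K A with hQ
  set T3 := (O.X k).l.p.top with hT3
  set b := (O.X k).l.p.map y with hb
  set k3 : FL (O.X k).l.T := fc (K3 O k) with hk3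
  set V := (O.X k).l.v with hV
  set U := (O.r k).map (Lab3 s x (lb x') c k).v with hU
  have e0 : (XL3 O k).leak y = I (V ⊔ k3) T3 b := rfl
  have e1 : (L3 O k).leak y = I k3 T3 b := rfl
  have ek3 : k3 = (O.r k).map (Q.p2.map l.v) := by
    have h1 : k3 = (p3 O k).map l.v := rfl
    rw [h1]
    exact FPj.comp_map _ _ _
  have eT3 : T3 = (O.r k).map (Q.p2.map l.p.top) := by
    rw [hT3, X_top]
    exact FPj.comp_map _ _ _
  have eb : b = (O.r k).map (Q.p2.map (l.p.map y)) := by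
    rw [hb, X_map]
    exact FPj.comp_map _ _ _
  have eU : U = (O.r k).map (k1 l K A ⊔ k2 l K A) := rfl
  have e2 : (Lab3 s x (lb x') c k).leak y = I U T3 b := by
    have h1 : (Lab3 s x (lb x') c k).leak y = I (k1 l K A ⊔ k2 l K A) (Q.p2.map l.p.top) (Q.p2.map (l.p.map y)) :=
      lab3_leak l K A y
    rw [h1, eU, eT3, eb]
    exact (FPj.I_map (O.r k) _ _ _).symm
  -- the first term
  have s1 : I (V ⊔ k3) T3 b = I k3 T3 b + I V T3 (k3 ⊔ b) := by
    rw [sup_comm V k3]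
    exact I_chain _ _ _ _
  -- the second term
  have s2 : I V T3 (k3 ⊔ b) ≤ I U T3 (k3 ⊔ b) + I V T3 (U ⊔ (k3 ⊔ b)) := by
    rw [← I_chain]
    exact I_mono_left (le_sup_right.trans le_sup_left)
  have htop3 : T3 ≤ (O.r k).top := by
    rw [eT3]
    exact FPj.map_le_top _ _
  have htopk : k3 ≤ (O.r k).top := by
    rw [ek3]
    exact FPj.map_le_top _ _
  have s3 : I V T3 (U ⊔ (k3 ⊔ b)) ≤ I V (O.r k).top (U ⊔ b) := by
    have h1 : I V (k3 ⊔ T3) (U ⊔ b) = I V k3 (U ⊔ b) + I V T3 (k3 ⊔ (U ⊔ b)) := I_chain_right _ _ _ _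
    have h2 : U ⊔ (k3 ⊔ b) = k3 ⊔ (U ⊔ b) := sup_left_comm _ _ _
    rw [h2]
    have h3 := I_nonneg V k3 (U ⊔ b)
    have h4 : I V (k3 ⊔ T3) (U ⊔ b) ≤ I V (O.r k).top (U ⊔ b) :=
      I_mono_right ((sup_le htopk htop3).trans le_sup_left)
    linarith
  -- the pair of labels
  have s4' : I (k1 l K A ⊔ k2 l K A) (Q.p2.map l.p.top) (Q.p2.map l.v ⊔ Q.p2.map (l.p.map y)) ≤
      I (k1 l K A ⊔ k2 l K A) (Q.p2.map l.p.top) (Q.p2.map (l.p.map y)) := by
    have hK1 : (fc K : FL l.T) ≤ l.v := fc_mono (jK_le (x k) ((lb x') k))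
    refine I_third (K := Q.p2.map (fc K)) (y := yc l K A) (Q.p2.map_mono (l.p.map_le_top _)) (Q.p2.map_mono hK1)
      ?_ ?_ ?_
    · rw [← K_common]
      exact (Q.p1.map_mono ((pam l K A).p1.map_mono hK1)).trans le_sup_left
    · unfold yc
      rw [FPj.map_sup]
      refine sup_le le_sup_right (le_trans ?_ le_sup_left)
      exact Q.p2.map_mono (l.p.map_le_top _)
    · have h0 : k1 l K A ⊔ k2 l K A = Q.p1.map ((pam l K A).p1.map l.v ⊔ (pam l K A).p2.map l.v) := by
        rw [FPj.map_sup]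
        rfl
      rw [h0, ← FPj.map_sup]
      exact ind3 l K A _ _
  have s4 : I U T3 (k3 ⊔ b) ≤ I U T3 b := by
    have g1 : k3 ⊔ b = (O.r k).map (Q.p2.map l.v ⊔ Q.p2.map (l.p.map y)) := by
      rw [ek3, eb]
      exact (FPj.map_sup (O.r k) _ _).symm
    rw [g1, eU, eT3, eb]
    have g2 := FPj.I_map (O.r k) (k1 l K A ⊔ k2 l K A) (Q.p2.map l.p.top) (Q.p2.map l.v ⊔ Q.p2.map (l.p.map y))
    have g3 := FPj.I_map (O.r k) (k1 l K A ⊔ k2 l K A) (Q.p2.map l.p.top) (Q.p2.map (l.p.map y))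
    exact g2.le.trans (s4'.trans g3.ge)
  rw [e0, e1, e2, s1]
  linarith

/-- THE LEAK OF THE JOIN OF THE LABEL OF `X` AND THE LABEL OF THE THIRD POINT -/
theorem XL3_leakB (O : XO s s' x x' c) (h1 : Nul S (fun k => (x k).l.leak (cB s k)))
    (h2 : Nul S (fun k => (x' k).l.leak (cB s k))) {a : ℝ}
    (ha : ∀ e : ℝ, 0 < e → ∀ᶠ k in UF, (Lab3 s x (lb x') c k).leak (cB s k) ≤ (a + e) * (S.F k).n) (e : ℝ) (he : 0 < e) :
    ∀ᶠ k in UF, (XL3 O k).leak (cB s k) ≤ (a + e) * (S.F k).n := by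
  have n1 := (L3_Nul O h1 h2).add O.lU
  filter_upwards [n1.eventually (gt_mem_nhds (show (0 : ℝ) < e / 2 by linarith)), ha (e / 2) (by linarith)]
    with k k1 k2
  have hn := (S.F k).pos
  rw [div_lt_iff₀ hn] at k1
  have k3 := XL3_le O k (cB s k)
  nlinarith

/-- SEPX for the data `XO`: copies of the space of `X` given the label of `X`, the label of the third point and the
point -/
theorem XO_sepx (O : XO s s' x x' c) {g : ℝ} (hg : Pool.Agent.Helper80.MX.Rich s g) (hg0 : 0 ≤ g)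
    (h1 : Nul S (fun k => (x k).l.leak (cB s k))) (h2 : Nul S (fun k => (x' k).l.leak (cB s k))) {a : ℝ} (ha0 : 0 ≤ a)
    (ha : ∀ e : ℝ, 0 < e → ∀ᶠ k in UF, (Lab3 s x (lb x') c k).leak (cB s k) ≤ (a + e) * (S.F k).n) {ν : ℝ}
    (hν0 : 0 ≤ ν) (hν1 : ν ≤ 1) :
    ul (fun k => (FAm.self (O.X k).l.T (((O.X k).l.V ⊓ K3 O k) ⊓ Setoid.comap (O.X k).l.p.π
      ((s.fin k).kP 1 ⊓ (s.fin k).kt 1))).sp.pb
      (fun w => ∀ i, |s.x.v k ((O.X k).l.p.π w.1) i - s.x.v k ((O.X k).l.p.π w.2) i| ≤ 2 ^ (-(ν * (S.F k).n)))) *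
      (g * ν) ≤ a :=
  sepx hg (XL3 O) ha0 (XL3_leakB O h1 h2 ha) hg0 hν0 hν1

end

end Pool.Agent.Helper51.LD2
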