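import Pool.Agent.Helper42.NS.PsiR
import Pool.Agent.Helper52.KP.AgrF

/-! CONF (section 3 of ns_notes_55c): finitely many copies of a finite space over a partition, two levels: copies given
`b` of families of copies given `V ⊓ b`, all on one space, with the pair laws of the self amalgams. -/

namespace Pool.Agent.Helper40.EL

open Finset Filter Topology Pool.Agent.Helper69.RK Pool.Agent.Helper31.EC Pool.Agent.Helper42.NS

noncomputable section

/-- change of variables -/
theorem cf_sum {T F : FSp} (q : FPj T F) (φ : F.Ω → ℝ) : ∑ x, T.μ x * φ (q.π x) = ∑ ω, F.μ ω * φ ω := by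
  classical
  have h1 : ∀ ω, F.μ ω * φ ω = ∑ x, e1_ind (q.π x = ω) * T.μ x * φ (q.π x) := by
    intro ω
    have h2 : F.μ ω = push q.π T.μ ω := by rw [q.law]
    rw [h2, push_ind, Finset.sum_mul]
    apply Finset.sum_congr rfl
    intro x _
    by_cases h : q.π x = ω
    · rw [h]
    · rw [e1_ind_neg h]; ring
  rw [Finset.sum_congr rfl (fun ω _ => h1 ω), Finset.sum_comm]
  apply Finset.sum_congr rfl
  intro x _
  rw [Finset.sum_eq_single (q.π x)]
  · rw [e1_ind_pos rfl, one_mul]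
  · intro ω _ h
    rw [e1_ind_neg (fun e => h e.symm)]; ring
  · intro h
    exact absurd (Finset.mem_univ _) h

theorem pb_eq_sum (F : FSp) (E : F.Ω → Prop) : F.pb E = ∑ ω, F.μ ω * e1_ind (E ω) := by
  show ∑ ω, res F.μ E ω = _
  apply Finset.sum_congr rfl
  intro ω _
  rw [res_ind, mul_comm]

theorem cf_ms {T F : FSp} {α β : Type} (q : FPj T F) (f : T.Ω → α) (g : F.Ω → β) (x : T.Ω)
    (h : ∀ x', T.μ x' ≠ 0 → (f x' = f x ↔ g (q.π x') = g (q.π x))) :
    ms T.μ f (f x) = ms F.μ g (g (q.π x)) := by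
  have h1 : ms F.μ g (g (q.π x)) = ∑ ω, F.μ ω * e1_ind (g ω = g (q.π x)) := by
    apply Finset.sum_congr rfl
    intro ω _
    rw [mul_comm]
  have h2 : ms T.μ f (f x) = ∑ x', T.μ x' * e1_ind (g (q.π x') = g (q.π x)) := by
    apply Finset.sum_congr rfl
    intro x' _
    by_cases h0 : T.μ x' = 0
    · rw [h0, mul_zero, zero_mul]
    · rw [mul_comm, ind_congr (h x' h0)]
  rw [h1, h2, cf_sum q (fun ω => e1_ind (g ω = g (q.π x)))]

/-- pair laws of amalgams under projections -/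
theorem cf_pair {T T' F F' : FSp} (q : FPj T F) (q' : FPj T' F') (D : FAm T T') (D' : FAm F F')
    (h1 : ∀ x y, T.μ x ≠ 0 → T'.μ y ≠ 0 → (D.f x = D.g y ↔ D'.f (q.π x) = D'.g (q'.π y)))
    (h2 : ∀ x x', T.μ x ≠ 0 → T.μ x' ≠ 0 → (D.f x = D.f x' ↔ D'.f (q.π x) = D'.f (q.π x')))
    (R : F.Ω → F'.Ω → Prop) :
    D.sp.pb (fun w => R (q.π w.1) (q'.π w.2)) = D'.sp.pb (fun z => R z.1 z.2) := by
  have e1 : D.sp.pb (fun w => R (q.π w.1) (q'.π w.2)) = ∑ x, ∑ y, amw T.μ T'.μ D.f D.g (x, y) *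
      e1_ind (R (q.π x) (q'.π y)) := by
    rw [pb_eq_sum]
    exact Fintype.sum_prod_type _
  have e2 : D'.sp.pb (fun z => R z.1 z.2) = ∑ x, ∑ y, amw F.μ F'.μ D'.f D'.g (x, y) * e1_ind (R x y) := by
    rw [pb_eq_sum]
    exact Fintype.sum_prod_type _
  rw [e1, e2]
  set Φ : F.Ω → F'.Ω → ℝ := fun a b => e1_ind (D'.f a = D'.g b) / ms F.μ D'.f (D'.f a) * e1_ind (R a b) with hΦ
  have e3 : ∀ x, ∑ y, amw F.μ F'.μ D'.f D'.g (x, y) * e1_ind (R x y) = F.μ x * ∑ y, F'.μ y * Φ x y := by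
    intro x
    rw [Finset.mul_sum]
    apply Finset.sum_congr rfl
    intro y _
    rw [hΦ]
    unfold amw
    simp only
    ring
  have e4 : ∀ x, ∑ y, amw T.μ T'.μ D.f D.g (x, y) * e1_ind (R (q.π x) (q'.π y)) =
      T.μ x * ∑ y, F'.μ y * Φ (q.π x) y := by
    intro x
    rw [← cf_sum q' (fun y => Φ (q.π x) y), Finset.mul_sum]
    apply Finset.sum_congr rfl
    intro y _
    by_cases hx : T.μ x = 0
    · unfold amw
      simp only
      rw [hx]; ring
    by_cases hy : T'.μ y = 0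
    · unfold amw
      simp only
      rw [hy]; ring
    have e5 : ms T.μ D.f (D.f x) = ms F.μ D'.f (D'.f (q.π x)) := by
      apply cf_ms q D.f D'.f x
      intro x' hx'
      exact h2 x' x hx' hx
    rw [hΦ]
    unfold amw
    simp only
    rw [e5, ind_congr (h1 x y hx hy)]
    ring
  rw [Finset.sum_congr rfl (fun x _ => e3 x), Finset.sum_congr rfl (fun x _ => e4 x)]
  exact cf_sum q (fun a => ∑ y, F'.μ y * Φ a y)

/-- the self amalgam is symmetric -/
theorem cf_symm (F : FSp) (Y : Setoid F.Ω) (R : F.Ω → F.Ω → Prop) :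
    (FAm.self F Y).sp.pb (fun z => R z.2 z.1) = (FAm.self F Y).sp.pb (fun z => R z.1 z.2) := by
  have e1 : (FAm.self F Y).sp.pb (fun z => R z.2 z.1) = ∑ x, ∑ y,
      amw F.μ F.μ (FAm.self F Y).f (FAm.self F Y).f (x, y) * e1_ind (R y x) := by
    rw [pb_eq_sum]
    exact Fintype.sum_prod_type _
  have e2 : (FAm.self F Y).sp.pb (fun z => R z.1 z.2) = ∑ x, ∑ y,
      amw F.μ F.μ (FAm.self F Y).f (FAm.self F Y).f (x, y) * e1_ind (R x y) := by
    rw [pb_eq_sum]
    exact Fintype.sum_prod_type _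
  rw [e1, e2, Finset.sum_comm]
  apply Finset.sum_congr rfl
  intro x _
  apply Finset.sum_congr rfl
  intro y _
  unfold amw
  simp only
  by_cases h : (FAm.self F Y).f y = (FAm.self F Y).f x
  · rw [e1_ind_pos h, e1_ind_pos h.symm, h]; ring
  · have h' : ¬ (FAm.self F Y).f x = (FAm.self F Y).f y := fun e => h e.symm
    rw [e1_ind_neg h, e1_ind_neg h']; ring

theorem cf_self_iff (F : FSp) (Y : Setoid F.Ω) (x y : F.Ω) :
    (FAm.self F Y).f x = (FAm.self F Y).f y ↔ (Y ⊓ F.Z) x y := Quotient.eq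

/-- the identity -/
def cfid (F : FSp) : FPj F F where
  π := fun w => w
  law := by
    funext ω
    rw [push_ind, Finset.sum_eq_single ω]
    · rw [e1_ind_pos rfl, one_mul]
    · intro b _ h
      rw [e1_ind_neg h, zero_mul]
    · intro h
      exact absurd (Finset.mem_univ _) h
  hZ := fun _ _ _ _ => Iff.rfl

/-- finitely many copies given `Y` -/
structure Cps (F : FSp) (Y : Setoid F.Ω) (n : ℕ) where
  W : FSp
  p : Fin (n + 1) → FPj W F
  hn : W.n = F.n
  hY : ∀ i j w, W.μ w ≠ 0 → (Y ⊓ F.Z) ((p i).π w) ((p j).π w)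
  pr : ∀ i j, i ≠ j → ∀ R : F.Ω → F.Ω → Prop,
    W.pb (fun w => R ((p i).π w) ((p j).π w)) = (FAm.self F Y).sp.pb (fun z => R z.1 z.2)

theorem cps_exists (F : FSp) (Y : Setoid F.Ω) (n : ℕ) : Nonempty (Cps F Y n) := by
  induction n with
  | zero =>
    refine ⟨⟨F, fun _ => cfid F, rfl, fun i j w _ => (Y ⊓ F.Z).refl _, fun i j hij => ?_⟩⟩
    exact absurd (Fin.ext (by omega)) hij
  | succ n ih =>
    obtain ⟨C⟩ := ih
    -- the amalgam of the family with one more copy
    have hW : ∀ w w', C.W.μ w ≠ 0 → C.W.μ w' ≠ 0 → (C.W.Z w w' ↔ F.Z ((C.p 0).π w) ((C.p 0).π w')) :=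
      fun w w' a b => (C.p 0).hZ w w' a b
    let D : FAm C.W F :=
      { α := (FAm.self F Y).α
        f := fun w => (FAm.self F Y).f ((C.p 0).π w)
        g := (FAm.self F Y).f
        law := by
          intro a
          have h2 : ms C.W.μ (fun w => (FAm.self F Y).f ((C.p 0).π w)) a =
              ∑ x', C.W.μ x' * e1_ind ((FAm.self F Y).f ((C.p 0).π x') = a) := by
            apply Finset.sum_congr rfl
            intro x' _
            rw [mul_comm]
          have h3 : ms F.μ (FAm.self F Y).f a = ∑ ω, F.μ ω * e1_ind ((FAm.self F Y).f ω = a) := by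
            apply Finset.sum_congr rfl
            intro x' _
            rw [mul_comm]
          rw [h2, h3]
          exact cf_sum (C.p 0) (fun ω => e1_ind ((FAm.self F Y).f ω = a))
        Zr := (FAm.self F Y).Zr
        hZ1 := by
          intro w w' a b
          rw [hW w w' a b]
          exact (FAm.self F Y).hZ1 _ _ ((C.p 0).supp _ a) ((C.p 0).supp _ b)
        hZ2 := (FAm.self F Y).hZ2 }
    have hsup : ∀ w : C.W.Ω × F.Ω, D.sp.μ w ≠ 0 → C.W.μ w.1 ≠ 0 ∧ (Y ⊓ F.Z) ((C.p 0).π w.1) w.2 := by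
      intro w hw
      obtain ⟨h1, h2, h3⟩ := D.supp w hw
      exact ⟨h2, (cf_self_iff F Y _ _).mp h1⟩
    have hsup' : ∀ (i : Fin (n + 1)) (w : C.W.Ω × F.Ω), D.sp.μ w ≠ 0 → (Y ⊓ F.Z) ((C.p i).π w.1) w.2 := by
      intro i w hw
      obtain ⟨h1, h2⟩ := hsup w hw
      exact (Y ⊓ F.Z).trans (C.hY i 0 w.1 h1) h2
    have hpr : ∀ (i : Fin (n + 1)) (R : F.Ω → F.Ω → Prop),
        D.sp.pb (fun w => R ((C.p i).π w.1) w.2) = (FAm.self F Y).sp.pb (fun z => R z.1 z.2) := by
      intro i R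
      apply cf_pair (C.p i) (cfid F) D (FAm.self F Y)
      · intro x y hx hy
        show (FAm.self F Y).f ((C.p 0).π x) = (FAm.self F Y).f y ↔ (FAm.self F Y).f ((C.p i).π x) = (FAm.self F Y).f y
        rw [(cf_self_iff F Y _ _).mpr (C.hY 0 i x hx)]
      · intro x x' hx hx'
        show (FAm.self F Y).f ((C.p 0).π x) = (FAm.self F Y).f ((C.p 0).π x') ↔
          (FAm.self F Y).f ((C.p i).π x) = (FAm.self F Y).f ((C.p i).π x')
        rw [(cf_self_iff F Y _ _).mpr (C.hY 0 i x hx), (cf_self_iff F Y _ _).mpr (C.hY 0 i x' hx')]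
    let P : Fin (n + 1 + 1) → FPj D.sp F := fun i => Fin.lastCases (motive := fun _ => FPj D.sp F) D.p2
      (fun j => D.p1.comp (C.p j)) i
    have P1 : P (Fin.last (n + 1)) = D.p2 := Fin.lastCases_last
    have P2 : ∀ j : Fin (n + 1), P j.castSucc = D.p1.comp (C.p j) := fun j => Fin.lastCases_castSucc (i := j)
    refine ⟨⟨D.sp, P, C.hn, ?_, ?_⟩⟩
    · intro i j w hw
      induction i using Fin.lastCases with
      | last =>
        induction j using Fin.lastCases with
        | last => exact (Y ⊓ F.Z).refl _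
        | cast j =>
          rw [P1, P2]
          exact (Y ⊓ F.Z).symm (hsup' j w hw)
      | cast i =>
        induction j using Fin.lastCases with
        | last =>
          rw [P1, P2]
          exact hsup' i w hw
        | cast j =>
          rw [P2, P2]
          exact C.hY i j w.1 (hsup w hw).1
    · intro i j hij R
      induction i using Fin.lastCases with
      | last =>
        induction j using Fin.lastCases with
        | last => exact absurd rfl hij
        | cast j =>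
          rw [P1, P2]
          show D.sp.pb (fun w => R w.2 ((C.p j).π w.1)) = _
          rw [hpr j (fun a b => R b a)]
          exact cf_symm F Y R
      | cast i =>
        induction j using Fin.lastCases with
        | last =>
          rw [P1, P2]
          exact hpr i R
        | cast j =>
          rw [P2, P2]
          have h1 : i ≠ j := fun e => hij (by rw [e])
          have h2 := pb_comp D.p1 (fun w => R ((C.p i).π w) ((C.p j).π w))
          have h3 := C.pr i j h1 R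
          rw [← h3, ← h2]
          rfl

/-- THE CONFIGURATION: `N + 1` families, independent given `b`, each of `M + 1` copies, independent given `V` and `b` -/
theorem conf (F : FSp) (V b : Setoid F.Ω) (N M : ℕ) : ∃ (W : FSp) (p : Fin (N + 1) → Fin (M + 1) → FPj W F),
    W.n = F.n ∧
    (∀ i k k' w, W.μ w ≠ 0 → (V ⊓ b ⊓ F.Z) ((p i k).π w) ((p i k').π w)) ∧
    (∀ i j k k' w, W.μ w ≠ 0 → (b ⊓ F.Z) ((p i k).π w) ((p j k').π w)) ∧
    (∀ i k k', k ≠ k' → ∀ R : F.Ω → F.Ω → Prop, W.pb (fun w => R ((p i k).π w) ((p i k').π w)) =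
      (FAm.self F (V ⊓ b)).sp.pb (fun z => R z.1 z.2)) ∧
    (∀ i j k k', i ≠ j → ∀ R : F.Ω → F.Ω → Prop, W.pb (fun w => R ((p i k).π w) ((p j k').π w)) =
      (FAm.self F b).sp.pb (fun z => R z.1 z.2)) := by
  obtain ⟨C⟩ := cps_exists F (V ⊓ b) M
  obtain ⟨E⟩ := cps_exists C.W (Setoid.comap (C.p 0).π b) N
  have hb : ∀ (k : Fin (M + 1)) (x : C.W.Ω), C.W.μ x ≠ 0 → b ((C.p 0).π x) ((C.p k).π x) :=
    fun k x hx => (C.hY 0 k x hx).1.2
  have hz : ∀ (k : Fin (M + 1)) (x : C.W.Ω), C.W.μ x ≠ 0 → F.Z ((C.p 0).π x) ((C.p k).π x) :=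
    fun k x hx => (C.hY 0 k x hx).2
  have hbz : ∀ (k k' : Fin (M + 1)) (x x' : C.W.Ω), C.W.μ x ≠ 0 → C.W.μ x' ≠ 0 →
      ((Setoid.comap (C.p 0).π b ⊓ C.W.Z) x x' ↔ (b ⊓ F.Z) ((C.p k).π x) ((C.p k').π x')) := by
    intro k k' x x' hx hx'
    have e1 : C.W.Z x x' ↔ F.Z ((C.p 0).π x) ((C.p 0).π x') := (C.p 0).hZ x x' hx hx'
    constructor
    · rintro ⟨h1, h2⟩
      exact ⟨b.trans (b.trans (b.symm (hb k x hx)) h1) (hb k' x' hx'),
        F.Z.trans (F.Z.trans (F.Z.symm (hz k x hx)) (e1.mp h2)) (hz k' x' hx')⟩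
    · rintro ⟨h1, h2⟩
      exact ⟨b.trans (b.trans (hb k x hx) h1) (b.symm (hb k' x' hx')),
        e1.mpr (F.Z.trans (F.Z.trans (hz k x hx) h2) (F.Z.symm (hz k' x' hx')))⟩
  refine ⟨E.W, fun i k => (E.p i).comp (C.p k), E.hn.trans C.hn, ?_, ?_, ?_, ?_⟩
  · intro i k k' w hw
    exact C.hY k k' _ ((E.p i).supp w hw)
  · intro i j k k' w hw
    exact (hbz k k' _ _ ((E.p i).supp w hw) ((E.p j).supp w hw)).mp (E.hY i j w hw)
  · intro i k k' hk R
    have h2 := pb_comp (E.p i) (fun x => R ((C.p k).π x) ((C.p k').π x))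
    have h3 := C.pr k k' hk R
    rw [← h3, ← h2]
    rfl
  · intro i j k k' hij R
    have h1 := E.pr i j hij (fun x y => R ((C.p k).π x) ((C.p k').π y))
    have h2 : (FAm.self C.W (Setoid.comap (C.p 0).π b)).sp.pb (fun z => R ((C.p k).π z.1) ((C.p k').π z.2)) =
        (FAm.self F b).sp.pb (fun z => R z.1 z.2) := by
      apply cf_pair (C.p k) (C.p k') (FAm.self C.W (Setoid.comap (C.p 0).π b)) (FAm.self F b)
      · intro x y hx hy
        have a1 := cf_self_iff C.W (Setoid.comap (C.p 0).π b) x y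
        have a2 := cf_self_iff F b ((C.p k).π x) ((C.p k').π y)
        exact a1.trans ((hbz k k' x y hx hy).trans a2.symm)
      · intro x y hx hy
        have a1 := cf_self_iff C.W (Setoid.comap (C.p 0).π b) x y
        have a2 := cf_self_iff F b ((C.p k).π x) ((C.p k).π y)
        exact a1.trans ((hbz k k x y hx hy).trans a2.symm)
    rw [← h2, ← h1]
    rfl

/-- union bound: one point of the support with finitely many properties -/
theorem exists_union (W : FSp) {ι : Type} [Fintype ι] (E : ι → W.Ω → Prop) (h : ∑ a, (1 - W.pb (E a)) < 1) :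
    ∃ w, W.μ w ≠ 0 ∧ ∀ a, E a w := by
  by_contra hc
  push Not at hc
  have h1 : 1 ≤ ∑ a, (1 - W.pb (E a)) := by
    have h2 : ∀ a, 1 - W.pb (E a) = ∑ ω, W.μ ω * e1_ind (¬ E a ω) := by
      intro a
      rw [← pb_eq_sum]
      have := W.pb_add_compl (E a)
      linarith
    rw [Finset.sum_congr rfl (fun a _ => h2 a), Finset.sum_comm]
    have h3 : ∑ ω, W.μ ω = 1 := W.ms
    rw [← h3]
    apply Finset.sum_le_sum
    intro ω _
    by_cases h0 : W.μ ω = 0
    · rw [h0]
      apply Finset.sum_nonneg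
      intro a _
      rw [zero_mul]
    · obtain ⟨a, ha⟩ := hc ω h0
      have h4 : W.μ ω = W.μ ω * e1_ind (¬ E a ω) := by
        rw [e1_ind_pos ha, mul_one]
      have h5 := Finset.single_le_sum (f := fun a => W.μ ω * e1_ind (¬ E a ω)) (fun a _ =>
        mul_nonneg (W.nn ω) (ind_nonneg _)) (Finset.mem_univ a)
      exact h4.le.trans h5
  linarith

/-- the configuration at one point: single, pair and cross events of small total failure -/
theorem conf_pt (F : FSp) (V b : Setoid F.Ω) (N M : ℕ) {ι₁ ι₂ ι₃ : Type} [Fintype ι₁] [Fintype ι₂] [Fintype ι₃]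
    (A : ι₁ → F.Ω → Prop) (B : ι₂ → F.Ω → F.Ω → Prop) (C : ι₃ → F.Ω → F.Ω → Prop)
    (h : (N + 1) * (M + 1) * ∑ a, (1 - F.pb (A a)) +
      (N + 1) * (M + 1) ^ 2 * ∑ a, (1 - (FAm.self F (V ⊓ b)).sp.pb (fun z => B a z.1 z.2)) +
      (N + 1) ^ 2 * (M + 1) ^ 2 * ∑ a, (1 - (FAm.self F b).sp.pb (fun z => C a z.1 z.2)) < (1 : ℝ)) :
    ∃ y : Fin (N + 1) → Fin (M + 1) → F.Ω, (∀ i k, F.μ (y i k) ≠ 0) ∧
      (∀ i k k', (V ⊓ b ⊓ F.Z) (y i k) (y i k')) ∧ (∀ i j k k', (b ⊓ F.Z) (y i k) (y j k')) ∧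
      (∀ a i k, A a (y i k)) ∧ (∀ a i k k', k ≠ k' → B a (y i k) (y i k')) ∧
      (∀ a i j k k', i ≠ j → C a (y i k) (y j k')) := by
  obtain ⟨W, p, hn, q1, q2, q3, q4⟩ := conf F V b N M
  let ι : Type := (ι₁ × Fin (N + 1) × Fin (M + 1)) ⊕ (ι₂ × Fin (N + 1) × Fin (M + 1) × Fin (M + 1)) ⊕
    (ι₃ × (Fin (N + 1) × Fin (N + 1)) × Fin (M + 1) × Fin (M + 1))
  let E : ι → W.Ω → Prop := fun a => match a with
    | Sum.inl a => fun w => A a.1 ((p a.2.1 a.2.2).π w)
    | Sum.inr (Sum.inl a) => fun w => a.2.2.1 ≠ a.2.2.2 → B a.1 ((p a.2.1 a.2.2.1).π w) ((p a.2.1 a.2.2.2).π w)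
    | Sum.inr (Sum.inr a) => fun w => a.2.1.1 ≠ a.2.1.2 →
        C a.1 ((p a.2.1.1 a.2.2.1).π w) ((p a.2.1.2 a.2.2.2).π w)
  have hE : ∑ a, (1 - W.pb (E a)) < 1 := by
    refine lt_of_le_of_lt ?_ h
    rw [Fintype.sum_sum_type, Fintype.sum_sum_type, ← add_assoc]
    have c1 : ∑ a : ι₁ × Fin (N + 1) × Fin (M + 1), (1 - W.pb (E (Sum.inl a))) ≤
        (N + 1) * (M + 1) * ∑ a, (1 - F.pb (A a)) := by
      rw [Fintype.sum_prod_type]
      rw [Finset.mul_sum]
      apply Finset.sum_le_sum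
      intro a _
      have c2 : ∀ x : Fin (N + 1) × Fin (M + 1), 1 - W.pb (E (Sum.inl (a, x))) ≤ 1 - F.pb (A a) := by
        intro x
        have := pb_comp (p x.1 x.2) (A a)
        have e : W.pb (E (Sum.inl (a, x))) = W.pb (fun w => A a ((p x.1 x.2).π w)) := rfl
        rw [e, this]
      refine (Finset.sum_le_sum fun x _ => c2 x).trans (le_of_eq ?_)
      rw [Finset.sum_const, Finset.card_univ, Fintype.card_prod, Fintype.card_fin, Fintype.card_fin, nsmul_eq_mul]
      push_cast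
      ring
    have c2 : ∑ a : ι₂ × Fin (N + 1) × Fin (M + 1) × Fin (M + 1), (1 - W.pb (E (Sum.inr (Sum.inl a)))) ≤
        (N + 1) * (M + 1) ^ 2 * ∑ a, (1 - (FAm.self F (V ⊓ b)).sp.pb (fun z => B a z.1 z.2)) := by
      rw [Fintype.sum_prod_type]
      rw [Finset.mul_sum]
      apply Finset.sum_le_sum
      intro a _
      have c3 : ∀ x : Fin (N + 1) × Fin (M + 1) × Fin (M + 1), 1 - W.pb (E (Sum.inr (Sum.inl (a, x)))) ≤
          1 - (FAm.self F (V ⊓ b)).sp.pb (fun z => B a z.1 z.2) := by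
        intro x
        by_cases hx : x.2.1 = x.2.2
        · have : W.pb (E (Sum.inr (Sum.inl (a, x)))) = 1 := pb_eq_one fun w _ h => absurd hx h
          rw [this]
          have := (FAm.self F (V ⊓ b)).sp.pb_le_one (fun z => B a z.1 z.2)
          linarith
        · have h1 := q3 x.1 x.2.1 x.2.2 hx (B a)
          have h2 : W.pb (E (Sum.inr (Sum.inl (a, x)))) =
              W.pb (fun w => B a ((p x.1 x.2.1).π w) ((p x.1 x.2.2).π w)) :=
            pb_congr fun w _ => ⟨fun h => h hx, fun h _ => h⟩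
          rw [h2, h1]
      refine (Finset.sum_le_sum fun x _ => c3 x).trans (le_of_eq ?_)
      rw [Finset.sum_const, Finset.card_univ, Fintype.card_prod, Fintype.card_prod, Fintype.card_fin,
        Fintype.card_fin, nsmul_eq_mul]
      push_cast
      ring
    have c3 : ∑ a : ι₃ × (Fin (N + 1) × Fin (N + 1)) × Fin (M + 1) × Fin (M + 1),
        (1 - W.pb (E (Sum.inr (Sum.inr a)))) ≤
        (N + 1) ^ 2 * (M + 1) ^ 2 * ∑ a, (1 - (FAm.self F b).sp.pb (fun z => C a z.1 z.2)) := by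
      rw [Fintype.sum_prod_type]
      rw [Finset.mul_sum]
      apply Finset.sum_le_sum
      intro a _
      have c3 : ∀ x : (Fin (N + 1) × Fin (N + 1)) × Fin (M + 1) × Fin (M + 1),
          1 - W.pb (E (Sum.inr (Sum.inr (a, x)))) ≤ 1 - (FAm.self F b).sp.pb (fun z => C a z.1 z.2) := by
        intro x
        by_cases hx : x.1.1 = x.1.2
        · have : W.pb (E (Sum.inr (Sum.inr (a, x)))) = 1 := pb_eq_one fun w _ h => absurd hx h
          rw [this]
          have := (FAm.self F b).sp.pb_le_one (fun z => C a z.1 z.2)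
          linarith
        · have h1 := q4 x.1.1 x.1.2 x.2.1 x.2.2 hx (C a)
          have h2 : W.pb (E (Sum.inr (Sum.inr (a, x)))) =
              W.pb (fun w => C a ((p x.1.1 x.2.1).π w) ((p x.1.2 x.2.2).π w)) :=
            pb_congr fun w _ => ⟨fun h => h hx, fun h _ => h⟩
          rw [h2, h1]
      refine (Finset.sum_le_sum fun x _ => c3 x).trans (le_of_eq ?_)
      rw [Finset.sum_const, Finset.card_univ, Fintype.card_prod, Fintype.card_prod, Fintype.card_prod,
        Fintype.card_fin, Fintype.card_fin, nsmul_eq_mul]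
      push_cast
      ring
    linarith
  obtain ⟨w, hw, hw'⟩ := exists_union W E hE
  refine ⟨fun i k => (p i k).π w, fun i k => (p i k).supp w hw, fun i k k' => q1 i k k' w hw,
    fun i j k k' => q2 i j k k' w hw, ?_, ?_, ?_⟩
  · intro a i k
    exact hw' (Sum.inl (a, i, k))
  · intro a i k k' hk
    exact hw' (Sum.inr (Sum.inl (a, i, k, k'))) hk
  · intro a i j k k' hij
    exact hw' (Sum.inr (Sum.inr (a, (i, j), k, k'))) hij

end

end Pool.Agent.Helper40.EL
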