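import Pool.Agent.Helper39.LIP.St
import Pool.Agent.Helper88.NSK.Hfp
import Pool.Agent.Helper98.FR.Dom

/-! The canonical 1-form of a factor over the label of the window `c` is at least `2 ^ (2 c n)` in all directions (the
cells of the height and of the point are known to the label). -/

set_option autoImplicit false

namespace Pool.Agent.Helper51.LIP

open Finset Filter Topology Matrix MvPolynomial Pool.Agent.Helper69.RK Pool.Agent.Helper31.EC
open Pool.Agent.Helper31.EC.Sp Pool.Agent.Helper40.EL Pool.Agent.Helper52.KP Pool.Agent.Helper89.LX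
open Pool.Agent.Helper3.LF Pool.Agent.Helper42.NS Pool.Agent.Helper88.NSK Pool.Agent.Helper39.LIP
open Pool.Agent.Helper3.SG Pool.Agent.Helper98.FR


noncomputable section

variable {S : Sp} {m q D : ℕ}

/-! ### forms `1 + w v v ^ T` of a factor -/

/-- the label with the form `1 + w v v ^ T`, cut at the cap of the factor -/
def nfd (s' : Sys S q) (l : Lab S) (w : ℕ → ℝ) (v : ∀ k, (l k).T.Ω → Mon (q + 1) D → ℝ)
    (hv : ∀ k ω ω', (l k).T.μ ω ≠ 0 → (l k).T.μ ω' ≠ 0 → (l k).V ω ω' → (l k).T.Z ω ω' → v k ω = v k ω') (k : ℕ) :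
    FD (S.F k) (Mon (q + 1) D) :=
  mkFD (l k) (fun ω => capd ((gau s' D).cp k) (nfm (w k) (v k ω))) (by
    intro ω ω' a a' b b'
    rw [hv k ω ω' a a' b b'])

theorem nfd_aux (s' : Sys S q) (l : Lab S) (w : ℕ → ℝ) (hw : ∀ k, 0 ≤ w k)
    (v : ∀ k, (l k).T.Ω → Mon (q + 1) D → ℝ) (K : ℕ → ℝ) (hK : S.Sub K)
    (hT : Sp.Typ (S := l.sp) (fun k (ω : (l k).T.Ω) =>
      w k * ph D (pol (v k ω)) (S.dl 1 k) (ptf s' k ((l k).p.π ω)) ≤ K k)) :
    ∃ K' : ℕ → ℝ, S.Sub K' ∧ Sp.Typ (S := l.sp) (fun k (ω : (l k).T.Ω) =>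
      Cpd ((gau s' D).cp k) (nfm (w k) (v k ω)) ∧
      (gau s' D).φ k ((l k).p.π ω) (capd ((gau s' D).cp k) (nfm (w k) (v k ω))) ≤ K' k) := by
  obtain ⟨K0, hK0, hone⟩ := (gau s' D).one
  have hKK : S.Sub (fun k => K0 k + K k) := hK0.add hK
  refine ⟨fun k => K0 k + K k, hKK, typ_mono (S := l.sp) hT ?_⟩
  filter_upwards [(gau s' D).cap, hKK.eventually_le one_pos, hone] with k b1 b2 b3 ω hω g1
  have g2 := b3 _ ((l k).p.supp ω hω)
  have g3 : (gau s' D).φ k ((l k).p.π ω) (nfm (w k) (v k ω)) ≤ K0 k + K k := by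
    show sph s' D k ((l k).p.π ω) (nfm (w k) (v k ω)) ≤ K0 k + K k
    unfold sph
    rw [nfm_phi]
    exact add_le_add g2 g1
  have g4 : Pool.Agent.Helper95.LF.PdM (nfm (w k) (v k ω)) :=
    pdM_of_one_le (nfm_symm _ _) (nfm_one_le (hw k) _)
  have g5 : Cpd ((gau s' D).cp k) (nfm (w k) (v k ω)) := by
    refine ⟨nfm_symm _ _, nfm_one_le (hw k) _, fun y => ?_⟩
    refine (b1 _ ((l k).p.supp ω hω) _ g4 y).trans ?_
    apply mul_le_mul_of_nonneg_right _ (dot_self_nonneg y)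
    unfold Gau.cp
    rw [add_mul, Real.rpow_add (by norm_num)]
    apply mul_le_mul_of_nonneg_left _ (by positivity)
    linarith
  refine ⟨g5, ?_⟩
  rw [capd_eq g5]
  exact g3

theorem nfd_ad (s' : Sys S q) {A B : Part S} (l : Lab S) (hl : l.DM A B) (w : ℕ → ℝ) (hw : ∀ k, 0 ≤ w k)
    (v : ∀ k, (l k).T.Ω → Mon (q + 1) D → ℝ)
    (hv : ∀ k ω ω', (l k).T.μ ω ≠ 0 → (l k).T.μ ω' ≠ 0 → (l k).V ω ω' → (l k).T.Z ω ω' → v k ω = v k ω')
    (K : ℕ → ℝ) (hK : S.Sub K)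
    (hT : Sp.Typ (S := l.sp) (fun k (ω : (l k).T.Ω) =>
      w k * ph D (pol (v k ω)) (S.dl 1 k) (ptf s' k ((l k).p.π ω)) ≤ K k)) :
    (gau s' D).Ad A B (nfd s' l w v hv) := by
  obtain ⟨K', hK', hT'⟩ := nfd_aux s' l w hw v K hK hT
  apply ad_mk (Φ := gau s' D) (nfd s' l w v hv) hl (fun k => rfl)
    (Eventually.of_forall fun k ω _ => capd_Cpd ((gau s' D).one_le_cp k) _) K' hK'
  refine typ_mono (S := l.sp) hT' (Eventually.of_forall fun k ω _ g => ?_)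
  exact g.2

theorem qf_nfm_ge {N : ℕ} {w : ℝ} (v u : Mon N D → ℝ) : w * (v ⬝ᵥ u) ^ 2 ≤ qf (nfm w v) u := by
  unfold nfm
  have h1 : qf (1 + rk1 w v) u = qf (1 : Matrix (Mon N D) (Mon N D) ℝ) u + qf (rk1 w v) u := qf_add _ _ _
  have h2 : qf (1 : Matrix (Mon N D) (Mon N D) ℝ) u = u ⬝ᵥ u := by
    unfold qf
    rw [Matrix.one_mulVec]
  have h3 : qf (rk1 w v) u = w * (v ⬝ᵥ u) ^ 2 := qf_rk1 w v u
  rw [h1, h2, h3]
  have := dot_self_nonneg u
  linarith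

/-- an optimal form dominates the squares of all label-measurable polynomials which are small at the point -/
theorem opt_poly (s' : Sys S q) {A B : Part S} {x : ∀ k, FD (S.F k) (Mon (q + 1) D)} (hx : (gau s' D).Opt A B x)
    (l : Lab S) (hl : l.DM A B) (w : ℕ → ℝ) (hw : ∀ k, 0 ≤ w k)
    (v : ∀ k, (l k).T.Ω → Mon (q + 1) D → ℝ)
    (hv : ∀ k ω ω', (l k).T.μ ω ≠ 0 → (l k).T.μ ω' ≠ 0 → (l k).V ω ω' → (l k).T.Z ω ω' → v k ω = v k ω')
    (K : ℕ → ℝ) (hK : S.Sub K)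
    (hT : Sp.Typ (S := l.sp) (fun k (ω : (l k).T.Ω) =>
      w k * ph D (pol (v k ω)) (S.dl 1 k) (ptf s' k ((l k).p.π ω)) ≤ K k)) (e : ℝ) (he : 0 < e) :
    Tendsto (fun k => ((x k).l.am (l k)).sp.pb (fun a => ¬ ∀ u, w k * (v k (((x k).l.am (l k)).p2.π a) ⬝ᵥ u) ^ 2 ≤
      2 ^ (e * (S.F k).n) * qf ((x k).g (((x k).l.am (l k)).p1.π a)) u)) UF (𝓝 0) := by
  have h1 := Gau.Opt.dom (gau s' D) hx (nfd_ad s' l hl w hw v hv K hK hT) e he
  obtain ⟨K', hK', hT'⟩ := nfd_aux s' l w hw v K hK hT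
  have h2 : Tendsto (fun k => (l k).T.pb (fun ω => ¬ (Cpd ((gau s' D).cp k) (nfm (w k) (v k ω)) ∧
      (gau s' D).φ k ((l k).p.π ω) (capd ((gau s' D).cp k) (nfm (w k) (v k ω))) ≤ K' k))) UF (𝓝 0) := hT'
  have h3 := h1.add h2
  rw [add_zero] at h3
  refine tendsto_of_tendsto_of_tendsto_of_le_of_le tendsto_const_nhds h3 (fun k => FSp.pb_nonneg _ _) (fun k => ?_)
  have h4 := pb_push ((x k).l.am (l k)).p2 (fun ω => ¬ (Cpd ((gau s' D).cp k) (nfm (w k) (v k ω)) ∧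
      (gau s' D).φ k ((l k).p.π ω) (capd ((gau s' D).cp k) (nfm (w k) (v k ω))) ≤ K' k))
  beta_reduce
  rw [← h4]
  refine le_trans (FSp.pb_mono _ ?_) (pb_or _ _ _)
  intro a _ ha
  by_contra hc
  rw [not_or, not_not, not_not] at hc
  obtain ⟨c1, c2, _⟩ := hc
  apply ha
  intro u
  have c3 : qf (nfm (w k) (v k (((x k).l.am (l k)).p2.π a))) u ≤
      2 ^ (e * (S.F k).n) * qf ((x k).g (((x k).l.am (l k)).p1.π a)) u := by
    have := c1 u
    have e1 : (((x k).jj (nfd s' l w v hv k)).g' a) = nfm (w k) (v k (((x k).l.am (l k)).p2.π a)) := capd_eq c2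
    rw [e1] at this
    exact this
  exact (qf_nfm_ge _ _).trans c3

/-! ### the cells -/

theorem deg_Xc {N : ℕ} (j : Fin N) (z : ℝ) : (X j - C z : MvPolynomial (Fin N) ℝ).totalDegree ≤ 1 := by
  refine (totalDegree_sub _ _).trans (max_le (totalDegree_X (R := ℝ) j).le ?_)
  rw [totalDegree_C]
  exact Nat.zero_le _

/-- coefficients of the affine function `X_j - z` -/
def cvj {N : ℕ} (j : Fin N) (z : ℝ) : Mon N 1 → ℝ := (exists_pol (X j - C z : MvPolynomial (Fin N) ℝ) (deg_Xc j z)).choose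

theorem pol_cvj {N : ℕ} (j : Fin N) (z : ℝ) : pol (cvj j z) = X j - C z :=
  (exists_pol (X j - C z : MvPolynomial (Fin N) ℝ) (deg_Xc j z)).choose_spec.symm

theorem dot_gv {N : ℕ} (v : Mon N 1 → ℝ) (u : Fin N → ℝ) : v ⬝ᵥ gv u = ∑ i, u i * eval 0 (pderiv i (pol v)) := by
  unfold gv
  have h1 : v ⬝ᵥ (fun a => ∑ i, u i * dd i (0 : Fin N → ℝ) a) = ∑ i, u i * (v ⬝ᵥ dd i (0 : Fin N → ℝ)) := by
    unfold dotProduct
    simp only [Finset.mul_sum]
    rw [Finset.sum_comm]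
    apply Finset.sum_congr rfl
    intro i _
    apply Finset.sum_congr rfl
    intro a _
    ring
  rw [h1]
  apply Finset.sum_congr rfl
  intro i _
  rw [eval_pderiv_pol]

theorem cvj_gv {N : ℕ} (j : Fin N) (z : ℝ) (u : Fin N → ℝ) : cvj j z ⬝ᵥ gv u = u j := by
  rw [dot_gv, Finset.sum_eq_single j]
  · rw [pol_cvj, map_sub, pderiv_X_self, pderiv_C, sub_zero, map_one, mul_one]
  · intro i _ hi
    rw [pol_cvj, map_sub, pderiv_X_of_ne (Ne.symm hi), pderiv_C, sub_zero, map_zero, mul_zero]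
  · intro h
    exact absurd (Finset.mem_univ _) h

theorem ph_cvj {N : ℕ} (j : Fin N) (z r δ : ℝ) (hr : 0 ≤ r) (p : Fin N → ℝ) (h : |p j - z| + r ≤ δ) :
    ph 1 (pol (cvj j z)) r p ≤ nn N 1 * δ ^ 2 := by
  have h1 : ∀ i ∈ (Finset.univ : Finset (Fin N → Fin (1 + 1))), (eval (nodp 1 p r i) (pol (cvj j z))) ^ 2 ≤ δ ^ 2 := by
    intro i _
    rw [pol_cvj, map_sub, eval_X, eval_C, ← sq_abs]
    apply pow_le_pow_left₀ (abs_nonneg _)
    have e : nodp 1 p r i j - z = (p j - z) + r * nod 1 (i j) := by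
      unfold nodp
      ring
    rw [e]
    refine (abs_add_le _ _).trans (le_trans (add_le_add le_rfl ?_) h)
    rw [abs_mul, abs_of_nonneg hr, abs_of_nonneg (nod_nonneg 1 _)]
    calc r * nod 1 (i j) ≤ r * 1 :=
          mul_le_mul_of_nonneg_left (nod_le 1 _ (Nat.le_of_lt_succ (i j).2)) hr
      _ = r := mul_one _
  refine (Finset.sum_le_card_nsmul _ _ _ h1).trans (le_of_eq ?_)
  rw [nsmul_eq_mul, card_nodes]

/-- THE CANONICAL 1-FORM OF THE WINDOW IS AT LEAST `2 ^ (2 c n)` IN ALL DIRECTIONS -/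
theorem low_cell {s : Sys S m} {s' : Sys S q} (hfac : Fac s s') {c : ℝ} (h1 : c ≤ 1)
    {x' : ∀ k, FD (S.F k) (Mon (q + 1) 1)} (hx : (gau s' 1).Opt (cA s c) (cB s) x') (e : ℝ) (he : 0 < e) :
    Tendsto (fun k => (x' k).l.T.pb (fun ω => ¬ ∀ u : Fin (q + 1) → ℝ,
      2 ^ (2 * (c - e) * (S.F k).n) * (u ⬝ᵥ u) ≤ qf ((x' k).g ω) (gv u))) UF (𝓝 0) := by
  set W : ∀ k, (S.F k).Ω → (Fin 1 → ℤ) × (Fin q → ℤ) := fun k ω => (s'.t.cellv c k ω, s'.P.cellv c k ω) with hW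
  have hWb : Bdd (S := S) W := (s'.t.bdd c).pair (s'.P.bdd c)
  have hWio : io W = s'.t.dg c ⊔ s'.P.dg c := io_pair (s'.t.bdd c) (s'.P.bdd c)
  have hWA : io W ≤ lA s c := by
    rw [hWio]
    exact (sup_le le_sup_right (P_le_A s' h1)).trans (hfac.A c)
  have hWB : io W ≤ lB s := by
    rw [hWio]
    exact (sup_le (t_le_B s' h1) (P_le_B s' h1)).trans hfac.B
  set l : Lab S := lW (fun k => FLab.triv (S.F k)) W with hl
  have hdm : l.DM (cA s c) (cB s) := lW_DM hWb hWA hWB (Lab.DM_triv _ _)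
  -- the corners of the cells
  set z : ∀ k, (S.F k).Ω → Fin (q + 1) → ℝ := fun k ω j => ⌊ptf s' k ω j / S.dl c k⌋ * S.dl c k with hz
  have hzW : ∀ k ω ω', W k ω = W k ω' → z k ω = z k ω' := by
    intro k ω ω' h
    rw [hW] at h
    simp only at h
    rw [Prod.mk.injEq] at h
    funext j
    rw [hz]
    simp only
    refine Fin.cases ?_ (fun i => ?_) j
    · have h2 : ⌊s'.t.v k ω 0 / S.dl c k⌋ = ⌊s'.t.v k ω' 0 / S.dl c k⌋ := congrFun h.1 0
      show (⌊s'.t.v k ω 0 / S.dl c k⌋ : ℝ) * S.dl c k = ⌊s'.t.v k ω' 0 / S.dl c k⌋ * S.dl c k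
      rw [h2]
    · have h2 : ⌊s'.P.v k ω i / S.dl c k⌋ = ⌊s'.P.v k ω' i / S.dl c k⌋ := congrFun h.2 i
      show (⌊s'.P.v k ω i / S.dl c k⌋ : ℝ) * S.dl c k = ⌊s'.P.v k ω' i / S.dl c k⌋ * S.dl c k
      rw [h2]
  have hzc : ∀ k ω j, |ptf s' k ω j - z k ω j| ≤ S.dl c k := by
    intro k ω j
    have hd := S.dl_pos c k
    have h2 := Int.floor_le (ptf s' k ω j / S.dl c k)
    have h3 := Int.lt_floor_add_one (ptf s' k ω j / S.dl c k)
    rw [le_div_iff₀ hd] at h2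
    rw [div_lt_iff₀ hd] at h3
    rw [abs_le]
    constructor
    · show -S.dl c k ≤ ptf s' k ω j - ⌊ptf s' k ω j / S.dl c k⌋ * S.dl c k
      linarith
    · show ptf s' k ω j - ⌊ptf s' k ω j / S.dl c k⌋ * S.dl c k ≤ S.dl c k
      linarith
  have key : ∀ j : Fin (q + 1), Tendsto (fun k => ((x' k).l.am (l k)).sp.pb (fun a => ¬ ∀ u,
      2 ^ (2 * c * (S.F k).n) * (cvj j (z k ((l k).p.π (((x' k).l.am (l k)).p2.π a)) j) ⬝ᵥ u) ^ 2 ≤
      2 ^ (e * (S.F k).n) * qf ((x' k).g (((x' k).l.am (l k)).p1.π a)) u)) UF (𝓝 0) := by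
    intro j
    refine opt_poly s' hx l hdm (fun k => 2 ^ (2 * c * (S.F k).n)) (fun k => by positivity)
      (fun k ω => cvj j (z k ((l k).p.π ω) j)) ?_ (fun _ => nn (q + 1) 1 * 4) (S.Sub_const ?_) ?_ e he
    · intro k ω ω' _ _ hV _
      have h2 : W k ((l k).p.π ω) = W k ((l k).p.π ω') := hV.2
      show cvj j (z k ((l k).p.π ω) j) = cvj j (z k ((l k).p.π ω') j)
      rw [hzW k _ _ h2]
    · have := nn_one (q + 1) 1
      positivity
    · refine typ_mono (S := l.sp) (Typ_true (S := l.sp)) (Eventually.of_forall fun k ω _ _ => ?_)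
      have hd : S.dl 1 k ≤ S.dl c k := S.dl_anti h1 k
      have h2 := ph_cvj j (z k ((l k).p.π ω) j) (S.dl 1 k) (2 * S.dl c k) (S.dl_pos 1 k).le
        (ptf s' k ((l k).p.π ω)) (by
          have := hzc k ((l k).p.π ω) j
          linarith)
      have e1 : (2 : ℝ) ^ (2 * c * (S.F k).n) * S.dl c k ^ 2 = 1 := by
        unfold Sp.dl
        rw [← Real.rpow_natCast (2 ^ _) 2, ← Real.rpow_mul (by norm_num), ← Real.rpow_add (by norm_num),
          ← Real.rpow_zero 2]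
        congr 1
        push_cast
        ring
      have h3 := mul_le_mul_of_nonneg_left h2 (show (0 : ℝ) ≤ 2 ^ (2 * c * (S.F k).n) by positivity)
      refine h3.trans (le_of_eq ?_)
      calc (2 : ℝ) ^ (2 * c * (S.F k).n) * (nn (q + 1) 1 * (2 * S.dl c k) ^ 2) =
          nn (q + 1) 1 * 4 * (2 ^ (2 * c * (S.F k).n) * S.dl c k ^ 2) := by ring
        _ = nn (q + 1) 1 * 4 := by rw [e1, mul_one]
  have hsum : Tendsto (fun k => ∑ j : Fin (q + 1), ((x' k).l.am (l k)).sp.pb (fun a => ¬ ∀ u,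
      2 ^ (2 * c * (S.F k).n) * (cvj j (z k ((l k).p.π (((x' k).l.am (l k)).p2.π a)) j) ⬝ᵥ u) ^ 2 ≤
      2 ^ (e * (S.F k).n) * qf ((x' k).g (((x' k).l.am (l k)).p1.π a)) u)) UF (𝓝 0) := by
    have := tendsto_finsetSum (Finset.univ : Finset (Fin (q + 1))) (fun j _ => key j)
    rwa [Finset.sum_const_zero] at this
  -- the constant
  have hcst : ∀ᶠ k in UF, ((q : ℝ) + 1) ≤ 2 ^ (e * (S.F k).n) := by
    filter_upwards [(S.Sub_const (show (0 : ℝ) ≤ (q : ℝ) + 1 by positivity)).eventually_le he] with k hk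
    linarith
  refine tendsto_of_tendsto_of_tendsto_of_le_of_le' tendsto_const_nhds hsum
    (Eventually.of_forall fun k => FSp.pb_nonneg _ _) ?_
  filter_upwards [hcst] with k hk
  have h4 := pb_push ((x' k).l.am (l k)).p1 (fun ω => ¬ ∀ u : Fin (q + 1) → ℝ,
      2 ^ (2 * (c - e) * (S.F k).n) * (u ⬝ᵥ u) ≤ qf ((x' k).g ω) (gv u))
  rw [← h4]
  have hor : ∀ (F : FSp) (E : Fin (q + 1) → F.Ω → Prop) (J : Finset (Fin (q + 1))),
      F.pb (fun a => ∃ j ∈ J, E j a) ≤ ∑ j ∈ J, F.pb (E j) := by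
    classical
    intro F E J
    induction J using Finset.induction_on with
    | empty =>
      have h5 : F.pb (fun a => ∃ j ∈ (∅ : Finset (Fin (q + 1))), E j a) = 0 := by
        have h6 : F.pb (fun a => ¬ ∃ j ∈ (∅ : Finset (Fin (q + 1))), E j a) = 1 :=
          pb_eq_one fun ω _ h => by
            obtain ⟨j, hj, _⟩ := h
            simp at hj
        have h7 := F.pb_add_compl (fun a => ∃ j ∈ (∅ : Finset (Fin (q + 1))), E j a)
        linarith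
      rw [h5, Finset.sum_empty]
    | insert j J hj ih =>
      rw [Finset.sum_insert hj]
      refine le_trans (FSp.pb_mono _ ?_) ((pb_or F (E j) (fun a => ∃ j ∈ J, E j a)).trans
        (add_le_add le_rfl ih))
      rintro a _ ⟨i, hi, ha⟩
      rcases Finset.mem_insert.mp hi with h | h
      · rw [h] at ha
        exact Or.inl ha
      · exact Or.inr ⟨i, h, ha⟩
  refine le_trans (FSp.pb_mono _ ?_) (hor _ (fun j a => ¬ ∀ u,
      2 ^ (2 * c * (S.F k).n) * (cvj j (z k ((l k).p.π (((x' k).l.am (l k)).p2.π a)) j) ⬝ᵥ u) ^ 2 ≤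
      2 ^ (e * (S.F k).n) * qf ((x' k).g (((x' k).l.am (l k)).p1.π a)) u) Finset.univ)
  intro a _ ha
  by_contra hc
  push Not at hc
  apply ha
  intro u
  have h5 : ∀ j : Fin (q + 1), 2 ^ (2 * c * (S.F k).n) * (u j) ^ 2 ≤
      2 ^ (e * (S.F k).n) * qf ((x' k).g (((x' k).l.am (l k)).p1.π a)) (gv u) := by
    intro j
    have := hc j (Finset.mem_univ j) (gv u)
    rwa [cvj_gv] at this
  have h6 : 2 ^ (2 * c * (S.F k).n) * (u ⬝ᵥ u) ≤ ((q : ℝ) + 1) *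
      (2 ^ (e * (S.F k).n) * qf ((x' k).g (((x' k).l.am (l k)).p1.π a)) (gv u)) := by
    have h7 : u ⬝ᵥ u = ∑ j, (u j) ^ 2 := by
      unfold dotProduct
      apply Finset.sum_congr rfl
      intro j _
      ring
    rw [h7, Finset.mul_sum]
    refine (Finset.sum_le_card_nsmul _ _ _ (fun j _ => h5 j)).trans (le_of_eq ?_)
    rw [nsmul_eq_mul, Finset.card_univ, Fintype.card_fin]
    push_cast
    ring
  set Q := qf ((x' k).g (((x' k).l.am (l k)).p1.π a)) (gv u) with hQ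
  have hu0 : 0 ≤ u ⬝ᵥ u := dot_self_nonneg u
  have hQ0 : 0 ≤ Q := by
    have h8 : 0 ≤ ((q : ℝ) + 1) * (2 ^ (e * (S.F k).n) * Q) := le_trans (by positivity) h6
    have h9 : 0 < ((q : ℝ) + 1) * 2 ^ (e * (S.F k).n) := by positivity
    rw [← mul_assoc] at h8
    exact nonneg_of_mul_nonneg_right h8 h9
  have h8 : ((q : ℝ) + 1) * (2 ^ (e * (S.F k).n) * Q) ≤ 2 ^ (2 * e * (S.F k).n) * Q := by
    calc ((q : ℝ) + 1) * (2 ^ (e * (S.F k).n) * Q) ≤ 2 ^ (e * (S.F k).n) * (2 ^ (e * (S.F k).n) * Q) :=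
          mul_le_mul_of_nonneg_right hk (by positivity)
      _ = 2 ^ (2 * e * (S.F k).n) * Q := by
          rw [← mul_assoc, ← Real.rpow_add (by norm_num)]
          congr 2
          ring
  have h9 := h6.trans h8
  have e2 : (2 : ℝ) ^ (2 * (c - e) * (S.F k).n) * 2 ^ (2 * e * (S.F k).n) = 2 ^ (2 * c * (S.F k).n) := by
    rw [← Real.rpow_add (by norm_num)]
    congr 1
    ring
  rw [← e2] at h9
  have h10 : (0 : ℝ) < 2 ^ (2 * e * (S.F k).n) := by positivity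
  have h11 : 2 ^ (2 * e * (S.F k).n) * (2 ^ (2 * (c - e) * (S.F k).n) * (u ⬝ᵥ u)) ≤ 2 ^ (2 * e * (S.F k).n) * Q := by
    calc _ = (2 : ℝ) ^ (2 * (c - e) * (S.F k).n) * 2 ^ (2 * e * (S.F k).n) * (u ⬝ᵥ u) := by ring
      _ ≤ _ := h9
  exact le_of_mul_le_mul_left h11 h10

end

end Pool.Agent.Helper51.LIP
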