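import Pool.Agent.Helper51.LIP.Plan
import Pool.Agent.Helper51.LIP.Lowg
import Pool.Agent.Helper51.LP.RicE
import Pool.Agent.Helper93.LIP.LineX
import Pool.Agent.Helper48.LIP.Zvx

/-! LIP, row (2.3): two conormals of the copies of the space of `X` given the label and the line of the window which
are not close determine the velocity of the second point; richness. -/

set_option autoImplicit false

namespace Pool.Agent.Helper51.LD2

open Finset Filter Topology Matrix Pool.Agent.Helper69.RK Pool.Agent.Helper31.EC Pool.Agent.Helper40.EL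
open Pool.Agent.Helper31.EC.Sp
open Pool.Agent.Helper95.LF (PdM)
open Pool.Agent.Helper3.LF Pool.Agent.Helper89.LX Pool.Agent.Helper3.SG
open Pool.Agent.Helper48.NS Pool.Agent.Helper48.LIP Pool.Agent.Helper39.LIP Pool.Agent.Helper3.PR
open Pool.Agent.Helper80.MX

noncomputable section

/-! ### finite lemmas -/

/-- horizontal derivatives are bounded by the values on the cell -/
theorem gM_phi {q : ℕ} {A : Matrix (Mon (q + 1) 1) (Mon (q + 1) 1) ℝ} (hA : PdM A) (r : ℝ) (hr : 0 < r)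
    (p : Fin (q + 1) → ℝ) (u : Fin q → ℝ) :
    r ^ 2 * qf A (gM u) ≤ (q + 1) * Cm (q + 1) 1 ^ 2 * (u ⬝ᵥ u) * phi r A p := by
  have e0 : (gM u : Mon (q + 1) 1 → ℝ) = ∑ i : Fin (q + 1), (Fin.cons 0 u : Fin (q + 1) → ℝ) i • dd i p := by
    funext a
    unfold gM gv
    rw [Finset.sum_apply]
    apply Finset.sum_congr rfl
    intro i _
    rw [Pi.smul_apply, smul_eq_mul, dd_one i 0 p]
  have h1 := qf_sum_le hA.1 (fun v => hA.nonneg v)
    (fun i : Fin (q + 1) => (Fin.cons 0 u : Fin (q + 1) → ℝ) i • (dd i p : Mon (q + 1) 1 → ℝ))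
  rw [← e0, Fintype.card_fin] at h1
  have h2 : ∀ i : Fin (q + 1), r ^ 2 * qf A (dd i p) ≤ Cm (q + 1) 1 ^ 2 * phi r A p := by
    intro i
    have h3 := grad_le hA r 1 hr le_rfl p p (fun i => by rw [sub_self, abs_zero]; linarith) i
    rw [one_pow, mul_one] at h3
    exact h3
  have h4 : r ^ 2 * ∑ i : Fin (q + 1), qf A ((Fin.cons 0 u : Fin (q + 1) → ℝ) i • (dd i p : Mon (q + 1) 1 → ℝ)) ≤
      (u ⬝ᵥ u) * (Cm (q + 1) 1 ^ 2 * phi r A p) := by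
    have e1 : (u ⬝ᵥ u) * (Cm (q + 1) 1 ^ 2 * phi r A p) =
        ∑ i : Fin (q + 1), ((Fin.cons 0 u : Fin (q + 1) → ℝ) i) ^ 2 * (Cm (q + 1) 1 ^ 2 * phi r A p) := by
      rw [← Finset.sum_mul, Fin.sum_univ_succ]
      congr 1
      simp only [Fin.cons_zero, Fin.cons_succ]
      unfold dotProduct
      rw [zero_pow two_ne_zero, zero_add]
      exact Finset.sum_congr rfl fun i _ => by ring
    rw [e1, Finset.mul_sum]
    apply Finset.sum_le_sum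
    intro i _
    rw [qf_smul_vec]
    calc r ^ 2 * ((Fin.cons 0 u : Fin (q + 1) → ℝ) i ^ 2 * qf A (dd i p)) =
        (Fin.cons 0 u : Fin (q + 1) → ℝ) i ^ 2 * (r ^ 2 * qf A (dd i p)) := by ring
      _ ≤ _ := mul_le_mul_of_nonneg_left (h2 i) (sq_nonneg _)
  calc r ^ 2 * qf A (gM u) ≤ r ^ 2 * (((q + 1 : ℕ) : ℝ) *
        ∑ i : Fin (q + 1), qf A ((Fin.cons 0 u : Fin (q + 1) → ℝ) i • (dd i p : Mon (q + 1) 1 → ℝ))) :=
        mul_le_mul_of_nonneg_left h1 (by positivity)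
    _ = ((q + 1 : ℕ) : ℝ) * (r ^ 2 *
        ∑ i : Fin (q + 1), qf A ((Fin.cons 0 u : Fin (q + 1) → ℝ) i • (dd i p : Mon (q + 1) 1 → ℝ))) := by ring
    _ ≤ ((q + 1 : ℕ) : ℝ) * ((u ⬝ᵥ u) * (Cm (q + 1) 1 ^ 2 * phi r A p)) :=
        mul_le_mul_of_nonneg_left h4 (by positivity)
    _ = _ := by push_cast; ring

/-- differences of velocities -/
theorem gv_cons_sub {q : ℕ} (x x' : Fin q → ℝ) :
    (gv (Fin.cons 1 x : Fin (q + 1) → ℝ) : Mon (q + 1) 1 → ℝ) - gv (Fin.cons 1 x') = gM (x - x') := by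
  unfold gM
  rw [← gv_sub]
  congr 1
  funext i
  refine Fin.cases ?_ (fun i => ?_) i
  · simp
  · simp

/-- the conormal on a vector -/
theorem n_le {q : ℕ} {A A₀ : Matrix (Mon (q + 1) 1) (Mon (q + 1) 1) ℝ} {n : Mon (q + 1) 1 → ℝ} {μ : ℝ}
    (h : IsTcn A A₀ n μ) {v : Mon (q + 1) 1 → ℝ} {b θ N : ℝ} (hb : qf A v ≤ 2 ^ (2 * b * N))
    (hμ : 2 ^ (2 * θ * N) ≤ μ) : |n ⬝ᵥ v| ≤ 2 ^ ((b - θ) * N) := by
  apply abs_le_of_sq_le_sq _ (by positivity)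
  have h1 := h.low v
  have h2 : (2 : ℝ) ^ (2 * θ * N) * (n ⬝ᵥ v) ^ 2 ≤ 2 ^ (2 * b * N) :=
    (mul_le_mul_of_nonneg_right hμ (sq_nonneg _)).trans (h1.trans hb)
  have e1 : ((2 : ℝ) ^ ((b - θ) * N)) ^ 2 = 2 ^ (2 * b * N) / 2 ^ (2 * θ * N) := by
    rw [← Real.rpow_natCast, ← Real.rpow_mul (by norm_num), ← Real.rpow_sub (by norm_num)]
    congr 1
    push_cast
    ring
  rw [e1, le_div_iff₀ (by positivity), mul_comm]
  exact h2

/-- TWO POINTS WITH THE SAME CONORMALS: the difference of the velocities -/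
theorem pair_vel {A1 A2 A₀ : Matrix (Mon 3 1) (Mon 3 1) ℝ} (h0 : PdM A₀) {n1 n2 : Mon 3 1 → ℝ} {μ1 μ2 : ℝ}
    (t1 : IsTcn A1 A₀ n1 μ1) (t2 : IsTcn A2 A₀ n2 μ2) {θ ν b N : ℝ} (hN : 0 ≤ N) (hν : 0 ≤ ν)
    (m1 : 2 ^ (2 * θ * N) ≤ μ1) (m2 : 2 ^ (2 * θ * N) ≤ μ2) (hc : ¬ CloM A₀ (2 ^ (-(ν * N))) n1 n2)
    (x x' : Fin 2 → ℝ) (a1 : qf A1 (gv (Fin.cons 1 x : Fin 3 → ℝ)) ≤ 2 ^ (2 * b * N))
    (a1' : qf A1 (gv (Fin.cons 1 x' : Fin 3 → ℝ)) ≤ 2 ^ (2 * b * N))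
    (a2 : qf A2 (gv (Fin.cons 1 x : Fin 3 → ℝ)) ≤ 2 ^ (2 * b * N))
    (a2' : qf A2 (gv (Fin.cons 1 x' : Fin 3 → ℝ)) ≤ 2 ^ (2 * b * N)) :
    qf A₀ (gM (x - x')) ≤ 64 * 2 ^ (2 * (b - θ + ν) * N) := by
  have key : ∀ {A : Matrix (Mon 3 1) (Mon 3 1) ℝ} {n : Mon 3 1 → ℝ} {μ : ℝ}, IsTcn A A₀ n μ → 2 ^ (2 * θ * N) ≤ μ →
      qf A (gv (Fin.cons 1 x : Fin 3 → ℝ)) ≤ 2 ^ (2 * b * N) →
      qf A (gv (Fin.cons 1 x' : Fin 3 → ℝ)) ≤ 2 ^ (2 * b * N) →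
      |n ⬝ᵥ gM (x - x')| ≤ 2 * 2 ^ ((b - θ) * N) := by
    intro A n μ t m a a'
    rw [← gv_cons_sub, dotProduct_sub]
    have h1 := n_le t a m
    have h2 := n_le t a' m
    rw [abs_le] at h1 h2 ⊢
    constructor
    · linarith [h1.1, h2.2]
    · linarith [h1.2, h2.1]
  have hτ : (2 : ℝ) ^ (-(ν * N)) ≤ 1 := by
    apply Real.rpow_le_one_of_one_le_of_nonpos (by norm_num)
    have := mul_nonneg hν hN
    linarith
  have h1 := plan h0 t1.dual t2.dual t1.unit t2.unit (show (0 : ℝ) < 2 ^ (-(ν * N)) by positivity) hτ hc (x - x')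
    (key t1 m1 a1 a1') (key t2 m2 a2 a2')
  have e1 : ((2 : ℝ) ^ (-(ν * N))) ^ 2 = 2 ^ (-(2 * ν * N)) := by
    rw [← Real.rpow_natCast, ← Real.rpow_mul (by norm_num)]
    congr 1
    push_cast
    ring
  have e2 : ((2 : ℝ) ^ ((b - θ) * N)) ^ 2 = 2 ^ (2 * (b - θ) * N) := by
    rw [← Real.rpow_natCast, ← Real.rpow_mul (by norm_num)]
    congr 1
    push_cast
    ring
  rw [e1, mul_pow, e2] at h1
  have h2 := mul_le_mul_of_nonneg_left h1 (show (0 : ℝ) ≤ 2 ^ (2 * ν * N) by positivity)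
  have e3 : (2 : ℝ) ^ (2 * ν * N) * (2 ^ (-(2 * ν * N)) * qf A₀ (gM (x - x'))) = qf A₀ (gM (x - x')) := by
    rw [← mul_assoc, ← Real.rpow_add (by norm_num)]
    have : 2 * ν * N + -(2 * ν * N) = 0 := by ring
    rw [this, Real.rpow_zero, one_mul]
  rw [e3] at h2
  refine h2.trans (le_of_eq ?_)
  have e4 : (2 : ℝ) ^ (2 * (b - θ + ν) * N) = 2 ^ (2 * ν * N) * 2 ^ (2 * (b - θ) * N) := by
    rw [← Real.rpow_add (by norm_num)]
    congr 1
    ring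
  rw [e4]
  ring

/-! ### the data `XO` -/

section gen

variable {S : Sp} {m q : ℕ} {s : Sys S m} {s' : Sys S q} {ι : Type}
  {x : ∀ k, FD (S.F k) ι} {x' : ∀ k, FD (S.F k) (Mon (q + 1) 1)} {c : ℝ}

/-- the label of `X` knows the label of the window at the third point -/
theorem XO_VK (O : XO s s' x x' c) (k : ℕ) (ω ω' : (O.X k).l.T.Ω) (h : (O.X k).l.T.μ ω ≠ 0)
    (h' : (O.X k).l.T.μ ω' ≠ 0) (hV : (O.X k).l.V ω ω') : O.K k ω ω' := by
  set l := ((x k).jn ((lb x') k)).l with hl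
  set K := jK (x k) ((lb x') k) with hK
  set A := cAs s c k with hA
  have hV' : (Lab3 s x (lb x') c k).V ((O.r k).π ω) ((O.r k).π ω') := O.hV k hV
  have b1 := (O.r k).supp ω h
  have b2 := (O.r k).supp ω' h'
  have c1 : (cY l K A ⊓ l.T.Z) ((O.r k).π ω).1.1 ((O.r k).π ω).2 :=
    Quotient.exact ((fam3 l K A).supp _ b1).1
  have c2 : (cY l K A ⊓ l.T.Z) ((O.r k).π ω').1.1 ((O.r k).π ω').2 :=
    Quotient.exact ((fam3 l K A).supp _ b2).1
  have d : K ((O.r k).π ω).1.1 ((O.r k).π ω').1.1 := jK_le (x k) ((lb x') k) hV'.1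
  have e : K ((O.r k).π ω).2 ((O.r k).π ω').2 := K.trans (K.symm c1.1.1) (K.trans d c2.1.1)
  exact e

/-- the form of the window is a function of its label -/
theorem XO_g0 (O : XO s s' x x' c) (k : ℕ) (ω ω' : (O.X k).l.T.Ω) (h : (O.X k).l.T.μ ω ≠ 0)
    (h' : (O.X k).l.T.μ ω' ≠ 0) (hK : O.K k ω ω') (hZ : (O.X k).l.T.Z ω ω') : O.g₀ k ω = O.g₀ k ω' :=
  ((x' k).meas _ _ ((O.pk k).supp ω h) ((O.pk k).supp ω' h') hK (((O.pk k).hZ ω ω' h h').mp hZ)).1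

/-- positivity of the form of the window -/
theorem XO_g0_pd (O : XO s s' x x' c) {A B : Part S} (hx : (gau s' 1).Ad A B x') : ∀ᶠ k in UF,
    ∀ ω, (O.X k).l.T.μ ω ≠ 0 → PdM (O.g₀ k ω) := by
  filter_upwards [hx 1 one_pos] with k hk ω hω
  exact (hk.2.2.1 _ ((O.pk k).supp ω hω)).1.pdM

/-- the copies of the space of `X` given the label and the line of the window -/
def AmA (O : XO s s' x x' c) (k : ℕ) : FAm (O.X k).l.T (O.X k).l.T := pam (O.X k).l (O.K k) (cAs s c k)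

/-- the labels of both copies, at the second point -/
def LA (O : XO s s' x x' c) : Lab S := fun k => ((O.X k).pr (O.K k) (cAs s c k)).l

theorem AmA_supp (O : XO s s' x x' c) (k : ℕ) (w : (O.X k).l.T.Ω × (O.X k).l.T.Ω) (h : (AmA O k).sp.μ w ≠ 0) :
    (O.X k).l.T.μ w.1 ≠ 0 ∧ (O.X k).l.T.μ w.2 ≠ 0 ∧ O.K k w.1 w.2 ∧
    (cAs s c k) ((O.X k).l.p.π w.1) ((O.X k).l.p.π w.2) ∧ (O.X k).l.T.Z w.1 w.2 := by
  have h1 := pam_rel (O.X k).l (O.K k) (cAs s c k) w h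
  have h2 := pam_supp (O.X k).l (O.K k) (cAs s c k) w h
  exact ⟨h2.1, h2.2, h1.1.1, h1.1.2, h1.2⟩

/-- typical events of one copy -/
theorem AmA_typ1 (O : XO s s' x x' c) {G : ∀ k, (O.X k).l.T.Ω → Prop}
    (hG : Tendsto (fun k => (O.X k).l.T.pb (fun ω => ¬ G k ω)) UF (𝓝 0)) :
    Typ (S := (LA O).sp) (fun k w => G k ((AmA O k).p1.π w)) := by
  refine Tendsto.congr (fun k => ?_) hG
  exact (pb_push (AmA O k).p1 (fun ω => ¬ G k ω)).symm

theorem AmA_typ2 (O : XO s s' x x' c) {G : ∀ k, (O.X k).l.T.Ω → Prop}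
    (hG : Tendsto (fun k => (O.X k).l.T.pb (fun ω => ¬ G k ω)) UF (𝓝 0)) :
    Typ (S := (LA O).sp) (fun k w => G k ((AmA O k).p2.π w)) := by
  refine Tendsto.congr (fun k => ?_) hG
  exact (pb_push (AmA O k).p2 (fun ω => ¬ G k ω)).symm

/-- events of the window on the space of `X` -/
theorem pk_typ (O : XO s s' x x' c) {G : ∀ k, (x' k).l.T.Ω → Prop}
    (hG : Tendsto (fun k => (x' k).l.T.pb (fun ω => ¬ G k ω)) UF (𝓝 0)) :
    Tendsto (fun k => (O.X k).l.T.pb (fun ω => ¬ G k ((O.pk k).π ω))) UF (𝓝 0) := by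
  refine Tendsto.congr (fun k => ?_) hG
  exact (pb_push (O.pk k) (fun ω => ¬ G k ω)).symm

/-- typical bounds of the form of `X` -/
theorem XO_phi (O : XO s s' x x' c) (e : ℝ) (he : 0 < e) : Tendsto (fun k => (O.X k).l.T.pb (fun ω =>
    ¬ sph s' 1 k ((O.X k).l.p.π ω) ((O.X k).g ω) ≤ 2 ^ (e * (S.F k).n))) UF (𝓝 0) := by
  rw [Metric.tendsto_nhds]
  intro η hη
  have hm : 0 < min e (η / 2) := lt_min he (by linarith)
  filter_upwards [O.phi _ hm] with k hk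
  rw [Real.dist_eq, sub_zero, abs_of_nonneg (FSp.pb_nonneg _ _)]
  have h1 : min e (η / 2) ≤ η / 2 := min_le_right _ _
  refine lt_of_le_of_lt (FSp.pb_mono _ (E' := fun ω => ¬ sph s' 1 k ((O.X k).l.p.π ω) ((O.X k).g ω) ≤
    2 ^ (min e (η / 2) * (S.F k).n)) ?_) (by linarith)
  intro ω _ h2 h3
  apply h2
  refine h3.trans ?_
  apply Real.rpow_le_rpow_of_exponent_le (by norm_num)
  exact mul_le_mul_of_nonneg_right (min_le_left _ _) (S.F k).pos.le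

/-- LINE at the second point for the form of the first point -/
theorem far_vel (O : XO s s' x x' c) (fac : Fac s s') (κ : Fin q → Fin m)
    (lit : ∀ k ω j, s'.x.v k ω j = s.x.v k ω (κ j)) (h0 : 0 ≤ c) (h1 : c < 1) (e : ℝ) (he : 0 < e) :
    Typ (S := (LA O).sp) (fun k (w : (O.X k).l.T.Ω × (O.X k).l.T.Ω) =>
      qf ((O.X k).g w.1) (gv (Fin.cons 1 (s'.x.v k ((O.X k).l.p.π w.2)) : Fin (q + 1) → ℝ)) ≤
        2 ^ (2 * (c + e) * (S.F k).n)) := by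
  have t1 := AmA_typ1 O (Pool.Agent.Helper93.LIP.XO_vel O fac h0 h1 (e / 2) (by linarith))
  have t2 := AmA_typ1 O (XO_phi O (e / 2) (by linarith))
  set C0 : ℝ := (q + 1) * Cm (q + 1) 1 ^ 2 * q with hC0
  have hC0' : 0 ≤ 2 * (1 + C0) := by
    rw [hC0]
    positivity
  refine typ_mono (typ_and t1 t2) ?_
  filter_upwards [O.cpd, (S.Sub_const hC0').eventually_le he] with k hcp hC w hw hG
  obtain ⟨g1, g2⟩ := hG
  have hs := AmA_supp O k w hw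
  have hA : PdM ((O.X k).g w.1) := (hcp _ hs.1).pdM
  have hn := (S.F k).pos
  set A := (O.X k).g w.1 with hAd
  set x1 := s'.x.v k ((O.X k).l.p.π w.1) with hx1
  set x2 := s'.x.v k ((O.X k).l.p.π w.2) with hx2
  have g1' : qf A (gv (Fin.cons 1 x1 : Fin (q + 1) → ℝ)) ≤ 2 ^ (2 * (c + e / 2) * (S.F k).n) := g1
  have g2' : sph s' 1 k ((O.X k).l.p.π w.1) A ≤ 2 ^ (e / 2 * (S.F k).n) := g2
  have hd := S.dl_pos 1 k
  have hδ : ∀ j, |x1 j - x2 j| ≤ S.dl 1 k := by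
    intro j
    rw [hx1, hx2, lit, lit]
    exact s.x.cellv_close 1 k _ _ hs.2.2.2.1.1.2 (κ j)
  have hdot : (x1 - x2) ⬝ᵥ (x1 - x2) ≤ q * S.dl 1 k ^ 2 := by
    unfold dotProduct
    have h2 : ∑ j : Fin q, (x1 - x2) j * (x1 - x2) j ≤ ∑ _j : Fin q, S.dl 1 k ^ 2 := by
      apply Finset.sum_le_sum
      intro j _
      rw [Pi.sub_apply, ← sq, ← sq_abs]
      exact pow_le_pow_left₀ (abs_nonneg _) (hδ j) 2
    refine h2.trans (le_of_eq ?_)
    rw [Finset.sum_const, Finset.card_univ, Fintype.card_fin, nsmul_eq_mul]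
  have hgM : qf A (gM (x1 - x2)) ≤ C0 * sph s' 1 k ((O.X k).l.p.π w.1) A := by
    have h2 := gM_phi hA (S.dl 1 k) hd (ptf s' k ((O.X k).l.p.π w.1)) (x1 - x2)
    have h3 : 0 ≤ phi (S.dl 1 k) A (ptf s' k ((O.X k).l.p.π w.1)) := phi_nonneg _ (fun y => hA.nonneg y) _
    have h4 : (q + 1) * Cm (q + 1) 1 ^ 2 * ((x1 - x2) ⬝ᵥ (x1 - x2)) *
        phi (S.dl 1 k) A (ptf s' k ((O.X k).l.p.π w.1)) ≤
        S.dl 1 k ^ 2 * (C0 * phi (S.dl 1 k) A (ptf s' k ((O.X k).l.p.π w.1))) := by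
      rw [hC0]
      calc (q + 1) * Cm (q + 1) 1 ^ 2 * ((x1 - x2) ⬝ᵥ (x1 - x2)) *
            phi (S.dl 1 k) A (ptf s' k ((O.X k).l.p.π w.1)) ≤
            (q + 1) * Cm (q + 1) 1 ^ 2 * (q * S.dl 1 k ^ 2) *
            phi (S.dl 1 k) A (ptf s' k ((O.X k).l.p.π w.1)) := by
              apply mul_le_mul_of_nonneg_right _ h3
              exact mul_le_mul_of_nonneg_left hdot (by positivity)
        _ = _ := by ring
    exact le_of_mul_le_mul_left (h2.trans h4) (by positivity)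
  have hv : (gv (Fin.cons 1 x2 : Fin (q + 1) → ℝ) : Mon (q + 1) 1 → ℝ) = gv (Fin.cons 1 x1) - gM (x1 - x2) := by
    rw [← gv_cons_sub, sub_sub_cancel]
  rw [hv]
  refine (Pool.Agent.Helper93.LIP.qf_sub_le (fun v => hA.nonneg v) _ _).trans ?_
  have hp : (2 : ℝ) ^ (e / 2 * (S.F k).n) ≤ 2 ^ (2 * (c + e / 2) * (S.F k).n) := by
    apply Real.rpow_le_rpow_of_exponent_le (by norm_num)
    apply mul_le_mul_of_nonneg_right _ hn.le
    linarith
  have hC0n : 0 ≤ C0 := by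
    rw [hC0]
    positivity
  have h5 : qf A (gM (x1 - x2)) ≤ C0 * 2 ^ (2 * (c + e / 2) * (S.F k).n) :=
    hgM.trans (mul_le_mul_of_nonneg_left (g2'.trans hp) hC0n)
  have h6 : 2 * (qf A (gv (Fin.cons 1 x1 : Fin (q + 1) → ℝ)) + qf A (gM (x1 - x2))) ≤
      (2 * (1 + C0)) * 2 ^ (2 * (c + e / 2) * (S.F k).n) := by
    have h8 := add_le_add g1' h5
    calc 2 * (qf A (gv (Fin.cons 1 x1 : Fin (q + 1) → ℝ)) + qf A (gM (x1 - x2))) ≤
        2 * (2 ^ (2 * (c + e / 2) * (S.F k).n) + C0 * 2 ^ (2 * (c + e / 2) * (S.F k).n)) :=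
          mul_le_mul_of_nonneg_left h8 (by norm_num)
      _ = _ := by ring
  have hC' : 2 * (1 + C0) ≤ 2 ^ (e * (S.F k).n) := by linarith
  have h7 : (0 : ℝ) ≤ 2 ^ (2 * (c + e / 2) * (S.F k).n) := by positivity
  refine h6.trans ((mul_le_mul_of_nonneg_right hC' h7).trans (le_of_eq ?_))
  rw [← Real.rpow_add (by norm_num)]
  congr 1
  ring

/-- LINE at the second point for its own form -/
theorem near_vel (O : XO s s' x x' c) (fac : Fac s s') (h0 : 0 ≤ c) (h1 : c < 1) (e : ℝ) (he : 0 < e) :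
    Typ (S := (LA O).sp) (fun k (w : (O.X k).l.T.Ω × (O.X k).l.T.Ω) =>
      qf ((O.X k).g w.2) (gv (Fin.cons 1 (s'.x.v k ((O.X k).l.p.π w.2)) : Fin (q + 1) → ℝ)) ≤
        2 ^ (2 * (c + e) * (S.F k).n)) :=
  AmA_typ2 O (Pool.Agent.Helper93.LIP.XO_vel O fac h0 h1 e he)

/-- the form of the window is at least `2 ^ (2 c n)` in all directions -/
theorem low_pair (O : XO s s' x x' c) (fac : Fac s s') (h1 : c < 1)
    (hx' : (gau s' 1).Opt (cA s c) (cB s) x') (e : ℝ) (he : 0 < e) :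
    Typ (S := (LA O).sp) (fun k (w : (O.X k).l.T.Ω × (O.X k).l.T.Ω) => ∀ u : Fin (q + 1) → ℝ,
      2 ^ (2 * (c - e) * (S.F k).n) * (u ⬝ᵥ u) ≤ qf (O.g₀ k w.2) (gv u)) :=
  AmA_typ2 O (pk_typ O (Pool.Agent.Helper51.LIP.low_cell fac h1.le hx' e he))

end gen

end

end Pool.Agent.Helper51.LD2
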