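import Pool.Agent.Helper89.LIP.Lab2
import Pool.Agent.Helper40.NSK.Gdi

/-! The version of `Hf_of_dir` for the direction `i`. -/

set_option autoImplicit false

namespace Pool.Agent.Helper51.S34

open Finset Filter Topology Matrix Pool.Agent.Helper69.RK Pool.Agent.Helper31.EC Pool.Agent.Helper31.EC.Sp
open Pool.Agent.Helper40.EL Pool.Agent.Helper3.LF Pool.Agent.Helper89.LX Pool.Agent.Helper40.NSK
open Pool.Agent.Helper48.NS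
open Pool.Agent.Helper95.LF (PdM)

noncomputable section

variable {S : Sp} {m : ℕ}

/-- the derivative in the direction `i` -/
theorem Jf_single {A : Matrix (Mon (m + 1) 1) (Mon (m + 1) 1) ℝ} (hA : Psd A) (r : ℝ) (p : Fin (m + 1) → ℝ)
    (i : Fin m) : qf A (dd i.succ p) ≤ (Pi.single i (1 : ℝ) : Fin m → ℝ) ⬝ᵥ (Jf r A p *ᵥ Pi.single i 1) := by
  rw [single_dotProduct, Matrix.mulVec_single_one, one_mul]
  show _ ≤ Jf r A p i i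
  rw [Jf_apply]
  have h1 : qf A (dd i.succ p) = dd i.succ (nodp 1 p r fun _ => 0) ⬝ᵥ (A *ᵥ dd i.succ (nodp 1 p r fun _ => 0)) := by
    unfold qf
    rw [Pool.Agent.Helper39.LIP.dd_one i.succ p (nodp 1 p r fun _ => 0)]
  rw [h1]
  exact Finset.single_le_sum (f := fun j : Fin (m + 1) → Fin (1 + 1) =>
    dd i.succ (nodp 1 p r j) ⬝ᵥ (A *ᵥ dd i.succ (nodp 1 p r j))) (fun j _ => hA.2 _) (Finset.mem_univ (fun _ => 0))

/-- `H_1` in the direction `i` on the restricted system -/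
theorem HfE_of_dir {s : Sys S m} {c₀ σ : ℝ} {T : Sp} (P : Pj T S) (E : ∀ k, (T.F k).Ω → Prop) (hE : 0 < ul (T.pr E))
    {y : ∀ k, FD ((Sp.im P E).F k) (Mon (m + 1) 1)}
    (hy : ((gau s 1).im P E).Ad ((cA s c₀).im P E) ((cB s).im P E) y) (i : Fin m)
    (hlow : ∀ e' : ℝ, 0 < e' → Tendsto (fun k => (y k).l.T.pb (fun ω =>
      ¬ 2 ^ ((2 * σ - e') * (S.F k).n) ≤ qf ((y k).g ω) (dd i.succ (ptf s k ((y k).l.p.π ω))))) UF (𝓝 0)) :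
    HfE (s.im P E hE) 1 (Pi.single i 1) c₀ σ := by
  refine ⟨y, hy, fun e he => ?_⟩
  have h1 := hlow (2 * e) (by linarith)
  have hc : ∀ᶠ k in UF, ∀ ω, (y k).l.T.μ ω ≠ 0 → Cpd ((gau s 1).cp k) ((y k).g ω) := by
    filter_upwards [hy 1 one_pos] with k hk ω hω using (hk.2.2.1 ω hω).1
  refine tendsto_of_tendsto_of_tendsto_of_le_of_le' tendsto_const_nhds h1
    (Eventually.of_forall fun k => FSp.pb_nonneg _ _) ?_
  filter_upwards [hc] with k hk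
  apply FSp.pb_mono
  intro ω hω h2 h3
  apply h2
  have h4 := Jf_single (hk ω hω).psd (S.dl 1 k) (ptf s k ((y k).l.p.π ω)) i
  refine le_trans ?_ h4
  refine le_trans (le_of_eq ?_) h3
  congr 1
  show 2 * (σ - e) * (S.F k).n = (2 * σ - 2 * e) * (S.F k).n
  ring

/-- LAB FOR ROBUST SYSTEMS in the direction `i` -/
theorem lab_robE (m : ℕ) : ∃ Cc : ℝ, 0 ≤ Cc ∧ ∀ {S : Sp} (s : Sys S m)
    (_ : Pool.Agent.Helper42.NS.RobustG (fun i : Fin m => GDe m 1 (Pi.single i 1)) s) {c₀ : ℝ}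
    {l : Lab S} (_ : IsKap s c₀ l)
    (LB : ∀ k, Setoid (l k).T.Ω) (_ : ∀ k, LB k ≤ (l k).V) (_ : Nul S (fun k => ((l k).wV (LB k)).leak (cB s k)))
    (DA DB : ∀ k, FAm (l k).T (l k).T) (_ : ∀ k, (DA k).f = (DA k).g)
    (_ : ∀ k, (fc (Setoid.ker (DA k).f) : FL (l k).T) ≤ (l k).v ⊔ (l k).p.map (cA s c₀ k))
    (_ : ∀ k, (fc (Setoid.ker (DB k).f) : FL (l k).T) ≤ fc (LB k) ⊔ (l k).p.map (cB s k))
    (a : ∀ k, (l k).T.Ω → Matrix (Mon (m + 1) 1) (Mon (m + 1) 1) ℝ) (L : ∀ k, (l k).T.Ω → Mon (m + 1) 1 → ℝ)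
    (_ : ∀ᶠ k in UF, ∀ ω, (l k).T.μ ω ≠ 0 → Cpd ((gau s 1).cp k) (a k ω))
    (_ : ∀ η : ℝ, 0 < η → ∀ᶠ k in UF, (l k).T.pb (fun ω =>
      ¬ sph s 1 k ((l k).p.π ω) (a k ω) ≤ 2 ^ (η * (S.F k).n)) ≤ η)
    (i : Fin m) (_ : ∀ᶠ k in UF, ∀ ω, (l k).T.μ ω ≠ 0 → L k ω ⬝ᵥ dd i.succ 0 = 1) (τ : ℝ)
    (_ : ∀ η : ℝ, 0 < η → ∀ᶠ k in UF, (l k).T.pb (fun ω =>
      ¬ sph s 1 k ((l k).p.π ω) (Matrix.vecMulVec (L k ω) (L k ω)) ≤ 2 ^ ((η - 2 * τ) * (S.F k).n)) ≤ η)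
    (e : ℝ) (_ : 0 < e) {p q : ℝ} (_ : 1 < p + q)
    (_ : ∀ᶠ k in UF, p ≤ (DA k).sp.pb (fun w => AgV (S.F k).n e τ (a k w.1) (a k w.2) (L k w.1) (L k w.2)))
    (_ : ∀ᶠ k in UF, q ≤ (DB k).sp.pb (fun w => AgV (S.F k).n e τ (a k w.1) (a k w.2) (L k w.1) (L k w.2))),
    HfE s 1 (Pi.single i 1) c₀ (τ - Cc * e) := by
  obtain ⟨Cc, hCc, h⟩ := lab_sys m
  refine ⟨Cc / 2, by positivity, ?_⟩
  intro S s hR c₀ l hl LB hLB hLl DA DB hD hYA hYB a L ha haφ i hL τ hLφ e he p q hpq hp hq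
  obtain ⟨p0, E, hp0, hE, y, hy, hlow⟩ :=
    h s hl LB hLB hLl DA DB hD hYA hYB a L ha haφ i.succ hL τ hLφ e he hpq hp hq
  have hE' : 0 < ul (l.sp.pr E) := lt_of_lt_of_le hp0 hE
  have h1 : HfE (s.im l.pj E hE') 1 (Pi.single i 1) c₀ (τ - Cc / 2 * e) :=
    HfE_of_dir l.pj E hE' hy i (σ := τ - Cc / 2 * e) fun e' he' => by
      refine (hlow e' he').congr fun k => ?_
      congr 1
      funext ω
      congr 2
      ring_nf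
  rw [HfE_iff_HH] at h1 ⊢
  exact (hR.HH_im i l.pj E hE' c₀ _).mp h1

end

end Pool.Agent.Helper51.S34
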