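import Mathlib

/-! LIP_TWO (55c (2.1), (2.3)), real part: two velocities which satisfy two transversal equations are close, in the
metric of a reference form. -/

set_option autoImplicit false

namespace Pool.Agent.Helper51.LIP

open Finset Matrix

noncomputable section

variable {ι : Type*} [Fintype ι]

/-- the quadratic form of a matrix -/
def qf (G : Matrix ι ι ℝ) (v : ι → ℝ) : ℝ := v ⬝ᵥ (G *ᵥ v)

theorem qf_par (G : Matrix ι ι ℝ) (v w : ι → ℝ) : qf G (v - w) + qf G (v + w) = 2 * qf G v + 2 * qf G w := by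
  unfold qf
  simp only [mulVec_sub, mulVec_add, sub_dotProduct, add_dotProduct, dotProduct_sub, dotProduct_add]
  ring

theorem qf_sub_le {G : Matrix ι ι ℝ} (hG : ∀ u, 0 ≤ qf G u) {v w : ι → ℝ} {K : ℝ} (hv : qf G v ≤ K)
    (hw : qf G w ≤ K) : qf G (v - w) ≤ 4 * K := by
  have h1 := qf_par G v w
  have h2 := hG (v + w)
  linarith

/-- (A): one form which dominates the reference form on the differences -/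
theorem two_A {G G0 : Matrix ι ι ℝ} (hG : ∀ u, 0 ≤ qf G u) {U : (ι → ℝ) → Prop} {L K : ℝ}
    (hL : ∀ u, U u → L ^ 2 * qf G0 u ≤ qf G u) {v w : ι → ℝ} (hU : U (v - w)) (hv : qf G v ≤ K) (hw : qf G w ≤ K) :
    L ^ 2 * qf G0 (v - w) ≤ 4 * K := (hL _ hU).trans (qf_sub_le hG hv hw)

/-- a form which dominates a multiple of the square of a functional -/
theorem fun_le {G : Matrix ι ι ℝ} {n : ι → ℝ} {L K : ℝ} (hn : ∀ u, L ^ 2 * (n ⬝ᵥ u) ^ 2 ≤ qf G u) (hL : 0 < L)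
    {v : ι → ℝ} (hv : qf G v ≤ K ^ 2) (hK : 0 ≤ K) : |n ⬝ᵥ v| ≤ K / L := by
  rw [le_div_iff₀ hL]
  have h1 := (hn v).trans hv
  have h2 : (|n ⬝ᵥ v| * L) ^ 2 ≤ K ^ 2 := by
    rw [mul_pow, sq_abs]
    linarith
  exact (abs_le_of_sq_le_sq h2 hK |>.trans' (le_abs_self _))

/-! ### dimension two -/

theorem qf2 (G : Matrix (Fin 2) (Fin 2) ℝ) (v : Fin 2 → ℝ) :
    qf G v = G 0 0 * v 0 ^ 2 + (G 0 1 + G 1 0) * (v 0 * v 1) + G 1 1 * v 1 ^ 2 := by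
  unfold qf mulVec
  simp only [dotProduct, Fin.sum_univ_two]
  ring

/-- (B), dimension two (the base block): `th` bounds the area of the two conormals in the dual metric, and the dual
norms of the conormals are at most one -/
theorem two_B2 {G : Matrix (Fin 2) (Fin 2) ℝ} (hs : G 1 0 = G 0 1) (hp : ∀ u, 0 ≤ qf G u)
    (hd : 0 < G 0 0 * G 1 1 - G 0 1 ^ 2) {n1 n2 : Fin 2 → ℝ} (h1 : ∀ u, (n1 ⬝ᵥ u) ^ 2 ≤ qf G u)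
    (h2 : ∀ u, (n2 ⬝ᵥ u) ^ 2 ≤ qf G u) {th : ℝ}
    (hth : th ^ 2 * (G 0 0 * G 1 1 - G 0 1 ^ 2) ≤ (n1 0 * n2 1 - n1 1 * n2 0) ^ 2) (u : Fin 2 → ℝ) :
    th ^ 2 * qf G u ≤ (|n1 ⬝ᵥ u| + |n2 ⬝ᵥ u|) ^ 2 := by
  obtain ⟨D, hD⟩ : ∃ D, D = G 0 0 * G 1 1 - G 0 1 ^ 2 := ⟨_, rfl⟩
  rw [← hD] at hd hth
  -- dual norm of a functional
  have key : ∀ (n : Fin 2 → ℝ) (c : ℝ), 0 ≤ c → (∀ u, (n ⬝ᵥ u) ^ 2 ≤ c * qf G u) →
      G 1 1 * n 0 ^ 2 - 2 * G 0 1 * (n 0 * n 1) + G 0 0 * n 1 ^ 2 ≤ c * D := by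
    intro n c hc hn
    obtain ⟨N, hN⟩ : ∃ N, N = G 1 1 * n 0 ^ 2 - 2 * G 0 1 * (n 0 * n 1) + G 0 0 * n 1 ^ 2 := ⟨_, rfl⟩
    rw [← hN]
    have e1 := hn ![G 1 1 * n 0 - G 0 1 * n 1, -G 0 1 * n 0 + G 0 0 * n 1]
    have e2 : n ⬝ᵥ ![G 1 1 * n 0 - G 0 1 * n 1, -G 0 1 * n 0 + G 0 0 * n 1] = N := by
      rw [hN]
      simp only [dotProduct, Fin.sum_univ_two, Matrix.cons_val_zero, Matrix.cons_val_one]
      ring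
    have e3 : qf G ![G 1 1 * n 0 - G 0 1 * n 1, -G 0 1 * n 0 + G 0 0 * n 1] = D * N := by
      rw [qf2, hN, hD, hs]
      simp only [Matrix.cons_val_zero, Matrix.cons_val_one]
      ring
    rw [e2, e3] at e1
    by_contra hcon
    push Not at hcon
    have h3 : 0 < N := lt_of_le_of_lt (mul_nonneg hc hd.le) hcon
    nlinarith
  -- the functional `(n2 u) n1 - (n1 u) n2`
  obtain ⟨s1, hs1⟩ : ∃ s1, s1 = n1 ⬝ᵥ u := ⟨_, rfl⟩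
  obtain ⟨s2, hs2⟩ : ∃ s2, s2 = n2 ⬝ᵥ u := ⟨_, rfl⟩
  rw [← hs1, ← hs2]
  have e4 := key (s2 • n1 - s1 • n2) ((|s1| + |s2|) ^ 2) (sq_nonneg _) (by
    intro w
    have f1 : (s2 • n1 - s1 • n2) ⬝ᵥ w = s2 * (n1 ⬝ᵥ w) - s1 * (n2 ⬝ᵥ w) := by
      rw [sub_dotProduct, smul_dotProduct, smul_dotProduct, smul_eq_mul, smul_eq_mul]
    rw [f1]
    have f2 := h1 w
    have f3 := h2 w
    have f4 := hp w
    obtain ⟨r, hr0, hr⟩ : ∃ r, 0 ≤ r ∧ r ^ 2 = qf G w := ⟨Real.sqrt (qf G w), Real.sqrt_nonneg _, Real.sq_sqrt f4⟩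
    rw [← hr] at f2 f3 ⊢
    have f5 := abs_le_of_sq_le_sq f2 hr0
    have f6 := abs_le_of_sq_le_sq f3 hr0
    rw [← mul_pow, ← sq_abs]
    apply pow_le_pow_left₀ (abs_nonneg _)
    refine (abs_sub _ _).trans ?_
    rw [abs_mul, abs_mul]
    have f7 := mul_le_mul_of_nonneg_left f5 (abs_nonneg s2)
    have f8 := mul_le_mul_of_nonneg_left f6 (abs_nonneg s1)
    linarith)
  have e5 : G 1 1 * (s2 • n1 - s1 • n2) 0 ^ 2 - 2 * G 0 1 * ((s2 • n1 - s1 • n2) 0 * (s2 • n1 - s1 • n2) 1) +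
      G 0 0 * (s2 • n1 - s1 • n2) 1 ^ 2 = (n1 0 * n2 1 - n1 1 * n2 0) ^ 2 * qf G u := by
    rw [qf2, hs, hs1, hs2]
    simp only [dotProduct, Fin.sum_univ_two, Pi.sub_apply, Pi.smul_apply, smul_eq_mul]
    ring
  rw [e5] at e4
  have e6 : th ^ 2 * D * qf G u ≤ (|s1| + |s2|) ^ 2 * D := (mul_le_mul_of_nonneg_right hth (hp u)).trans e4
  have e7 : D * (th ^ 2 * qf G u) ≤ D * (|s1| + |s2|) ^ 2 := by linarith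
  exact le_of_mul_le_mul_left e7 hd

/-- (B), dimension two, for two velocities -/
theorem two_B2' {G : Matrix (Fin 2) (Fin 2) ℝ} (hs : G 1 0 = G 0 1) (hp : ∀ u, 0 ≤ qf G u)
    (hd : 0 < G 0 0 * G 1 1 - G 0 1 ^ 2) {n1 n2 : Fin 2 → ℝ} (h1 : ∀ u, (n1 ⬝ᵥ u) ^ 2 ≤ qf G u)
    (h2 : ∀ u, (n2 ⬝ᵥ u) ^ 2 ≤ qf G u) {th a : ℝ}
    (hth : th ^ 2 * (G 0 0 * G 1 1 - G 0 1 ^ 2) ≤ (n1 0 * n2 1 - n1 1 * n2 0) ^ 2) {v w : Fin 2 → ℝ}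
    (k1 : |n1 ⬝ᵥ (v - w)| ≤ 2 * a) (k2 : |n2 ⬝ᵥ (v - w)| ≤ 2 * a) : th ^ 2 * qf G (v - w) ≤ 16 * a ^ 2 := by
  refine (two_B2 hs hp hd h1 h2 hth (v - w)).trans ?_
  have h0 : 0 ≤ |n1 ⬝ᵥ (v - w)| + |n2 ⬝ᵥ (v - w)| := by positivity
  have h3 : (|n1 ⬝ᵥ (v - w)| + |n2 ⬝ᵥ (v - w)|) ^ 2 ≤ (4 * a) ^ 2 := pow_le_pow_left₀ h0 (by linarith) 2
  linarith

/-! ### dimension three -/

theorem qf3 (G : Matrix (Fin 3) (Fin 3) ℝ) (h10 : G 1 0 = G 0 1) (h20 : G 2 0 = G 0 2) (h21 : G 2 1 = G 1 2)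
    (v : Fin 3 → ℝ) : qf G v = G 0 0 * v 0 ^ 2 + G 1 1 * v 1 ^ 2 + G 2 2 * v 2 ^ 2 + 2 * G 0 1 * (v 0 * v 1) +
      2 * G 0 2 * (v 0 * v 2) + 2 * G 1 2 * (v 1 * v 2) := by
  unfold qf mulVec
  simp only [dotProduct, Fin.sum_univ_three]
  rw [h10, h20, h21]
  ring

/-- the determinant of a symmetric matrix -/
def dt3 (G : Matrix (Fin 3) (Fin 3) ℝ) : ℝ := G 0 0 * (G 1 1 * G 2 2 - G 1 2 ^ 2) -
  G 0 1 * (G 0 1 * G 2 2 - G 1 2 * G 0 2) + G 0 2 * (G 0 1 * G 1 2 - G 1 1 * G 0 2)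

/-- the quadratic form of the adjugate -/
def qa3 (G : Matrix (Fin 3) (Fin 3) ℝ) (n : Fin 3 → ℝ) : ℝ :=
  (G 1 1 * G 2 2 - G 1 2 ^ 2) * n 0 ^ 2 + (G 0 0 * G 2 2 - G 0 2 ^ 2) * n 1 ^ 2 +
    (G 0 0 * G 1 1 - G 0 1 ^ 2) * n 2 ^ 2 + 2 * (G 0 2 * G 1 2 - G 0 1 * G 2 2) * (n 0 * n 1) +
    2 * (G 0 1 * G 1 2 - G 0 2 * G 1 1) * (n 0 * n 2) + 2 * (G 0 1 * G 0 2 - G 0 0 * G 1 2) * (n 1 * n 2)

/-- the cross product -/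
def cr3 (a b : Fin 3 → ℝ) : Fin 3 → ℝ :=
  ![a 1 * b 2 - a 2 * b 1, a 2 * b 0 - a 0 * b 2, a 0 * b 1 - a 1 * b 0]

/-- the bilinear form -/
def bf (G : Matrix ι ι ℝ) (v w : ι → ℝ) : ℝ := v ⬝ᵥ (G *ᵥ w)

theorem bf3 (G : Matrix (Fin 3) (Fin 3) ℝ) (h10 : G 1 0 = G 0 1) (h20 : G 2 0 = G 0 2) (h21 : G 2 1 = G 1 2)
    (v w : Fin 3 → ℝ) : bf G v w = G 0 0 * (v 0 * w 0) + G 1 1 * (v 1 * w 1) + G 2 2 * (v 2 * w 2) +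
      G 0 1 * (v 0 * w 1 + v 1 * w 0) + G 0 2 * (v 0 * w 2 + v 2 * w 0) + G 1 2 * (v 1 * w 2 + v 2 * w 1) := by
  unfold bf mulVec
  simp only [dotProduct, Fin.sum_univ_three]
  rw [h10, h20, h21]
  ring

/-- dual norm of a functional -/
theorem qa3_le {G : Matrix (Fin 3) (Fin 3) ℝ} (h10 : G 1 0 = G 0 1) (h20 : G 2 0 = G 0 2) (h21 : G 2 1 = G 1 2)
    (hd : 0 < dt3 G) {n : Fin 3 → ℝ} {c : ℝ} (hc : 0 ≤ c) (hn : ∀ u, (n ⬝ᵥ u) ^ 2 ≤ c * qf G u) :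
    qa3 G n ≤ c * dt3 G := by
  obtain ⟨w, hw⟩ : ∃ w : Fin 3 → ℝ, w = ![(G 1 1 * G 2 2 - G 1 2 ^ 2) * n 0 + (G 0 2 * G 1 2 - G 0 1 * G 2 2) * n 1 +
      (G 0 1 * G 1 2 - G 0 2 * G 1 1) * n 2, (G 0 2 * G 1 2 - G 0 1 * G 2 2) * n 0 +
      (G 0 0 * G 2 2 - G 0 2 ^ 2) * n 1 + (G 0 1 * G 0 2 - G 0 0 * G 1 2) * n 2,
      (G 0 1 * G 1 2 - G 0 2 * G 1 1) * n 0 + (G 0 1 * G 0 2 - G 0 0 * G 1 2) * n 1 +
      (G 0 0 * G 1 1 - G 0 1 ^ 2) * n 2] := ⟨_, rfl⟩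
  have w0 : w 0 = (G 1 1 * G 2 2 - G 1 2 ^ 2) * n 0 + (G 0 2 * G 1 2 - G 0 1 * G 2 2) * n 1 +
      (G 0 1 * G 1 2 - G 0 2 * G 1 1) * n 2 := by rw [hw]; rfl
  have w1 : w 1 = (G 0 2 * G 1 2 - G 0 1 * G 2 2) * n 0 +
      (G 0 0 * G 2 2 - G 0 2 ^ 2) * n 1 + (G 0 1 * G 0 2 - G 0 0 * G 1 2) * n 2 := by rw [hw]; rfl
  have w2 : w 2 = (G 0 1 * G 1 2 - G 0 2 * G 1 1) * n 0 + (G 0 1 * G 0 2 - G 0 0 * G 1 2) * n 1 +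
      (G 0 0 * G 1 1 - G 0 1 ^ 2) * n 2 := by rw [hw]; rfl
  have e1 := hn w
  have e2 : n ⬝ᵥ w = qa3 G n := by
    simp only [dotProduct, Fin.sum_univ_three]
    rw [w0, w1, w2]
    unfold qa3
    ring
  have e3 : qf G w = dt3 G * qa3 G n := by
    rw [qf3 G h10 h20 h21, w0, w1, w2]
    unfold qa3 dt3
    ring
  rw [e2, e3] at e1
  by_contra hcon
  push Not at hcon
  have h3 : 0 < qa3 G n := lt_of_le_of_lt (mul_nonneg hc hd.le) hcon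
  nlinarith

/-- the identity of Lagrange for the metric -/
theorem lag3 (G : Matrix (Fin 3) (Fin 3) ℝ) (h10 : G 1 0 = G 0 1) (h20 : G 2 0 = G 0 2) (h21 : G 2 1 = G 1 2)
    (e u : Fin 3 → ℝ) : qf G e * qf G u - bf G e u ^ 2 = qa3 G (cr3 e u) := by
  rw [qf3 G h10 h20 h21, qf3 G h10 h20 h21, bf3 G h10 h20 h21]
  unfold qa3 cr3
  simp only [Matrix.cons_val_zero, Matrix.cons_val_one, Matrix.cons_val_two, Matrix.head_cons, Matrix.tail_cons,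
    Matrix.cons_val]
  ring

theorem cr3_cr3 (n1 n2 u : Fin 3 → ℝ) : cr3 (cr3 n1 n2) u = (n1 ⬝ᵥ u) • n2 - (n2 ⬝ᵥ u) • n1 := by
  funext i
  fin_cases i
  · show cr3 (cr3 n1 n2) u 0 = (n1 ⬝ᵥ u) * n2 0 - (n2 ⬝ᵥ u) * n1 0
    unfold cr3
    simp only [dotProduct, Fin.sum_univ_three, Matrix.cons_val_zero, Matrix.cons_val_one, Matrix.cons_val]
    ring
  · show cr3 (cr3 n1 n2) u 1 = (n1 ⬝ᵥ u) * n2 1 - (n2 ⬝ᵥ u) * n1 1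
    unfold cr3
    simp only [dotProduct, Fin.sum_univ_three, Matrix.cons_val_zero, Matrix.cons_val_one, Matrix.cons_val]
    ring
  · show cr3 (cr3 n1 n2) u 2 = (n1 ⬝ᵥ u) * n2 2 - (n2 ⬝ᵥ u) * n1 2
    unfold cr3
    simp only [dotProduct, Fin.sum_univ_three, Matrix.cons_val_zero, Matrix.cons_val_one, Matrix.cons_val]
    ring

/-- the part of a vector outside of the common kernel of two functionals -/
theorem ort3 {G : Matrix (Fin 3) (Fin 3) ℝ} (h10 : G 1 0 = G 0 1) (h20 : G 2 0 = G 0 2) (h21 : G 2 1 = G 1 2)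
    (hp : ∀ u, 0 ≤ qf G u) (hd : 0 < dt3 G) {n1 n2 : Fin 3 → ℝ} (h1 : ∀ u, (n1 ⬝ᵥ u) ^ 2 ≤ qf G u)
    (h2 : ∀ u, (n2 ⬝ᵥ u) ^ 2 ≤ qf G u) (u : Fin 3 → ℝ) {a : ℝ} (k1 : |n1 ⬝ᵥ u| ≤ a) (k2 : |n2 ⬝ᵥ u| ≤ a) :
    qf G (cr3 n1 n2) * qf G u - bf G (cr3 n1 n2) u ^ 2 ≤ (2 * a) ^ 2 * dt3 G := by
  have ha : 0 ≤ a := (abs_nonneg _).trans k1
  rw [lag3 G h10 h20 h21, cr3_cr3]
  apply qa3_le h10 h20 h21 hd (sq_nonneg _)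
  intro w
  have f1 : ((n1 ⬝ᵥ u) • n2 - (n2 ⬝ᵥ u) • n1) ⬝ᵥ w = (n1 ⬝ᵥ u) * (n2 ⬝ᵥ w) - (n2 ⬝ᵥ u) * (n1 ⬝ᵥ w) := by
    rw [sub_dotProduct, smul_dotProduct, smul_dotProduct, smul_eq_mul, smul_eq_mul]
  rw [f1]
  have f2 := h1 w
  have f3 := h2 w
  obtain ⟨r, hr0, hr⟩ : ∃ r, 0 ≤ r ∧ r ^ 2 = qf G w := ⟨Real.sqrt (qf G w), Real.sqrt_nonneg _, Real.sq_sqrt (hp w)⟩
  rw [← hr] at f2 f3 ⊢
  have f5 := abs_le_of_sq_le_sq f2 hr0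
  have f6 := abs_le_of_sq_le_sq f3 hr0
  rw [← mul_pow, ← sq_abs]
  apply pow_le_pow_left₀ (abs_nonneg _)
  refine (abs_sub _ _).trans ?_
  rw [abs_mul, abs_mul]
  have f7 := mul_le_mul k1 f6 (abs_nonneg _) ha
  have f8 := mul_le_mul k2 f5 (abs_nonneg _) ha
  linarith

theorem qf_lin (G : Matrix ι ι ℝ) (hs : ∀ v w, bf G v w = bf G w v) (a b : ℝ) (v w : ι → ℝ) :
    qf G (a • v - b • w) = a ^ 2 * qf G v - 2 * (a * b) * bf G v w + b ^ 2 * qf G w := by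
  have h1 := hs w v
  unfold qf bf at *
  simp only [mulVec_sub, mulVec_smul, sub_dotProduct, dotProduct_sub, smul_dotProduct, dotProduct_smul,
    smul_eq_mul]
  rw [h1]
  ring

/-- (B), full space of velocities in dimension three: two velocities with the same value `1` of the functional `t`
which satisfy two transversal equations up to `ρ` are close -/
theorem two_B3 {G : Matrix (Fin 3) (Fin 3) ℝ} (h10 : G 1 0 = G 0 1) (h20 : G 2 0 = G 0 2) (h21 : G 2 1 = G 1 2)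
    (hp : ∀ u, 0 ≤ qf G u) (hd : 0 < dt3 G) {n1 n2 t : Fin 3 → ℝ} (h1 : ∀ u, (n1 ⬝ᵥ u) ^ 2 ≤ qf G u)
    (h2 : ∀ u, (n2 ⬝ᵥ u) ^ 2 ≤ qf G u) {th κ K ρ : ℝ} (hth0 : 0 < th)
    (hth : th ^ 2 * dt3 G ≤ qf G (cr3 n1 n2)) (ht : ∀ u, (t ⬝ᵥ u) ^ 2 ≤ κ ^ 2 * qf G u)
    {v w : Fin 3 → ℝ} (hv : t ⬝ᵥ v = 1) (hw : t ⬝ᵥ w = 1) (hvK : qf G v ≤ K ^ 2)
    (hv1 : |n1 ⬝ᵥ v| ≤ ρ) (hv2 : |n2 ⬝ᵥ v| ≤ ρ) (hw1 : |n1 ⬝ᵥ w| ≤ ρ) (hw2 : |n2 ⬝ᵥ w| ≤ ρ)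
    (hρ : 16 * κ ^ 2 * ρ ^ 2 ≤ th ^ 2) : th ^ 2 * qf G (v - w) ≤ 80 * (K ^ 2 * κ ^ 2 * ρ ^ 2) := by
  obtain ⟨e, he⟩ : ∃ e, e = cr3 n1 n2 := ⟨_, rfl⟩
  obtain ⟨ε, hε⟩ : ∃ ε, ε = qf G e := ⟨_, rfl⟩
  obtain ⟨D, hD⟩ : ∃ D, D = dt3 G := ⟨_, rfl⟩
  have hsym : ∀ a b, bf G a b = bf G b a := by
    intro a b
    rw [bf3 G h10 h20 h21, bf3 G h10 h20 h21]
    ring
  have hR : ∀ (u : Fin 3 → ℝ) (a : ℝ), |n1 ⬝ᵥ u| ≤ a → |n2 ⬝ᵥ u| ≤ a →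
      ε * qf G u - bf G e u ^ 2 ≤ (2 * a) ^ 2 * D := by
    intro u a k1 k2
    rw [hε, he, hD]
    exact ort3 h10 h20 h21 hp hd h1 h2 u k1 k2
  rw [← he, ← hε, ← hD] at hth
  rw [← hD] at hd
  have hth2 : 0 < th ^ 2 := by positivity
  have hε0 : 0 < ε := lt_of_lt_of_le (mul_pos hth2 hd) hth
  have hρ0 : 0 ≤ ρ := (abs_nonneg _).trans hv1
  -- the functional `t` and the part outside of the kernel
  have hT : ∀ (u : Fin 3 → ℝ) (a : ℝ), |n1 ⬝ᵥ u| ≤ a → |n2 ⬝ᵥ u| ≤ a →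
      (ε * (t ⬝ᵥ u) - bf G e u * (t ⬝ᵥ e)) ^ 2 * th ^ 2 ≤ κ ^ 2 * ((2 * a) ^ 2 * ε ^ 2) := by
    intro u a k1 k2
    have e1 := ht (ε • u - bf G e u • e)
    rw [qf_lin G hsym, dotProduct_sub, dotProduct_smul, dotProduct_smul, smul_eq_mul, smul_eq_mul, ← hε] at e1
    have e2 : ε ^ 2 * qf G u - 2 * (ε * bf G e u) * bf G u e + bf G e u ^ 2 * ε =
        ε * (ε * qf G u - bf G e u ^ 2) := by
      rw [hsym u e]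
      ring
    rw [e2] at e1
    have e3 := hR u a k1 k2
    have e4 : κ ^ 2 * (ε * (ε * qf G u - bf G e u ^ 2)) ≤ κ ^ 2 * (ε * ((2 * a) ^ 2 * D)) :=
      mul_le_mul_of_nonneg_left (mul_le_mul_of_nonneg_left e3 hε0.le) (sq_nonneg _)
    have e5 := mul_le_mul_of_nonneg_right (e1.trans e4) hth2.le
    refine e5.trans ?_
    have e6 : κ ^ 2 * (ε * ((2 * a) ^ 2 * D)) * th ^ 2 = κ ^ 2 * (ε * (2 * a) ^ 2) * (th ^ 2 * D) := by ring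
    rw [e6]
    have e7 : κ ^ 2 * (ε * (2 * a) ^ 2) * (th ^ 2 * D) ≤ κ ^ 2 * (ε * (2 * a) ^ 2) * ε :=
      mul_le_mul_of_nonneg_left hth (by positivity)
    refine e7.trans (le_of_eq ?_)
    ring
  obtain ⟨τ, hτ⟩ : ∃ τ, τ = t ⬝ᵥ e := ⟨_, rfl⟩
  have hT' := hT
  rw [← hτ] at hT'
  -- lower bound for `τ`
  have b1 := hT' v ρ hv1 hv2
  rw [hv, mul_one] at b1
  have b2 : (ε - bf G e v * τ) ^ 2 ≤ (ε / 2) ^ 2 := by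
    have b3 : (ε - bf G e v * τ) ^ 2 * th ^ 2 ≤ (ε / 2) ^ 2 * th ^ 2 := by
      refine b1.trans ?_
      have : κ ^ 2 * ((2 * ρ) ^ 2 * ε ^ 2) = (16 * κ ^ 2 * ρ ^ 2) * (ε / 2) ^ 2 := by ring
      rw [this, mul_comm ((ε / 2) ^ 2)]
      exact mul_le_mul_of_nonneg_right hρ (sq_nonneg _)
    exact le_of_mul_le_mul_right b3 hth2
  have b4 : ε / 2 ≤ bf G e v * τ := by
    have := abs_le_of_sq_le_sq b2 (by linarith)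
    rw [abs_le] at this
    linarith [this.2]
  have b5 : (ε / 2) ^ 2 ≤ bf G e v ^ 2 * τ ^ 2 := by
    rw [← mul_pow]
    exact pow_le_pow_left₀ (by linarith) b4 2
  have b6 : bf G e v ^ 2 ≤ ε * K ^ 2 := by
    have c1 : 0 ≤ ε * qf G v - bf G e v ^ 2 := by
      have c2 := hp (ε • v - bf G e v • e)
      rw [qf_lin G hsym, ← hε, hsym v e] at c2
      have c3 : ε ^ 2 * qf G v - 2 * (ε * bf G e v) * bf G e v + bf G e v ^ 2 * ε =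
          ε * (ε * qf G v - bf G e v ^ 2) := by ring
      rw [c3] at c2
      exact nonneg_of_mul_nonneg_right c2 hε0
    have c4 := mul_le_mul_of_nonneg_left hvK hε0.le
    linarith
  have b7 : ε ≤ 4 * (K ^ 2 * τ ^ 2) := by
    have c1 : (ε / 2) ^ 2 ≤ ε * K ^ 2 * τ ^ 2 := b5.trans (mul_le_mul_of_nonneg_right b6 (sq_nonneg _))
    have c2 : ε * ε ≤ ε * (4 * (K ^ 2 * τ ^ 2)) := by nlinarith
    exact le_of_mul_le_mul_left c2 hε0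
  -- the difference
  obtain ⟨u, hu⟩ : ∃ u, u = v - w := ⟨_, rfl⟩
  rw [← hu]
  have u1 : |n1 ⬝ᵥ u| ≤ 2 * ρ := by
    rw [hu, dotProduct_sub]
    refine (abs_sub _ _).trans ?_
    linarith
  have u2 : |n2 ⬝ᵥ u| ≤ 2 * ρ := by
    rw [hu, dotProduct_sub]
    refine (abs_sub _ _).trans ?_
    linarith
  have u3 : t ⬝ᵥ u = 0 := by
    rw [hu, dotProduct_sub, hv, hw, sub_self]
  have d1 := hT' u (2 * ρ) u1 u2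
  rw [u3, mul_zero, zero_sub, neg_sq, mul_pow] at d1
  have d2 : bf G e u ^ 2 * th ^ 2 ≤ 64 * (K ^ 2 * κ ^ 2 * ρ ^ 2) * ε := by
    have c1 : bf G e u ^ 2 * th ^ 2 * ε ≤ bf G e u ^ 2 * th ^ 2 * (4 * (K ^ 2 * τ ^ 2)) :=
      mul_le_mul_of_nonneg_left b7 (by positivity)
    have c2 : bf G e u ^ 2 * th ^ 2 * (4 * (K ^ 2 * τ ^ 2)) = 4 * K ^ 2 * (bf G e u ^ 2 * τ ^ 2 * th ^ 2) := by ring
    have c3 := mul_le_mul_of_nonneg_left d1 (show 0 ≤ 4 * K ^ 2 by positivity)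
    have c4 : 4 * K ^ 2 * (κ ^ 2 * ((2 * (2 * ρ)) ^ 2 * ε ^ 2)) = 64 * (K ^ 2 * κ ^ 2 * ρ ^ 2) * ε * ε := by ring
    have c5 : bf G e u ^ 2 * th ^ 2 * ε ≤ 64 * (K ^ 2 * κ ^ 2 * ρ ^ 2) * ε * ε := by
      rw [← c4]
      exact c1.trans (c2.le.trans c3)
    exact le_of_mul_le_mul_right c5 hε0
  have d3 := hR u (2 * ρ) u1 u2
  have d4 : 1 ≤ κ ^ 2 * K ^ 2 := by
    have c1 := ht v
    rw [hv] at c1
    have c2 := mul_le_mul_of_nonneg_left hvK (sq_nonneg κ)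
    linarith
  have d5 : ε * (th ^ 2 * qf G u) ≤ ε * (80 * (K ^ 2 * κ ^ 2 * ρ ^ 2)) := by
    have c1 : ε * (th ^ 2 * qf G u) = th ^ 2 * (ε * qf G u - bf G e u ^ 2) + bf G e u ^ 2 * th ^ 2 := by ring
    have c2 := mul_le_mul_of_nonneg_left d3 hth2.le
    have c3 : th ^ 2 * ((2 * (2 * ρ)) ^ 2 * D) = 16 * ρ ^ 2 * (th ^ 2 * D) := by ring
    have c4 : 16 * ρ ^ 2 * (th ^ 2 * D) ≤ 16 * ρ ^ 2 * ε := mul_le_mul_of_nonneg_left hth (by positivity)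
    have c5 : 16 * ρ ^ 2 * ε ≤ 16 * (K ^ 2 * κ ^ 2 * ρ ^ 2) * ε := by
      have c6 : 0 ≤ 16 * ρ ^ 2 * ε := by positivity
      nlinarith
    rw [c1]
    linarith
  exact le_of_mul_le_mul_left d5 hε0

end

end Pool.Agent.Helper51.LIP
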