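import Pool.Agent.Helper39.LIP.St
import Pool.Agent.Helper51.LIP.Two

/-! Two conormals of dual norm one which are not close up to sign: a horizontal vector on which both are small is
small (two horizontal dimensions). -/

set_option autoImplicit false

namespace Pool.Agent.Helper51.LD2

open Finset Matrix Pool.Agent.Helper3.LF Pool.Agent.Helper89.LX Pool.Agent.Helper39.LIP
open Pool.Agent.Helper95.LF (PdM)

noncomputable section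

/-! ### algebra in dimension two -/

/-- `N(m)`: the dual norm times the determinant -/
def dN (p q r : ℝ) (m : Fin 2 → ℝ) : ℝ := r * m 0 ^ 2 - 2 * q * (m 0 * m 1) + p * m 1 ^ 2

theorem dN_cs (p q r : ℝ) (m u : Fin 2 → ℝ) :
    (m 0 * u 0 + m 1 * u 1) ^ 2 * (p * r - q ^ 2) ≤ dN p q r m * (p * u 0 ^ 2 + 2 * q * (u 0 * u 1) + r * u 1 ^ 2) := by
  have h1 : dN p q r m * (p * u 0 ^ 2 + 2 * q * (u 0 * u 1) + r * u 1 ^ 2) -
      (m 0 * u 0 + m 1 * u 1) ^ 2 * (p * r - q ^ 2) =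
      ((r * m 0 - q * m 1) * u 1 - (p * m 1 - q * m 0) * u 0) ^ 2 := by
    unfold dN
    ring
  have h2 := sq_nonneg ((r * m 0 - q * m 1) * u 1 - (p * m 1 - q * m 0) * u 0)
  linarith

/-- the dual norm of a functional bounded by the form -/
theorem dN_le (p q r : ℝ) (hD : 0 < p * r - q ^ 2) (m : Fin 2 → ℝ)
    (h : ∀ u : Fin 2 → ℝ, (m 0 * u 0 + m 1 * u 1) ^ 2 ≤ p * u 0 ^ 2 + 2 * q * (u 0 * u 1) + r * u 1 ^ 2) :
    dN p q r m ≤ p * r - q ^ 2 := by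
  have h1 := h ![r * m 0 - q * m 1, p * m 1 - q * m 0]
  simp only [Matrix.cons_val_zero, Matrix.cons_val_one] at h1
  have e1 : m 0 * (r * m 0 - q * m 1) + m 1 * (p * m 1 - q * m 0) = dN p q r m := by
    unfold dN
    ring
  have e2 : p * (r * m 0 - q * m 1) ^ 2 + 2 * q * ((r * m 0 - q * m 1) * (p * m 1 - q * m 0)) +
      r * (p * m 1 - q * m 0) ^ 2 = (p * r - q ^ 2) * dN p q r m := by
    unfold dN
    ring
  rw [e1, e2] at h1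
  by_contra hc
  push Not at hc
  nlinarith

/-- the area of two unit covectors which are not close up to sign -/
theorem area2 (p q r : ℝ) (hD : 0 < p * r - q ^ 2) (m1 m2 : Fin 2 → ℝ)
    (d1 : ∀ u : Fin 2 → ℝ, (m1 0 * u 0 + m1 1 * u 1) ^ 2 ≤ p * u 0 ^ 2 + 2 * q * (u 0 * u 1) + r * u 1 ^ 2)
    (d2 : ∀ u : Fin 2 → ℝ, (m2 0 * u 0 + m2 1 * u 1) ^ 2 ≤ p * u 0 ^ 2 + 2 * q * (u 0 * u 1) + r * u 1 ^ 2)
    (e1 : ∃ u : Fin 2 → ℝ, p * u 0 ^ 2 + 2 * q * (u 0 * u 1) + r * u 1 ^ 2 = 1 ∧ m1 0 * u 0 + m1 1 * u 1 = 1)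
    (e2 : ∃ u : Fin 2 → ℝ, p * u 0 ^ 2 + 2 * q * (u 0 * u 1) + r * u 1 ^ 2 = 1 ∧ m2 0 * u 0 + m2 1 * u 1 = 1)
    {τ : ℝ} (hτ0 : 0 < τ) (hτ : τ ≤ 1)
    (hm : ∀ ε : ℝ, ε = 1 ∨ ε = -1 → ∃ u : Fin 2 → ℝ, τ ^ 2 * (p * u 0 ^ 2 + 2 * q * (u 0 * u 1) + r * u 1 ^ 2) <
      ((m1 0 - ε * m2 0) * u 0 + (m1 1 - ε * m2 1) * u 1) ^ 2) :
    (τ / 2) ^ 2 * (p * r - q ^ 2) ≤ (m1 0 * m2 1 - m1 1 * m2 0) ^ 2 := by
  obtain ⟨D, hDd⟩ : ∃ D, D = p * r - q ^ 2 := ⟨_, rfl⟩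
  rw [← hDd] at hD ⊢
  have N1 : dN p q r m1 = D := by
    apply le_antisymm
    · rw [hDd]
      exact dN_le p q r (by rw [← hDd]; exact hD) m1 d1
    · obtain ⟨u, a, b⟩ := e1
      have := dN_cs p q r m1 u
      rw [a, b, ← hDd] at this
      linarith
  have N2 : dN p q r m2 = D := by
    apply le_antisymm
    · rw [hDd]
      exact dN_le p q r (by rw [← hDd]; exact hD) m2 d2
    · obtain ⟨u, a, b⟩ := e2
      have := dN_cs p q r m2 u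
      rw [a, b, ← hDd] at this
      linarith
  have hfar : ∀ ε : ℝ, ε = 1 ∨ ε = -1 → τ ^ 2 * D < dN p q r (fun i => m1 i - ε * m2 i) := by
    intro ε hε
    obtain ⟨u, hu⟩ := hm ε hε
    have h1 := dN_cs p q r (fun i => m1 i - ε * m2 i) u
    beta_reduce at h1
    obtain ⟨Q, hQ⟩ : ∃ Q, Q = p * u 0 ^ 2 + 2 * q * (u 0 * u 1) + r * u 1 ^ 2 := ⟨_, rfl⟩
    rw [← hQ] at h1 hu
    rw [← hDd] at h1
    have hQ0 : 0 ≤ Q := by
      have := d1 u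
      rw [← hQ] at this
      exact (sq_nonneg _).trans this
    have h2 : τ ^ 2 * Q * D < dN p q r (fun i => m1 i - ε * m2 i) * Q := by
      refine lt_of_lt_of_le ?_ h1
      exact mul_lt_mul_of_pos_right hu hD
    have hQ1 : 0 < Q := by
      rcases hQ0.eq_or_lt with h | h
      · exfalso
        rw [← h] at h2
        simp at h2
      · exact h
    by_contra hc
    push Not at hc
    have h3 := mul_le_mul_of_nonneg_right hc hQ0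
    nlinarith
  obtain ⟨B, hB⟩ : ∃ B, B = r * (m1 0 * m2 0) - q * (m1 0 * m2 1 + m1 1 * m2 0) + p * (m1 1 * m2 1) := ⟨_, rfl⟩
  have f1 := hfar 1 (Or.inl rfl)
  have f2 := hfar (-1) (Or.inr rfl)
  have g1 : dN p q r (fun i => m1 i - 1 * m2 i) = 2 * D - 2 * B := by
    have : dN p q r (fun i => m1 i - 1 * m2 i) = dN p q r m1 + dN p q r m2 - 2 * B := by
      rw [hB]
      unfold dN
      ring
    rw [this, N1, N2]
    ring
  have g2 : dN p q r (fun i => m1 i - -1 * m2 i) = 2 * D + 2 * B := by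
    have : dN p q r (fun i => m1 i - -1 * m2 i) = dN p q r m1 + dN p q r m2 + 2 * B := by
      rw [hB]
      unfold dN
      ring
    rw [this, N1, N2]
    ring
  rw [g1] at f1
  rw [g2] at f2
  have key : dN p q r m1 * dN p q r m2 - B ^ 2 = D * (m1 0 * m2 1 - m1 1 * m2 0) ^ 2 := by
    rw [hB, hDd]
    unfold dN
    ring
  rw [N1, N2] at key
  -- |B| < D (1 - τ^2 / 2)
  have hB2 : B ^ 2 ≤ (D * (1 - τ ^ 2 / 2)) ^ 2 := by
    apply sq_le_sq'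
    · nlinarith
    · nlinarith
  have hτ2 : τ ^ 2 ≤ 1 := pow_le_one₀ hτ0.le hτ
  have h5 : D * ((τ / 2) ^ 2 * D) ≤ D * (m1 0 * m2 1 - m1 1 * m2 0) ^ 2 := by
    rw [← key]
    have e : D * D - (D * (1 - τ ^ 2 / 2)) ^ 2 = D ^ 2 * (τ ^ 2 * (1 - τ ^ 2 / 4)) := by ring
    have h6 : D * ((τ / 2) ^ 2 * D) ≤ D ^ 2 * (τ ^ 2 * (1 - τ ^ 2 / 4)) := by
      have h7 : (τ / 2) ^ 2 ≤ τ ^ 2 * (1 - τ ^ 2 / 4) := by nlinarith [sq_nonneg τ]
      calc D * ((τ / 2) ^ 2 * D) = D ^ 2 * (τ / 2) ^ 2 := by ring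
        _ ≤ _ := mul_le_mul_of_nonneg_left h7 (sq_nonneg D)
    linarith
  exact le_of_mul_le_mul_left h5 hD

/-! ### conormals -/

theorem gM_add {q : ℕ} (u v : Fin q → ℝ) : (gM (u + v) : Mon (q + 1) 1 → ℝ) = gM u + gM v := by
  unfold gM
  rw [← gv_add]
  congr 1
  funext i
  refine Fin.cases ?_ (fun i => ?_) i
  · simp
  · simp

theorem gM_two (u : Fin 2 → ℝ) : (gM u : Mon 3 1 → ℝ) = u 0 • gM ![1, 0] + u 1 • gM ![0, 1] := by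
  rw [← gM_smul, ← gM_smul, ← gM_add]
  congr 1
  funext i
  fin_cases i
  · simp
  · simp

theorem qf_two {A : Matrix (Mon 3 1) (Mon 3 1) ℝ} (hA : A.IsSymm) (u : Fin 2 → ℝ) :
    qf A (gM u) = qf A (gM ![1, 0]) * u 0 ^ 2 + 2 * (gM ![1, 0] ⬝ᵥ (A *ᵥ gM ![0, 1])) * (u 0 * u 1) +
      qf A (gM ![0, 1]) * u 1 ^ 2 := by
  have hxy : (gM ![0, 1] : Mon 3 1 → ℝ) ⬝ᵥ (A *ᵥ gM ![1, 0]) = gM ![1, 0] ⬝ᵥ (A *ᵥ gM ![0, 1]) := by
    rw [dotProduct_mulVec, ← Matrix.mulVec_transpose, hA.eq, dotProduct_comm]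
  rw [gM_two u]
  unfold qf
  rw [Matrix.mulVec_add, Matrix.mulVec_smul, Matrix.mulVec_smul, add_dotProduct, dotProduct_add, dotProduct_add,
    smul_dotProduct, smul_dotProduct, smul_dotProduct, smul_dotProduct, dotProduct_smul, dotProduct_smul,
    dotProduct_smul, dotProduct_smul, hxy]
  simp only [smul_eq_mul]
  ring

/-- TWO TRANSVERSAL CONORMALS -/
theorem plan {A : Matrix (Mon 3 1) (Mon 3 1) ℝ} (hA : PdM A) {n1 n2 : Mon 3 1 → ℝ}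
    (d1 : ∀ u : Fin 2 → ℝ, (n1 ⬝ᵥ gM u) ^ 2 ≤ qf A (gM u)) (d2 : ∀ u : Fin 2 → ℝ, (n2 ⬝ᵥ gM u) ^ 2 ≤ qf A (gM u))
    (e1 : ∃ u : Fin 2 → ℝ, qf A (gM u) = 1 ∧ n1 ⬝ᵥ gM u = 1) (e2 : ∃ u : Fin 2 → ℝ, qf A (gM u) = 1 ∧ n2 ⬝ᵥ gM u = 1)
    {τ : ℝ} (hτ0 : 0 < τ) (hτ : τ ≤ 1) (hn : ¬ CloM A τ n1 n2) (u : Fin 2 → ℝ) {a : ℝ} (k1 : |n1 ⬝ᵥ gM u| ≤ a)
    (k2 : |n2 ⬝ᵥ gM u| ≤ a) : τ ^ 2 * qf A (gM u) ≤ 16 * a ^ 2 := by
  obtain ⟨p, hp⟩ : ∃ p, p = qf A (gM ![1, 0]) := ⟨_, rfl⟩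
  obtain ⟨q, hq⟩ : ∃ q, q = gM ![1, 0] ⬝ᵥ (A *ᵥ gM ![0, 1]) := ⟨_, rfl⟩
  obtain ⟨r, hr⟩ : ∃ r, r = qf A (gM ![0, 1]) := ⟨_, rfl⟩
  have hQ : ∀ u : Fin 2 → ℝ, qf A (gM u) = p * u 0 ^ 2 + 2 * q * (u 0 * u 1) + r * u 1 ^ 2 := by
    intro u
    rw [hp, hq, hr]
    exact qf_two hA.1 u
  have hlin : ∀ (n : Mon 3 1 → ℝ) (u : Fin 2 → ℝ), n ⬝ᵥ gM u = (n ⬝ᵥ gM ![1, 0]) * u 0 + (n ⬝ᵥ gM ![0, 1]) * u 1 := by
    intro n u
    rw [gM_two u, dotProduct_add, dotProduct_smul, dotProduct_smul, smul_eq_mul, smul_eq_mul]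
    ring
  have hpos : ∀ u : Fin 2 → ℝ, u ≠ 0 → 0 < qf A (gM u) := fun u hu => hA.2 _ (gM_ne hu)
  have hp0 : 0 < p := by
    rw [hp]
    apply hpos
    intro h
    have := congrFun h 0
    simp at this
  have hD : 0 < p * r - q ^ 2 := by
    have h1 := hpos ![-q, p] (by
      intro h
      have h9 : (![-q, p] : Fin 2 → ℝ) 1 = 0 := by
        rw [h]
        rfl
      have h10 : (![-q, p] : Fin 2 → ℝ) 1 = p := rfl
      rw [h10] at h9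
      linarith)
    rw [hQ] at h1
    simp only [Matrix.cons_val_zero, Matrix.cons_val_one] at h1
    have e : p * (-q) ^ 2 + 2 * q * (-q * p) + r * p ^ 2 = p * (p * r - q ^ 2) := by ring
    rw [e] at h1
    exact pos_of_mul_pos_right h1 hp0.le
  set m1 : Fin 2 → ℝ := ![n1 ⬝ᵥ gM ![1, 0], n1 ⬝ᵥ gM ![0, 1]] with hm1
  set m2 : Fin 2 → ℝ := ![n2 ⬝ᵥ gM ![1, 0], n2 ⬝ᵥ gM ![0, 1]] with hm2
  have l1 : ∀ u, n1 ⬝ᵥ gM u = m1 0 * u 0 + m1 1 * u 1 := fun u => hlin n1 u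
  have l2 : ∀ u, n2 ⬝ᵥ gM u = m2 0 * u 0 + m2 1 * u 1 := fun u => hlin n2 u
  have harea := area2 p q r hD m1 m2 (fun u => by rw [← hQ, ← l1]; exact d1 u)
    (fun u => by rw [← hQ, ← l2]; exact d2 u) (by
      obtain ⟨u, a, b⟩ := e1
      exact ⟨u, by rw [← hQ]; exact a, by rw [← l1]; exact b⟩) (by
      obtain ⟨u, a, b⟩ := e2
      exact ⟨u, by rw [← hQ]; exact a, by rw [← l2]; exact b⟩) hτ0 hτ (by
      intro ε hε
      by_contra hc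
      push Not at hc
      apply hn
      refine ⟨ε, hε, fun u => ?_⟩
      have h1 := hc u
      rw [← hQ] at h1
      refine le_trans (le_of_eq ?_) h1
      rw [sub_dotProduct, smul_dotProduct, smul_eq_mul, l1, l2]
      ring)
  -- dimension two
  set G : Matrix (Fin 2) (Fin 2) ℝ := !![p, q; q, r] with hG
  have hGq : ∀ u : Fin 2 → ℝ, qf G u = qf A (gM u) := by
    intro u
    rw [hQ]
    show u ⬝ᵥ (G *ᵥ u) = _
    rw [hG]
    simp only [Matrix.mulVec, dotProduct, Fin.sum_univ_two, Matrix.of_apply, Matrix.cons_val_zero,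
      Matrix.cons_val_one, Matrix.cons_val', Matrix.empty_val', Matrix.cons_val_fin_one]
    ring
  have hA0 : ∀ v, 0 ≤ qf A v := fun v => hA.nonneg v
  have h5 := Pool.Agent.Helper51.LIP.two_B2 (G := G) (n1 := m1) (n2 := m2) (th := τ / 2) rfl (fun u => by
      show 0 ≤ qf G u
      rw [hGq]
      exact hA0 _) (by
      show 0 < p * r - q ^ 2
      exact hD) (fun u => by
      show (m1 ⬝ᵥ u) ^ 2 ≤ qf G u
      rw [hGq]
      have h6 := d1 u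
      have e : m1 ⬝ᵥ u = n1 ⬝ᵥ gM u := by
        rw [l1 u]
        unfold dotProduct
        rw [Fin.sum_univ_two]
      rw [e]
      exact h6) (fun u => by
      show (m2 ⬝ᵥ u) ^ 2 ≤ qf G u
      rw [hGq]
      have h6 := d2 u
      have e : m2 ⬝ᵥ u = n2 ⬝ᵥ gM u := by
        rw [l2 u]
        unfold dotProduct
        rw [Fin.sum_univ_two]
      rw [e]
      exact h6) (by
      show (τ / 2) ^ 2 * (p * r - q ^ 2) ≤ _
      exact harea) u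
  have h6 : (τ / 2) ^ 2 * qf A (gM u) ≤ (|n1 ⬝ᵥ gM u| + |n2 ⬝ᵥ gM u|) ^ 2 := by
    have e1 : m1 ⬝ᵥ u = n1 ⬝ᵥ gM u := by
      rw [l1 u]
      unfold dotProduct
      rw [Fin.sum_univ_two]
    have e2 : m2 ⬝ᵥ u = n2 ⬝ᵥ gM u := by
      rw [l2 u]
      unfold dotProduct
      rw [Fin.sum_univ_two]
    rw [e1, e2] at h5
    rw [← hGq]
    exact h5
  have h7 : (|n1 ⬝ᵥ gM u| + |n2 ⬝ᵥ gM u|) ^ 2 ≤ (2 * a) ^ 2 := by
    apply pow_le_pow_left₀ (by positivity)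
    linarith
  nlinarith

end

end Pool.Agent.Helper51.LD2
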