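import Pool.Agent.Helper55.LP2.S34d
import Pool.Agent.Helper55.LP2.Cmp
import Pool.Agent.Helper51.LIP.HfEdir
import Pool.Agent.Helper42.NS.Zf2

/-! SEC34, piece B: the affine function of the tangent hyperplane and the known 1-form satisfy the hypotheses of LAB. -/

set_option autoImplicit false

namespace Pool.Agent.Helper51.S34

open Finset Filter Topology Matrix Pool.Agent.Helper69.RK Pool.Agent.Helper31.EC Pool.Agent.Helper31.EC.Sp
open Pool.Agent.Helper40.EL Pool.Agent.Helper3.LF Pool.Agent.Helper89.LX Pool.Agent.Helper40.NSK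
open Pool.Agent.Helper48.NS Pool.Agent.Helper48.LIP Pool.Agent.Helper55.LP2 Pool.Agent.Helper39.LIP
open Pool.Agent.Helper3.SG
open Pool.Agent.Helper95.LF (PdM)

noncomputable section

/-! ### finite lemmas -/

/-- matrices are bounded -/
theorem mulVec_bd {ι κ : Type} [Fintype ι] [Fintype κ] (M : Matrix ι κ ℝ) (v : κ → ℝ) :
    (M *ᵥ v) ⬝ᵥ (M *ᵥ v) ≤ (∑ b, ∑ a, M b a ^ 2) * (v ⬝ᵥ v) := by
  unfold dotProduct
  rw [Finset.sum_mul]
  refine Finset.sum_le_sum fun b _ => ?_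
  have h1 := Finset.sum_mul_sq_le_sq_mul_sq Finset.univ (fun a => M b a) v
  have h2 : (M *ᵥ v) b * (M *ᵥ v) b = (∑ a, M b a * v a) ^ 2 := by
    rw [sq]
    rfl
  rw [h2]
  refine h1.trans (le_of_eq ?_)
  congr 1
  exact Finset.sum_congr rfl fun a _ => sq _

theorem rsv_bd (zi : Fin (3 + 1)) : ∃ C : ℝ, 0 ≤ C ∧ ∀ v : Mon (3 + 1) 1 → ℝ, rsv zi v ⬝ᵥ rsv zi v ≤ C * (v ⬝ᵥ v) := by
  refine ⟨∑ b, ∑ a, Rm zi b a ^ 2, Finset.sum_nonneg fun _ _ => Finset.sum_nonneg fun _ _ => sq_nonneg _, fun v => ?_⟩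
  rw [← Rm_mul]
  exact mulVec_bd (Rm zi) v

theorem aF_symm (δ : ℝ) (zi : Fin (3 + 1)) {g : Matrix (Mon (2 + 1) 1) (Mon (2 + 1) 1) ℝ} (hg : g.IsSymm) :
    (aF δ zi g).IsSymm := by
  unfold aF Matrix.IsSymm
  rw [Matrix.transpose_add, Matrix.transpose_one, Matrix.transpose_smul, Matrix.transpose_mul, Matrix.transpose_mul,
    Matrix.transpose_transpose, hg.eq, Matrix.mul_assoc]

theorem v1_vv (q : Fin (3 + 1) → ℝ) : v1 (vv q) = q := by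
  funext j
  exact vv_var le_rfl j q

theorem v0_vv (q : Fin (3 + 1) → ℝ) : v0 (vv q) = 1 := vv_zero q

theorem rsv_vv (zi : Fin (3 + 1)) (q : Fin (3 + 1) → ℝ) : rsv zi (vv q) = vv (rmv zi q) := by
  unfold rsv
  rw [v0_vv, v1_vv, one_smul, ← vv_gv, zero_add]

theorem rmv_nodp (zi : Fin (3 + 1)) (r : ℝ) (p : Fin (3 + 1) → ℝ) (j : Fin (3 + 1) → Fin (1 + 1)) :
    rmv zi (nodp 1 p r j) = nodp 1 (rmv zi p) r (fun l => j (zi.succAbove l)) := rfl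

/-- the size of the known form -/
theorem phi_aF {δ : ℝ} (h1 : δ ≤ 1) (zi : Fin (3 + 1)) {g : Matrix (Mon (2 + 1) 1) (Mon (2 + 1) 1) ℝ}
    (hg : ∀ v, 0 ≤ qf g v) (r : ℝ) (p : Fin (3 + 1) → ℝ) :
    phi r (aF δ zi g) p ≤ phi r (1 : Matrix (Mon (3 + 1) 1) (Mon (3 + 1) 1) ℝ) p +
      nn (3 + 1) 1 * phi r g (rmv zi p) := by
  have h2 : ∀ j : Fin (3 + 1) → Fin (1 + 1), vv (nodp 1 p r j) ⬝ᵥ (aF δ zi g *ᵥ vv (nodp 1 p r j)) ≤
      vv (nodp 1 p r j) ⬝ᵥ ((1 : Matrix (Mon (3 + 1) 1) (Mon (3 + 1) 1) ℝ) *ᵥ vv (nodp 1 p r j)) +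
        phi r g (rmv zi p) := by
    intro j
    have e1 := qf_aF δ zi g (vv (nodp 1 p r j))
    have e2 : vv (nodp 1 p r j) ⬝ᵥ (aF δ zi g *ᵥ vv (nodp 1 p r j)) = qf (aF δ zi g) (vv (nodp 1 p r j)) := rfl
    rw [e2, e1, Matrix.one_mulVec, rsv_vv, rmv_nodp]
    have e3 : qf g (vv (nodp 1 (rmv zi p) r (fun l => j (zi.succAbove l)))) ≤ phi r g (rmv zi p) := by
      unfold phi
      exact Finset.single_le_sum (f := fun j : Fin (2 + 1) → Fin (1 + 1) =>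
        vv (nodp 1 (rmv zi p) r j) ⬝ᵥ (g *ᵥ vv (nodp 1 (rmv zi p) r j))) (fun _ _ => hg _)
        (Finset.mem_univ (fun l => j (zi.succAbove l)))
    have e4 : 0 ≤ qf g (vv (nodp 1 (rmv zi p) r (fun l => j (zi.succAbove l)))) := hg _
    have e5 : δ * qf g (vv (nodp 1 (rmv zi p) r (fun l => j (zi.succAbove l)))) ≤
        1 * qf g (vv (nodp 1 (rmv zi p) r (fun l => j (zi.succAbove l)))) := mul_le_mul_of_nonneg_right h1 e4
    linarith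
  have h3 := Finset.sum_le_sum (s := (Finset.univ : Finset (Fin (3 + 1) → Fin (1 + 1)))) fun j _ => h2 j
  rw [Finset.sum_add_distrib, Finset.sum_const, nsmul_eq_mul, card_nodes] at h3
  exact h3

/-- gradients in the vertical direction -/
theorem gd_zv {D : ℕ} (zi : Fin (3 + 1)) (p : Fin (3 + 1) → ℝ) : (gd (zv zi) p : Mon (3 + 1) D → ℝ) = dd zi p := by
  funext a
  unfold gd zv
  rw [Finset.sum_eq_single zi]
  · rw [Pi.single_eq_same, one_mul]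
  · intro j _ hj
    rw [Pi.single_eq_of_ne hj, zero_mul]
  · intro h
    exact absurd (Finset.mem_univ zi) h

theorem dd_ne {D : ℕ} (hD : 1 ≤ D) (zi : Fin (3 + 1)) (p : Fin (3 + 1) → ℝ) : (dd zi p : Mon (3 + 1) D → ℝ) ≠ 0 := by
  intro h
  have h1 := Pool.Agent.Helper3.ZM.dd_sng hD zi zi p
  rw [h, if_pos rfl] at h1
  exact zero_ne_one h1

theorem v1_dd (zi : Fin (3 + 1)) : v1 (dd zi 0) = zv zi := by
  have h1 : (dd zi 0 : Mon (3 + 1) 1 → ℝ) = gv (zv zi) := (gd_zv (D := 1) zi 0).symm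
  rw [h1]
  funext j
  exact gv_var (zv zi) j

theorem v0_dd (zi : Fin (3 + 1)) : v0 (dd zi 0) = 0 := dd_zero zi 0

/-- the derivative of the affine function in the vertical direction is one -/
theorem Lp_one {D : ℕ} (hD : 1 ≤ D) {A : Matrix (Mon (3 + 1) D) (Mon (3 + 1) D) ℝ} (hA : PdM A) (zi : Fin (3 + 1))
    (p : Fin (3 + 1) → ℝ) : Lp A zi p ⬝ᵥ dd zi 0 = 1 := by
  rw [Lp_dot, v1_dd, v0_dd]
  have h1 : (fun j => zv zi j - 0 * p j) = zv zi := by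
    funext j
    ring
  rw [h1]
  apply vpt_z
  rw [gd_zv]
  exact hA.2 _ (dd_ne hD zi p)

/-- the affine function at a point -/
theorem Lp_vv {D : ℕ} (A : Matrix (Mon (3 + 1) D) (Mon (3 + 1) D) ℝ) (zi : Fin (3 + 1)) (p q : Fin (3 + 1) → ℝ) :
    Lp A zi p ⬝ᵥ vv q = vpt A (zv zi) p (fun j => q j - p j) := by
  rw [Lp_dot, v1_vv, v0_vv]
  congr 1
  funext j
  ring

/-- the constant of the size -/
def Cz (D : ℕ) : ℝ := (nn (3 + 1) D * (Cu D * Cm (3 + 1) D * 2 ^ D) ^ 2) * nn (3 + 1) D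

/-- the size of the affine function near the node -/
theorem phi_L {D : ℕ} {A : Matrix (Mon (3 + 1) D) (Mon (3 + 1) D) ℝ} (hA : PdM A) (zi : Fin (3 + 1))
    (P C0 : Fin (3 + 1) → ℝ) {r M b : ℝ} (hr : 0 < r) (hM : phi r A P ≤ M) (hb : 0 < b) (hbz : b ^ 2 ≤ gami zi r A P)
    (hC : ∀ j, |P j - C0 j| ≤ r) :
    phi r (Matrix.vecMulVec (Lp A zi (nzd zi r A C0)) (Lp A zi (nzd zi r A C0))) P ≤
      (nn (3 + 1) 1 * (9 * ((3 + 1 : ℕ) ^ 2 * (Cm (3 + 1) D * 2 ^ ((3 + 1) * D + D)) ^ 2) * Cz D)) * (M / b ^ 2) := by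
  have hnn := nn_one (3 + 1) D
  have hnn1 := nn_one (3 + 1) 1
  have hCu := Cu_one D
  have hCm := Cm_one (3 + 1) D
  have hCz : 0 < Cz D := by
    unfold Cz
    positivity
  set p := nzd zi r A C0 with hp
  have h1 : gami zi r A P ≤ Cz D * qf A (dd zi p) := by
    have e1 := gami_comp zi A hA r r 2 hr hr.le (by norm_num) C0 P (fun j => by have := hC j; linarith)
    have e2 := nzd_spec zi r A C0
    have e3 : 0 ≤ nn (3 + 1) D * (Cu D * Cm (3 + 1) D * 2 ^ D) ^ 2 := by positivity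
    refine e1.trans ((mul_le_mul_of_nonneg_left e2 e3).trans (le_of_eq ?_))
    unfold Cz
    ring
  set Λ : ℝ := b / Real.sqrt (Cz D) with hΛd
  have hsq : 0 < Real.sqrt (Cz D) := Real.sqrt_pos.mpr hCz
  have hΛ : 0 < Λ := div_pos hb hsq
  have hΛ2 : Λ ^ 2 = b ^ 2 / Cz D := by
    rw [hΛd, div_pow, Real.sq_sqrt hCz.le]
  have hΛ' : Λ ^ 2 ≤ qf A (gd (zv zi) p) := by
    rw [gd_zv, hΛ2, div_le_iff₀ hCz, mul_comm]
    exact hbz.trans h1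
  have hpP : ∀ j, |p j - P j| ≤ 2 * r := by
    intro j
    have e1 := nzd_close zi hr.le A C0 j
    have e2 := hC j
    have e3 := abs_sub (p j - C0 j) (P j - C0 j)
    have e4 : p j - C0 j - (P j - C0 j) = p j - P j := by ring
    rw [e4] at e3
    have e5 : |p j - C0 j| ≤ r := e1
    linarith
  have hM0 : 0 ≤ M := (phi_nonneg _ (fun y => hA.nonneg y) _).trans hM
  have h2 : ∀ j ∈ (Finset.univ : Finset (Fin (3 + 1) → Fin (1 + 1))),
      vv (nodp 1 P r j) ⬝ᵥ (Matrix.vecMulVec (Lp A zi p) (Lp A zi p) *ᵥ vv (nodp 1 P r j)) ≤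
        (9 * ((3 + 1 : ℕ) ^ 2 * (Cm (3 + 1) D * 2 ^ ((3 + 1) * D + D)) ^ 2) * Cz D) * (M / b ^ 2) := by
    intro j _
    have e1 : vv (nodp 1 P r j) ⬝ᵥ (Matrix.vecMulVec (Lp A zi p) (Lp A zi p) *ᵥ vv (nodp 1 P r j)) =
        (Lp A zi p ⬝ᵥ vv (nodp 1 P r j)) ^ 2 := qf_vec _ _
    rw [e1, Lp_vv]
    have e2 := vpt_small hA p (zv zi) (fun l => nodp 1 P r j l - p l) P Λ hΛ hΛ' hr hpP hM (δ := 3 * r) (fun l => by
      have a1 := nodp_close r hr.le P j l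
      have a2 := hpP l
      have a3 := abs_sub (nodp 1 P r j l - P l) (p l - P l)
      have a4 : nodp 1 P r j l - P l - (p l - P l) = nodp 1 P r j l - p l := by ring
      rw [a4] at a3
      linarith)
    rw [hΛ2] at e2
    set X := vpt A (zv zi) p (fun l => nodp 1 P r j l - p l) with hX
    set C1 : ℝ := (3 + 1 : ℕ) ^ 2 * (Cm (3 + 1) D * 2 ^ ((3 + 1) * D + D)) ^ 2 with hC1
    have hr2 : 0 < r ^ 2 := by positivity
    have hb2 : 0 < b ^ 2 := by positivity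
    have e3 : X ^ 2 * (r ^ 2 * (b ^ 2 / Cz D)) = (X ^ 2 * b ^ 2 / Cz D) * r ^ 2 := by ring
    have e4 : C1 * (3 * r) ^ 2 * M = (9 * C1 * M) * r ^ 2 := by ring
    rw [e3, e4] at e2
    have e5 := le_of_mul_le_mul_right e2 hr2
    rw [div_le_iff₀ hCz] at e5
    have e6 : (9 * C1 * Cz D) * (M / b ^ 2) = (9 * C1 * M * Cz D) / b ^ 2 := by ring
    rw [e6, le_div_iff₀ hb2]
    exact e5
  have h3 := Finset.sum_le_sum h2
  rw [Finset.sum_const, nsmul_eq_mul, card_nodes] at h3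
  refine h3.trans (le_of_eq ?_)
  ring

/-! ### the objects on the space of the joined label -/

section
variable {S : Sp} {D : ℕ} {s : Sys S 3} {s' : Sys S 2} {c c₀ : ℝ}
  {x : ∀ k, FD (S.F k) (Mon (3 + 1) D)} {x' : ∀ k, FD (S.F k) (Mon (2 + 1) 1)}

/-- (1) the joined label is canonical -/
theorem jx_can (hc : c ≤ c₀) (hx : IsCan s D c₀ x) (hx' : IsCanP s s' 1 c x') : IsCan s D c₀ (fun k => Jx x x' k) :=
  Pool.Agent.Helper42.NS.jn_can hc hx hx'.2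

theorem jx_pd (hc : c ≤ c₀) (hx : IsCan s D c₀ x) (hx' : IsCanP s s' 1 c x') :
    ∀ᶠ k in UF, ∀ ω, (Jx x x' k).l.T.μ ω ≠ 0 → PdM ((Jx x x' k).g ω) := by
  filter_upwards [(jx_can hc hx hx').1.1 1 one_pos] with k hk ω hω using (hk.2.2.1 ω hω).1.pdM

theorem g0J_cpd (hx' : IsCanP s s' 1 c x') :
    ∀ᶠ k in UF, ∀ ω, (Jx x x' k).l.T.μ ω ≠ 0 → Cpd ((gau s' 1).cp k) (g0J x x' k ω) := by
  filter_upwards [hx'.1.1 1 one_pos] with k hk ω hω
  exact (hk.2.2.1 _ (((x k).l.am ((lb x') k)).p2.supp ω hω)).1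

/-- (2) the known form is between the identity and the cap -/
theorem aJ_cpd (hx' : IsCanP s s' 1 c x') (i : Fin 3) {e₁ : ℝ} (he : 0 < e₁) :
    ∀ᶠ k in UF, ∀ ω, (Jx x x' k).l.T.μ ω ≠ 0 → Cpd ((gau s 1).cp k) (aJ x x' i e₁ k ω) := by
  obtain ⟨C, hC0, hC⟩ := rsv_bd i.succ
  filter_upwards [g0J_cpd (x := x) hx', (S.Sub_const (mul_nonneg zero_le_two hC0)).eventually_le he,
    eventually_le_two_pow S 2] with k h1 h2 h4 ω hω
  obtain ⟨u1, u2, u3⟩ := h1 ω hω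
  have hn := (S.F k).pos
  have hcp : (gau s' 1).cp k = (gau s 1).cp k := rfl
  rw [hcp] at u3
  set cp := (gau s 1).cp k with hcpd
  have hcp2 : 2 ≤ cp := by
    have e1 : cp = 2 ^ ((2 * ((1 : ℕ) : ℝ) + 1 + 1) * (S.F k).n) := rfl
    rw [e1]
    refine h4.trans (Real.rpow_le_rpow_of_exponent_le (by norm_num) ?_)
    push_cast
    linarith
  set δ : ℝ := 2 ^ (-(e₁ * (S.F k).n)) with hδ
  have hδ0 : 0 < δ := by positivity
  have hδC : 2 * (δ * C) ≤ 1 := by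
    have e1 : δ * 2 ^ (e₁ * (S.F k).n) = 1 := by
      rw [hδ, ← Real.rpow_add (by norm_num)]
      rw [neg_add_cancel, Real.rpow_zero]
    have e2 := mul_le_mul_of_nonneg_left h2 hδ0.le
    rw [e1] at e2
    linarith
  refine ⟨aF_symm δ i.succ u1, fun v => ?_, fun v => ?_⟩
  · have e1 : qf (aJ x x' i e₁ k ω) v = v ⬝ᵥ v + δ * qf (g0J x x' k ω) (rsv i.succ v) := qf_aF _ _ _ _
    rw [e1]
    have e2 : 0 ≤ qf (g0J x x' k ω) (rsv i.succ v) := (dot_self_nonneg _).trans (u2 _)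
    have e3 := mul_nonneg hδ0.le e2
    linarith
  · have e1 : qf (aJ x x' i e₁ k ω) v = v ⬝ᵥ v + δ * qf (g0J x x' k ω) (rsv i.succ v) := qf_aF _ _ _ _
    rw [e1]
    have e0 : 0 ≤ v ⬝ᵥ v := dot_self_nonneg v
    have e2 : qf (g0J x x' k ω) (rsv i.succ v) ≤ cp * (C * (v ⬝ᵥ v)) :=
      (u3 _).trans (mul_le_mul_of_nonneg_left (hC v) (by linarith))
    have e3 := mul_le_mul_of_nonneg_left e2 hδ0.le
    have e4 : 0 ≤ cp * (v ⬝ᵥ v) := mul_nonneg (by linarith) e0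
    have e5 := mul_le_mul_of_nonneg_right hδC e4
    have e6 := mul_le_mul_of_nonneg_right hcp2 e0
    have e7 : δ * (cp * (C * (v ⬝ᵥ v))) = 1 / 2 * (2 * (δ * C) * (cp * (v ⬝ᵥ v))) := by ring
    rw [e7] at e3
    linarith

/-- points -/
theorem jx_pt (k : ℕ) (ω : (Jx x x' k).l.T.Ω) (h : (Jx x x' k).l.T.μ ω ≠ 0) :
    (Jx x x' k).l.p.π ω = (x' k).l.p.π (((x k).l.am ((lb x') k)).p2.π ω) :=
  (((x k).l.am ((lb x') k)).supp ω h).1

/-- the base point of the factor -/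
theorem rmv_ptf {i : Fin 3} (hcr : Crd s s' i.succAbove) (k : ℕ) (ω : (S.F k).Ω) :
    rmv i.succ (ptf s k ω) = ptf s' k ω := by
  funext j
  rw [hcr.ptf]
  show ptf s k ω (i.succ.succAbove j) = ptf s k ω (kap1 i.succAbove j)
  congr 1
  refine Fin.cases ?_ (fun j => ?_) j
  · rw [Fin.succ_succAbove_zero]
    rfl
  · rw [Fin.succ_succAbove_succ]
    rfl

/-- (3) the known form is bounded at typical points -/
theorem aJ_phi {i : Fin 3} (hcr : Crd s s' i.succAbove) (hx' : IsCanP s s' 1 c x') {e₁ : ℝ} (he : 0 < e₁) (η : ℝ)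
    (hη : 0 < η) : ∀ᶠ k in UF, (Jx x x' k).l.T.pb (fun ω =>
      ¬ sph s 1 k ((Jx x x' k).l.p.π ω) (aJ x x' i e₁ k ω) ≤ 2 ^ (η * (S.F k).n)) ≤ η := by
  obtain ⟨K, hK, hK1⟩ := (gau s 1).one
  have hη2 : 0 < η / 2 := by linarith
  have hnn1 := nn_one (3 + 1) 1
  filter_upwards [g0J_cpd (x := x) hx', hx'.1.1 (η / 2) hη2, hK1, hK.eventually_le hη2,
    (S.Sub_const (by linarith : (0 : ℝ) ≤ 1 + nn (3 + 1) 1)).eventually_le hη2] with k h1 h2 h3 h4 h5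
  have hn := (S.F k).pos
  have h6 := h2.2.2.2.1
  have h6' := (pb_push ((x k).l.am ((lb x') k)).p2 (fun ω => ¬ (gau s' 1).φ k ((x' k).l.p.π ω) ((x' k).g ω) ≤
    2 ^ (η / 2 * (S.F k).n))).le.trans h6
  refine le_trans (FSp.pb_mono _ ?_) (h6'.trans (by linarith))
  intro ω hω hbad hE
  apply hbad
  have hE' : phi (S.dl 1 k) (g0J x x' k ω) (ptf s' k ((Jx x x' k).l.p.π ω)) ≤ 2 ^ (η / 2 * (S.F k).n) := by
    rw [jx_pt k ω hω]
    exact hE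
  have hδ1 : (2 : ℝ) ^ (-(e₁ * (S.F k).n)) ≤ 1 :=
    Real.rpow_le_one_of_one_le_of_nonpos (by norm_num) (by
      have := mul_nonneg he.le hn.le
      linarith)
  have h7 := phi_aF hδ1 i.succ (fun v => (h1 ω hω).psd.2 v)
    (S.dl 1 k) (ptf s k ((Jx x x' k).l.p.π ω))
  rw [rmv_ptf hcr] at h7
  have h8 : phi (S.dl 1 k) (1 : Matrix (Mon (3 + 1) 1) (Mon (3 + 1) 1) ℝ) (ptf s k ((Jx x x' k).l.p.π ω)) ≤ K k :=
    h3 _ ((Jx x x' k).l.p.supp ω hω)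
  have h9 : phi (S.dl 1 k) (aF (2 ^ (-(e₁ * (S.F k).n))) i.succ (g0J x x' k ω)) (ptf s k ((Jx x x' k).l.p.π ω)) ≤
      K k + nn (3 + 1) 1 * 2 ^ (η / 2 * (S.F k).n) :=
    h7.trans (add_le_add h8 (mul_le_mul_of_nonneg_left hE' (by linarith)))
  refine h9.trans ?_
  have e1 : (2 : ℝ) ^ (η * (S.F k).n) = 2 ^ (η / 2 * (S.F k).n) * 2 ^ (η / 2 * (S.F k).n) := by
    rw [← Real.rpow_add (by norm_num)]
    congr 1
    ring
  have e2 : K k ≤ 2 ^ (η / 2 * (S.F k).n) := by linarith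
  have e3 : (1 + nn (3 + 1) 1) * 2 ^ (η / 2 * (S.F k).n) ≤ 2 ^ (η / 2 * (S.F k).n) * 2 ^ (η / 2 * (S.F k).n) :=
    mul_le_mul_of_nonneg_right (by linarith) (by positivity)
  rw [e1]
  linarith

/-- (4) the derivative of the affine function is one -/
theorem LJ_one (hD : 1 ≤ D) (hc : c ≤ c₀) (hx : IsCan s D c₀ x) (hx' : IsCanP s s' 1 c x') (i : Fin 3) :
    ∀ᶠ k in UF, ∀ ω, (Jx x x' k).l.T.μ ω ≠ 0 → LJ s x x' i k ω ⬝ᵥ dd i.succ 0 = 1 := by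
  filter_upwards [jx_pd hc hx hx'] with k hk ω hω
  exact Lp_one hD (hk ω hω) i.succ _

/-- large derivatives on the joined label -/
theorem jx_hz {i : Fin 3} (hz : Hz s i x) : Hz s i (fun k => Jx x x' k) := by
  intro e he
  have h1 := hz e he
  refine h1.congr fun k => ?_
  have h2 := pb_push ((x k).l.am ((lb x') k)).p1 (fun ω => ¬ 2 ^ (2 * (1 - e) * (S.F k).n) ≤
    gami i.succ (S.dl 1 k) ((x k).g ω) (ptf s k ((x k).l.p.π ω)))
  exact h2.symm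

/-- (5) the size of the affine function at typical points -/
theorem LJ_phi (hc : c ≤ c₀) (hx : IsCan s D c₀ x) (hx' : IsCanP s s' 1 c x') {i : Fin 3} (hz : Hz s i x) {τ : ℝ}
    (hτ : τ ≤ 1) (η : ℝ) (hη : 0 < η) : ∀ᶠ k in UF, (Jx x x' k).l.T.pb (fun ω =>
      ¬ sph s 1 k ((Jx x x' k).l.p.π ω) (Matrix.vecMulVec (LJ s x x' i k ω) (LJ s x x' i k ω)) ≤
        2 ^ ((η - 2 * τ) * (S.F k).n)) ≤ η := by
  have hη4 : 0 < η / 4 := by linarith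
  have hnn := nn_one (3 + 1) D
  have hnn1 := nn_one (3 + 1) 1
  have hCu := Cu_one D
  have hCm := Cm_one (3 + 1) D
  have hCz : 0 < Cz D := by
    unfold Cz
    positivity
  set C : ℝ := nn (3 + 1) 1 * (9 * ((3 + 1 : ℕ) ^ 2 * (Cm (3 + 1) D * 2 ^ ((3 + 1) * D + D)) ^ 2) * Cz D) with hC
  have hC0 : 0 ≤ C := by
    rw [hC]
    positivity
  have h1 : Tendsto (fun k => (Jx x x' k).l.T.pb (fun ω => ¬ 2 ^ (2 * (1 - η / 4) * (S.F k).n) ≤
    gami i.succ (S.dl 1 k) ((Jx x x' k).g ω) (ptf s k ((Jx x x' k).l.p.π ω)))) UF (𝓝 0) := jx_hz hz (η / 4) hη4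
  filter_upwards [jx_pd hc hx hx', (jx_can hc hx hx').1.1 (η / 4) hη4, h1.eventually (gt_mem_nhds hη4),
    (S.Sub_const hC0).eventually_le hη4] with k a1 a2 a3 a4
  have hn := (S.F k).pos
  have a5 := a2.2.2.2.1
  refine le_trans (FSp.pb_mono _ ?_) ((pb_or (Jx x x' k).l.T (fun ω => ¬ sph s D k ((Jx x x' k).l.p.π ω)
    ((Jx x x' k).g ω) ≤ 2 ^ (η / 4 * (S.F k).n)) (fun ω => ¬ 2 ^ (2 * (1 - η / 4) * (S.F k).n) ≤
    gami i.succ (S.dl 1 k) ((Jx x x' k).g ω) (ptf s k ((Jx x x' k).l.p.π ω)))).trans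
    ((add_le_add a5 a3.le).trans (by linarith)))
  intro ω hω hbad
  by_contra hcon
  push Not at hcon
  obtain ⟨b1, b2⟩ := hcon
  apply hbad
  have hbz : ((2 : ℝ) ^ ((1 - η / 4) * (S.F k).n)) ^ 2 ≤
      gami i.succ (S.dl 1 k) ((Jx x x' k).g ω) (ptf s k ((Jx x x' k).l.p.π ω)) := by
    rw [p2_sq]
    exact b2
  have h2 := phi_L (a1 ω hω) i.succ (ptf s k ((Jx x x' k).l.p.π ω)) (crn s k ((Jx x x' k).l.p.π ω)) (S.dl_pos 1 k)
    b1 (by positivity) hbz (fun j => crn_close s k _ j)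
  refine le_trans (show sph s 1 k ((Jx x x' k).l.p.π ω) (Matrix.vecMulVec (LJ s x x' i k ω) (LJ s x x' i k ω)) ≤
    C * (2 ^ (η / 4 * (S.F k).n) / ((2 : ℝ) ^ ((1 - η / 4) * (S.F k).n)) ^ 2) from h2) ?_
  rw [p2_sq, p2_div]
  exact p2_abs hn (by linarith : C ≤ 2 ^ (η / 4 * (S.F k).n)) (by linarith)

/-- agreement of measurable functions -/
theorem AgV_self {ι : Type} [Fintype ι] {n e τ : ℝ} (hen : 0 ≤ e * n) {a : Matrix ι ι ℝ} (ha : Psd a)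
    (L : ι → ℝ) : AgV n e τ a a L L := by
  have h1 : (1 : ℝ) ≤ 2 ^ (e * n) := Real.one_le_rpow (by norm_num) hen
  have h2 : ∀ v, qf a v ≤ 2 ^ (e * n) * qf a v := fun v => le_mul_of_one_le_left (ha.2 v) h1
  refine ⟨h2, h2, fun v => ?_⟩
  rw [sub_self, zero_dotProduct]
  have := ha.2 v
  have h3 : 0 ≤ 2 ^ ((e - 2 * τ) * n) * qf a v := mul_nonneg (by positivity) this
  calc (0 : ℝ) ^ 2 = 0 := by norm_num
    _ ≤ _ := h3

/-- (6) the copies given the label and the cell of the point agree -/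
theorem agB (hx' : IsCanP s s' 1 c x') (i : Fin 3) {e₁ : ℝ} (he₁ : 0 < e₁) {e : ℝ} (he : 0 < e) (τ : ℝ) :
    ∀ᶠ k in UF, (1 : ℝ) ≤ (pam (Jx x x' k).l (Jx x x' k).l.V ((s.fin k).kP 1 ⊓ (s.fin k).kt 1)).sp.pb
      (fun w => AgV (S.F k).n e τ (aJ x x' i e₁ k w.1) (aJ x x' i e₁ k w.2) (LJ s x x' i k w.1)
        (LJ s x x' i k w.2)) := by
  filter_upwards [aJ_cpd (x := x) hx' i he₁] with k hk
  set P := pam (Jx x x' k).l (Jx x x' k).l.V ((s.fin k).kP 1 ⊓ (s.fin k).kt 1) with hP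
  have h1 := P.sp.pb_add_compl (fun w => AgV (S.F k).n e τ (aJ x x' i e₁ k w.1) (aJ x x' i e₁ k w.2)
    (LJ s x x' i k w.1) (LJ s x x' i k w.2))
  have h2 : P.sp.pb (fun w => ¬ AgV (S.F k).n e τ (aJ x x' i e₁ k w.1) (aJ x x' i e₁ k w.2)
    (LJ s x x' i k w.1) (LJ s x x' i k w.2)) ≤ 0 := by
    unfold FSp.pb mass
    refine Finset.sum_nonpos fun w _ => ?_
    by_cases hw : P.sp.μ w = 0
    · unfold Pool.Agent.Helper69.RK.res
      rw [hw, ite_self]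
    · obtain ⟨c1, c2⟩ := pam_supp _ _ _ w hw
      obtain ⟨⟨c3, c4⟩, c5⟩ := pam_rel _ _ _ w hw
      have e1 : aJ x x' i e₁ k w.1 = aJ x x' i e₁ k w.2 := aJ_meas x x' i e₁ k w.1 w.2 c1 c2 c3 c5
      have e2 : LJ s x x' i k w.1 = LJ s x x' i k w.2 := LJ_meas s x x' i k w.1 w.2 c1 c2 c3 c5 c4.1 c4.2
      rw [res_neg]
      intro h3
      apply h3
      rw [e1, e2]
      exact AgV_self (mul_nonneg he.le (S.F k).pos.le) (hk w.2 c2).psd _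
  linarith

/-- PIECE B OF SEC34 -/
theorem s34B : ∃ Cc : ℝ, 0 ≤ Cc ∧ ∀ {S : Sp} {D : ℕ} {s : Sys S 3} {s' : Sys S 2} {c c₀ : ℝ}
    {x : ∀ k, FD (S.F k) (Mon (3 + 1) D)} {x' : ∀ k, FD (S.F k) (Mon (2 + 1) 1)} {i : Fin 3},
    Pool.Agent.Helper42.NS.RobustG (fun i : Fin 3 => GDe 3 1 (Pi.single i 1)) s → Crd s s' i.succAbove → 1 ≤ D →
    c ≤ c₀ → IsCan s D c₀ x → IsCanP s s' 1 c x' → Hz s i x → ∀ {e₁ τ p₀ : ℝ}, 0 < e₁ → τ ≤ 1 → 0 < p₀ →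
    (∀ᶠ k in UF, p₀ ≤ (FAm.self (Jx x x' k).l.T ((Jx x x' k).l.V ⊓
      Setoid.comap (Jx x x' k).l.p.π (cAs s c₀ k))).sp.pb (fun w => AgV (S.F k).n e₁ τ (aJ x x' i e₁ k w.1)
        (aJ x x' i e₁ k w.2) (LJ s x x' i k w.1) (LJ s x x' i k w.2))) →
    HfE s 1 (Pi.single i 1) c₀ (τ - Cc * e₁) := by
  obtain ⟨Cc, hCc, h⟩ := lab_robE 3
  refine ⟨Cc, hCc, ?_⟩
  intro S D s s' c c₀ x x' i hR hcr hD hc hx hx' hz e₁ τ p₀ he hτ hp₀ hA
  have hk : IsKap s c₀ (fun k => (Jx x x' k).l) := (jx_can hc hx hx').2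
  exact h s hR (l := fun k => (Jx x x' k).l) hk (fun k => (Jx x x' k).l.V) (fun k => le_rfl) hk.dm.2
    (fun k => pam (Jx x x' k).l (Jx x x' k).l.V (cAs s c₀ k))
    (fun k => pam (Jx x x' k).l (Jx x x' k).l.V ((s.fin k).kP 1 ⊓ (s.fin k).kt 1)) (fun k => rfl)
    (fun k => pam_ker _ _ _) (fun k => pam_ker _ _ _) (fun k => aJ x x' i e₁ k) (fun k => LJ s x x' i k)
    (aJ_cpd hx' i he) (fun η hη => aJ_phi hcr hx' he η hη) i (LJ_one hD hc hx hx' i) τ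
    (fun η hη => LJ_phi hc hx hx' hz hτ η hη) e₁ he (p := p₀) (q := 1) (by linarith) hA (agB hx' i he he τ)

end

end

end Pool.Agent.Helper51.S34
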